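import Pool.Agent.Helper30.N9.Defs

/-!
MP_9b91d1_co, row PER: the faces of a vertex 3-connected plane graph are induced and
nonseparating cycles.
-/

open Pool.Agent.Helper30.N9

namespace N9Per

variable {V : Type} [Fintype V] [DecidableEq V] (M : PlaneGraph V)

/-- The faces. -/
abbrev Fc := Quotient (Equiv.Perm.SameCycle.setoid M.nxt)

noncomputable instance : Fintype (Fc M) := Fintype.ofFinite _

noncomputable instance : DecidableEq (Fc M) := Classical.decEq _

/-- The face of a dart. -/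
def fc (d : M.G.Dart) : Fc M := Quotient.mk _ d

theorem fc_eq {d e : M.G.Dart} : fc M d = fc M e ↔ M.nxt.SameCycle d e := Quotient.eq

theorem fc_nxt (d : M.G.Dart) : fc M (M.nxt d) = fc M d := by
  rw [fc_eq]
  exact Equiv.Perm.sameCycle_apply_left.2 (Equiv.Perm.SameCycle.refl _ _)

theorem rot_symm (d : M.G.Dart) : M.rot d.symm = M.nxt d := by
  rw [M.rot_eq, SimpleGraph.Dart.symm_symm]

theorem rot_fst (d : M.G.Dart) : (M.rot d).fst = d.fst := by
  rw [M.rot_eq, M.nxt_fst]; rfl

theorem rot_inv_nxt (d : M.G.Dart) : M.rot.symm (M.nxt d) = d.symm := by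
  rw [← rot_symm, Equiv.symm_apply_apply]

theorem rot_inv_fst (d : M.G.Dart) : (M.rot.symm d).fst = d.fst := by
  conv_rhs => rw [← M.rot.apply_symm_apply d, rot_fst]

theorem fc_rot (d : M.G.Dart) : fc M (M.rot d) = fc M d.symm := by
  rw [M.rot_eq, fc_nxt]

/-! ### Cohomology -/

theorem const_of {A : Type*} {s : Finset V} (h : (M.G.induce {v | v ∉ s}).Preconnected)
    (φ : V → A) (hφ : ∀ d : M.G.Dart, d.fst ∉ s → d.snd ∉ s → φ d.fst = φ d.snd) {a b : V}
    (ha : a ∉ s) (hb : b ∉ s) : φ a = φ b := by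
  obtain ⟨w⟩ := h ⟨a, ha⟩ ⟨b, hb⟩
  have key : ∀ (p q : {v | v ∉ s}), (M.G.induce {v | v ∉ s}).Walk p q → φ p.1 = φ q.1 := by
    intro p q w
    induction w with
    | nil => rfl
    | @cons u v w' hadj _ ih =>
      have h1 : M.G.Adj u.1 v.1 := hadj
      exact Eq.trans (hφ ⟨(u.1, v.1), h1⟩ u.2 v.2) ih
  exact key _ _ w

/-- A function on the darts invariant under `nxt` and reversal is constant. -/
theorem dart_const {A : Type} (h : ∀ (φ : V → Set A),
    (∀ d : M.G.Dart, φ d.fst = φ d.snd) → ∀ a b, φ a = φ b) (S : M.G.Dart → A)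
    (h1 : ∀ d, S (M.nxt d) = S d) (h2 : ∀ d, S d.symm = S d) (d e : M.G.Dart) : S d = S e := by
  have hrot : ∀ d, S (M.rot d) = S d := fun d => by rw [M.rot_eq, h1, h2]
  have hpow : ∀ (n : ℕ) d, S ((M.rot ^ n) d) = S d := by
    intro n
    induction n with
    | zero => intro d; rfl
    | succ n ih => intro d; rw [pow_succ', Equiv.Perm.mul_apply, hrot, ih]
  have hv : ∀ d e : M.G.Dart, d.fst = e.fst → S d = S e := by
    intro d e hde
    obtain ⟨n, -, hn⟩ := (M.trans d e hde).exists_pow_eq''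
    rw [← hn.2, hpow]
  have h3 := h (fun v => {a | ∃ d : M.G.Dart, d.fst = v ∧ S d = a}) (by
    intro d
    ext a
    constructor
    · rintro ⟨e, he, rfl⟩
      exact ⟨d.symm, rfl, by rw [h2]; exact hv _ _ he.symm⟩
    · rintro ⟨e, he, rfl⟩
      exact ⟨d, rfl, by rw [← h2]; exact hv _ _ he.symm⟩) d.fst e.fst
  have h4 : S d ∈ {a | ∃ d' : M.G.Dart, d'.fst = e.fst ∧ S d' = a} := by
    rw [← h3]; exact ⟨d, rfl, rfl⟩
  obtain ⟨d', hd', h5⟩ := h4
  rw [← h5]
  exact hv _ _ hd'

/-- The coboundary of a function on the vertices. -/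
noncomputable def d0 : (V → ZMod 2) →ₗ[ZMod 2] (M.G.edgeSet → ZMod 2) where
  toFun φ e := Sym2.lift ⟨fun u v => φ u + φ v, fun _ _ => add_comm _ _⟩ e.1
  map_add' φ ψ := by
    funext ⟨e, he⟩
    induction e with
    | _ u v =>
      simp only [Sym2.lift_mk, Pi.add_apply]
      ring
  map_smul' c φ := by
    funext ⟨e, he⟩
    induction e with
    | _ u v =>
      simp only [Sym2.lift_mk, Pi.smul_apply, smul_eq_mul, RingHom.id_apply]
      ring

theorem d0_apply (φ : V → ZMod 2) (d : M.G.Dart) :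
    d0 M φ ⟨d.edge, d.edge_mem⟩ = φ d.fst + φ d.snd := rfl

open Classical in
/-- The coboundary of a function on the edges. -/
noncomputable def d1 : (M.G.edgeSet → ZMod 2) →ₗ[ZMod 2] (Fc M → ZMod 2) where
  toFun c f := ∑ d : M.G.Dart with fc M d = f, c ⟨d.edge, d.edge_mem⟩
  map_add' a b := by
    funext f
    simp only [Pi.add_apply, Finset.sum_add_distrib]
  map_smul' c a := by
    funext f
    simp only [Pi.smul_apply, smul_eq_mul, RingHom.id_apply, Finset.mul_sum]

open Classical in
theorem d1_apply (c : M.G.edgeSet → ZMod 2) (f : Fc M) :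
    d1 M c f = ∑ d : M.G.Dart with fc M d = f, c ⟨d.edge, d.edge_mem⟩ := rfl

open Classical in
/-- Reindexing a sum over a face. -/
theorem sum_nxt {A : Type*} [AddCommMonoid A] (g : M.G.Dart → A) (f : Fc M) :
    ∑ d : M.G.Dart with fc M d = f, g (M.nxt d) = ∑ d : M.G.Dart with fc M d = f, g d := by
  refine Finset.sum_equiv M.nxt (fun d => ?_) (fun d _ => rfl)
  simp only [Finset.mem_filter, Finset.mem_univ, true_and, fc_nxt]

theorem two_zero (a : ZMod 2) : a + a = 0 := CharTwo.add_self_eq_zero a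

theorem d1_d0 (φ : V → ZMod 2) : d1 M (d0 M φ) = 0 := by
  classical
  funext f
  rw [d1_apply]
  simp only [d0_apply, Finset.sum_add_distrib]
  have h := sum_nxt M (fun d => φ d.fst) f
  simp only [M.nxt_fst] at h
  rw [h]
  exact two_zero _

/-- `M.G` is connected, in the form used here. -/
def Con : Prop := ∀ {A : Type} (φ : V → A), (∀ d : M.G.Dart, φ d.fst = φ d.snd) → ∀ a b, φ a = φ b

theorem con_of (h : M.Conn3) : Con M := by
  intro A φ hφ a b
  exact const_of M (s := ∅) (h.2 ∅ (by simp)).preconnected φ (fun d _ _ => hφ d)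
    (Finset.notMem_empty a) (Finset.notMem_empty b)

variable {M}

theorem finrank_ker_d0 (hc : Con M) : Module.finrank (ZMod 2) (LinearMap.ker (d0 M)) ≤ 1 := by
  have h1 : d0 M (fun _ => 1) = 0 := by
    funext ⟨e, he⟩
    induction e with
    | _ u v => exact two_zero 1
  refine finrank_le_one (⟨fun _ => 1, h1⟩ : LinearMap.ker (d0 M)) fun w => ?_
  obtain ⟨φ, hφ⟩ := w
  rw [LinearMap.mem_ker] at hφ
  have h2 : ∀ d : M.G.Dart, φ d.fst = φ d.snd := by
    intro d
    have h3 := congrFun hφ ⟨d.edge, d.edge_mem⟩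
    rw [d0_apply] at h3
    have h4 : φ d.fst + φ d.snd = 0 := h3
    rw [← add_eq_zero_iff_eq_neg.1 h4.symm.symm |>.symm] at h4
    have h5 := two_zero (φ d.snd)
    have h6 : φ d.fst + φ d.snd + φ d.snd = φ d.snd := by rw [h3.trans rfl]; simp
    rw [add_assoc, h5, add_zero] at h6
    exact h6
  by_cases hV : Nonempty V
  · obtain ⟨v0⟩ := hV
    refine ⟨φ v0, Subtype.ext ?_⟩
    funext v
    have := hc φ h2 v0 v
    simpa using this
  · exact ⟨0, Subtype.ext (funext fun v => absurd ⟨v⟩ hV)⟩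

open Classical in
theorem d1_single (d : M.G.Dart) :
    d1 M (Pi.single ⟨d.edge, d.edge_mem⟩ 1) = Pi.single (fc M d) 1 + Pi.single (fc M d.symm) 1 := by
  funext f
  rw [d1_apply, Pi.add_apply]
  have h1 : ∀ e : M.G.Dart, (Pi.single ⟨d.edge, d.edge_mem⟩ 1 : M.G.edgeSet → ZMod 2)
      ⟨e.edge, e.edge_mem⟩ = (if e = d then 1 else 0) + (if e = d.symm then 1 else 0) := by
    intro e
    rw [Pi.single_apply]
    have h2 : (⟨e.edge, e.edge_mem⟩ : M.G.edgeSet) = ⟨d.edge, d.edge_mem⟩ ↔ e = d ∨ e = d.symm := by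
      rw [Subtype.mk.injEq, SimpleGraph.dart_edge_eq_iff]
    by_cases h3 : e = d
    · have h4 : d ≠ d.symm := d.symm_ne.symm
      rw [if_pos (h2.2 (Or.inl h3)), h3, if_pos rfl, if_neg h4, add_zero]
    · by_cases h4 : e = d.symm
      · rw [if_pos (h2.2 (Or.inr h4)), if_neg h3, if_pos h4, zero_add]
      · rw [if_neg (fun h => (h2.1 h).elim h3 h4), if_neg h3, if_neg h4, add_zero]
  rw [Finset.sum_congr rfl fun e _ => h1 e, Finset.sum_add_distrib, Finset.sum_ite_eq',
    Finset.sum_ite_eq', Pi.single_apply, Pi.single_apply]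
  simp only [Finset.mem_filter, Finset.mem_univ, true_and]
  congr 1
  · by_cases h : fc M d = f
    · rw [if_pos h, if_pos h.symm]
    · rw [if_neg h, if_neg fun h' => h h'.symm]
  · by_cases h : fc M d.symm = f
    · rw [if_pos h, if_pos h.symm]
    · rw [if_neg h, if_neg fun h' => h h'.symm]

theorem finrank_range_d1 (hc : Con M) :
    Fintype.card (Fc M) ≤ Module.finrank (ZMod 2) (LinearMap.range (d1 M)) + 1 := by
  classical
  have h1 := Submodule.finrank_quotient_add_finrank (LinearMap.range (d1 M))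
  rw [Module.finrank_fintype_fun_eq_card] at h1
  have h2 : Module.finrank (ZMod 2) ((Fc M → ZMod 2) ⧸ LinearMap.range (d1 M)) ≤ 1 := by
    by_cases hD : Nonempty M.G.Dart
    · obtain ⟨e0⟩ := hD
      set S : M.G.Dart → ((Fc M → ZMod 2) ⧸ LinearMap.range (d1 M)) := fun d =>
        Submodule.Quotient.mk (Pi.single (fc M d) 1) with hS
      have hS1 : ∀ d, S (M.nxt d) = S d := fun d => by simp only [hS, fc_nxt]
      have hS2 : ∀ d, S d.symm = S d := by
        intro d
        simp only [hS]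
        rw [Submodule.Quotient.eq]
        refine ⟨Pi.single ⟨d.edge, d.edge_mem⟩ 1, ?_⟩
        rw [d1_single]
        funext f
        simp only [Pi.add_apply, Pi.sub_apply]
        rw [CharTwo.sub_eq_add, add_comm]
      have hconst := dart_const M (fun φ hφ => hc φ hφ) S hS1 hS2
      refine finrank_le_one (S e0) fun w => ?_
      obtain ⟨g, rfl⟩ := Submodule.Quotient.mk_surjective _ w
      refine ⟨∑ f, g f, ?_⟩
      have hg : g = ∑ f, g f • (Pi.single f 1 : Fc M → ZMod 2) := by
        funext f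
        rw [Finset.sum_apply]
        simp [Pi.single_apply]
      conv_rhs => rw [hg]
      rw [← Submodule.mkQ_apply, map_sum, Finset.sum_smul]
      refine Finset.sum_congr rfl fun f _ => ?_
      rw [map_smul, Submodule.mkQ_apply]
      congr 1
      induction f using Quotient.inductionOn with
      | h d => exact hconst e0 d
    · have : IsEmpty (Fc M) := ⟨fun f => by
        induction f using Quotient.inductionOn with
        | h d => exact hD ⟨d⟩⟩
      have h3 : Fintype.card (Fc M) = 0 := Fintype.card_eq_zero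
      omega
  omega

theorem exact_mid (hc : Con M) : LinearMap.range (d0 M) = LinearMap.ker (d1 M) := by
  classical
  refine Submodule.eq_of_le_of_finrank_le ?_ ?_
  · rintro _ ⟨φ, rfl⟩
    exact d1_d0 M φ
  · have h1 := LinearMap.finrank_range_add_finrank_ker (d0 M)
    have h2 := LinearMap.finrank_range_add_finrank_ker (d1 M)
    rw [Module.finrank_fintype_fun_eq_card] at h1 h2
    have h3 := finrank_ker_d0 hc
    have h4 := finrank_range_d1 hc
    have h5 := M.euler
    have h6 : Nat.card (Quotient (Equiv.Perm.SameCycle.setoid M.nxt)) = Fintype.card (Fc M) :=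
      Nat.card_eq_fintype_card
    rw [h6, SimpleGraph.edgeFinset_card] at h5
    omega

open Classical in
/-- Vanishing of the first cohomology, in terms of corner functions. -/
theorem exists_phi (hc : Con M) (a : M.G.Dart → ZMod 2)
    (h : ∀ f : Fc M, ∑ d : M.G.Dart with fc M d = f, (a d + a (M.rot.symm d)) = 0) :
    ∃ φ : V → ZMod 2, ∀ d, a d + a d.symm = φ d.fst + φ d.snd := by
  have hex : ∀ e : M.G.edgeSet, ∃ d : M.G.Dart, d.edge = e.1 := by
    rintro ⟨e, he⟩
    induction e with
    | _ u v => exact ⟨⟨(u, v), he⟩, rfl⟩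
  choose dt hdt using hex
  set c : M.G.edgeSet → ZMod 2 := fun e => a (dt e) + a (dt e).symm with hcdef
  have hcd : ∀ d : M.G.Dart, c ⟨d.edge, d.edge_mem⟩ = a d + a d.symm := by
    intro d
    have h1 := hdt ⟨d.edge, d.edge_mem⟩
    rw [SimpleGraph.dart_edge_eq_iff] at h1
    simp only [hcdef]
    rcases h1 with h1 | h1
    · rw [h1]
    · rw [h1, SimpleGraph.Dart.symm_symm, add_comm]
  have hc1 : d1 M c = 0 := by
    funext f
    rw [d1_apply, Finset.sum_congr rfl fun d _ => hcd d, Finset.sum_add_distrib]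
    have h2 := h f
    rw [Finset.sum_add_distrib] at h2
    have h3 := sum_nxt M (fun d => a (M.rot.symm d)) f
    simp only [rot_inv_nxt] at h3
    rw [← h3] at h2
    exact h2
  have h4 : c ∈ LinearMap.range (d0 M) := by
    rw [exact_mid hc]; exact hc1
  obtain ⟨φ, hφ⟩ := h4
  refine ⟨φ, fun d => ?_⟩
  rw [← hcd, ← hφ, d0_apply]

/-- The arc of darts between two darts at a vertex. -/
theorem arc_exists [DecidableEq M.G.Dart] {x y : M.G.Dart} (hxy : x.fst = y.fst) :
    ∃ a : M.G.Dart → ZMod 2, (∀ d, d.fst ≠ x.fst → a d = 0) ∧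
      ∀ d, a d + a (M.rot.symm d) =
        (Pi.single x 1 : M.G.Dart → ZMod 2) d + (Pi.single y 1 : M.G.Dart → ZMod 2) d := by
  obtain ⟨n, -, hn⟩ := (M.trans x y hxy).exists_pow_eq''
  have hfst : ∀ j, ((M.rot ^ j) x).fst = x.fst := by
    intro j
    induction j with
    | zero => rfl
    | succ j ih => rw [pow_succ', Equiv.Perm.mul_apply, rot_fst, ih]
  refine ⟨fun d => ∑ j ∈ Finset.range n, (Pi.single ((M.rot ^ j) x) 1 : M.G.Dart → ZMod 2) d,
    ?_, ?_⟩
  · intro d hd
    refine Finset.sum_eq_zero fun j _ => ?_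
    rw [Pi.single_apply, if_neg]
    intro h
    exact hd (by rw [h, hfst])
  · intro d
    rw [← hn.2]
    clear hn hxy
    induction n with
    | zero =>
      simp only [Finset.range_zero, Finset.sum_empty, add_zero]
      exact (two_zero _).symm
    | succ n ih =>
      simp only [Finset.sum_range_succ]
      have h1 : (Pi.single ((M.rot ^ n) x) 1 : M.G.Dart → ZMod 2) (M.rot.symm d) =
          (Pi.single ((M.rot ^ (n + 1)) x) 1 : M.G.Dart → ZMod 2) d := by
        rw [Pi.single_apply, Pi.single_apply, pow_succ', Equiv.Perm.mul_apply]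
        simp only [Equiv.symm_apply_eq]
      rw [h1]
      have h2 := two_zero ((Pi.single ((M.rot ^ n) x) 1 : M.G.Dart → ZMod 2) d)
      simp only [] at ih
      linear_combination ih + h2

open Classical in
theorem sum_single (f : Fc M) (x : M.G.Dart) :
    ∑ d : M.G.Dart with fc M d = f, (Pi.single x 1 : M.G.Dart → ZMod 2) d =
      if fc M x = f then 1 else 0 := by
  simp only [Pi.single_apply]
  rw [Finset.sum_ite_eq']
  simp

/-- No face passes twice through a vertex. -/
theorem simple_face (h3 : M.Conn3) {x y : M.G.Dart} (hf : fc M x = fc M y) (hv : x.fst = y.fst) :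
    x = y := by
  classical
  by_contra hne
  obtain ⟨a, ha, hab⟩ := arc_exists hv
  obtain ⟨φ, hφ⟩ := exists_phi (con_of M h3) a (fun f => by
    rw [Finset.sum_congr rfl fun d _ => hab d, Finset.sum_add_distrib, sum_single, sum_single, hf]
    exact two_zero _)
  have hc0 : ∀ d : M.G.Dart, d.fst ∉ ({x.fst} : Finset V) → d.snd ∉ ({x.fst} : Finset V) →
      φ d.fst = φ d.snd := by
    intro d h1 h2
    rw [Finset.mem_singleton] at h1 h2
    have h4 := hφ d
    rw [ha d h1, ha d.symm h2] at h4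
    have h5 := two_zero (φ d.snd)
    linear_combination -h4 - h5
  have hc : ∀ {p q : V}, p ∉ ({x.fst} : Finset V) → q ∉ ({x.fst} : Finset V) → φ p = φ q :=
    fun hp hq => const_of M (h3.2 {x.fst} (by simp)).preconnected φ hc0 hp hq
  have hu : ∀ d : M.G.Dart, d.fst = x.fst → a d = φ x.fst + φ d.snd := by
    intro d hd
    have h4 := hφ d
    have h5 : d.symm.fst ≠ x.fst := by
      rw [← hd]; exact d.adj.ne'
    rw [ha d.symm h5, add_zero, hd] at h4
    exact h4
  have h6 := hab x
  have h7 : (M.rot.symm x).fst = x.fst := rot_inv_fst M x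
  rw [hu x rfl, hu _ h7, Pi.single_apply, Pi.single_apply, if_pos rfl, if_neg hne] at h6
  have h8 : φ x.snd = φ (M.rot.symm x).snd := hc (by
      rw [Finset.mem_singleton]; exact x.adj.ne') (by
      rw [Finset.mem_singleton, ← h7]; exact (M.rot.symm x).adj.ne')
  rw [← h8] at h6
  have h9 := two_zero (φ x.fst + φ x.snd)
  rw [h9, add_zero] at h6
  exact zero_ne_one h6

/-- Two vertices on two faces are joined by an edge common to the two faces. -/
theorem two_faces (h3 : M.Conn3) {x y x' y' : M.G.Dart} (hx : fc M x = fc M x')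
    (hy : fc M y = fc M y') (hxy : fc M x ≠ fc M y) (hu : x.fst = y.fst) (hv : x'.fst = y'.fst)
    (huv : x.fst ≠ x'.fst) : ∃ e : M.G.Dart, e.fst = x.fst ∧ e.snd = x'.fst ∧
      (x = e ∧ y = M.rot e ∨ y = e ∧ x = M.rot e) := by
  classical
  obtain ⟨a, ha, hab⟩ := arc_exists hu
  obtain ⟨a', ha', hab'⟩ := arc_exists hv
  obtain ⟨φ, hφ⟩ := exists_phi (con_of M h3) (fun d => a d + a' d) (fun f => by
    have h4 : ∀ d, (a d + a' d + (a (M.rot.symm d) + a' (M.rot.symm d)) : ZMod 2) =
        ((Pi.single x 1 : M.G.Dart → ZMod 2) d + (Pi.single y 1 : M.G.Dart → ZMod 2) d) +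
        ((Pi.single x' 1 : M.G.Dart → ZMod 2) d + (Pi.single y' 1 : M.G.Dart → ZMod 2) d) := by
      intro d
      rw [← hab, ← hab']; ring
    rw [Finset.sum_congr rfl fun d _ => h4 d, Finset.sum_add_distrib, Finset.sum_add_distrib,
      Finset.sum_add_distrib, sum_single, sum_single, sum_single, sum_single, hx, hy]
    exact two_zero _)
  set s : Finset V := {x.fst, x'.fst} with hs
  have hmem : ∀ v, v ∉ s ↔ v ≠ x.fst ∧ v ≠ x'.fst := by
    intro v
    rw [hs, Finset.mem_insert, Finset.mem_singleton, not_or]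
  have hc0 : ∀ d : M.G.Dart, d.fst ∉ s → d.snd ∉ s → φ d.fst = φ d.snd := by
    intro d h1 h2
    rw [hmem] at h1 h2
    have h4 := hφ d
    rw [ha d h1.1, ha d.symm h2.1, ha' d h1.2, ha' d.symm h2.2] at h4
    have h5 := two_zero (φ d.snd)
    linear_combination -h4 - h5
  have hc : ∀ {p q : V}, p ∉ s → q ∉ s → φ p = φ q :=
    fun hp hq => const_of M (h3.2 s Finset.card_le_two).preconnected φ hc0 hp hq
  have hu2 : ∀ d : M.G.Dart, d.fst = x.fst → d.snd ≠ x'.fst → a d = φ x.fst + φ d.snd := by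
    intro d hd hd2
    have h4 := hφ d
    have h5 : d.symm.fst ≠ x.fst := by
      rw [← hd]; exact d.adj.ne'
    have h6 : d.fst ≠ x'.fst := by rw [hd]; exact huv
    rw [ha d.symm h5, ha' d h6, ha' d.symm hd2, add_zero, add_zero, add_zero, hd] at h4
    exact h4
  have key : ∀ z : M.G.Dart, z.fst = x.fst → (Pi.single x 1 : M.G.Dart → ZMod 2) z +
      (Pi.single y 1 : M.G.Dart → ZMod 2) z = 1 → z.snd = x'.fst ∨ (M.rot.symm z).snd = x'.fst := by
    intro z hz h1
    by_contra hcon
    rw [not_or] at hcon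
    have h7 : (M.rot.symm z).fst = x.fst := (rot_inv_fst M z).trans hz
    have h6 := hab z
    rw [hu2 z hz hcon.1, hu2 _ h7 hcon.2, h1] at h6
    have h8 : φ z.snd = φ (M.rot.symm z).snd := hc (by
        rw [hmem]
        exact ⟨by rw [← hz]; exact z.adj.ne', hcon.1⟩) (by
        rw [hmem]
        exact ⟨by rw [← h7]; exact (M.rot.symm z).adj.ne', hcon.2⟩)
    rw [← h8, two_zero] at h6
    exact zero_ne_one h6
  have hne : x ≠ y := fun h => hxy (by rw [h])
  have kx := key x rfl (by
    rw [Pi.single_apply, Pi.single_apply, if_pos rfl, if_neg hne, add_zero])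
  have ky := key y hu.symm (by
    rw [Pi.single_apply, Pi.single_apply, if_pos rfl, if_neg hne.symm, zero_add])
  have heq : ∀ d e : M.G.Dart, d.fst = e.fst → d.snd = e.snd → d = e := by
    intro d e h1 h2
    exact SimpleGraph.Dart.ext _ _ (Prod.ext h1 h2)
  have hrx : (M.rot.symm x).fst = x.fst := rot_inv_fst M x
  have hry : (M.rot.symm y).fst = y.fst := rot_inv_fst M y
  rcases kx with kx | kx
  · rcases ky with ky | ky
    · exact absurd (heq x y hu (kx.trans ky.symm)) hne
    · refine ⟨x, rfl, kx, Or.inl ⟨rfl, ?_⟩⟩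
      have h1 := heq (M.rot.symm y) x (by rw [hry, hu]) (ky.trans kx.symm)
      rw [← h1, Equiv.apply_symm_apply]
  · rcases ky with ky | ky
    · refine ⟨y, hu.symm, ky, Or.inr ⟨rfl, ?_⟩⟩
      have h1 := heq (M.rot.symm x) y (by rw [hrx, hu]) (kx.trans ky.symm)
      rw [← h1, Equiv.apply_symm_apply]
    · have h1 := heq (M.rot.symm x) (M.rot.symm y) (by rw [hrx, hry, hu]) (kx.trans ky.symm)
      exact absurd (M.rot.symm.injective h1) hne

/-- Every vertex has degree at least three. -/
theorem rot_rot_ne (h3 : M.Conn3) (z : M.G.Dart) : M.rot (M.rot z) ≠ z := by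
  classical
  intro h
  have h1 : ∀ d : M.G.Dart, d.fst = z.fst → d = z ∨ d = M.rot z := by
    intro d hd
    obtain ⟨n, -, hn⟩ := (M.trans z d hd.symm).exists_pow_eq''
    have key : ∀ n : ℕ, (M.rot ^ n) z = z ∨ (M.rot ^ n) z = M.rot z := by
      intro n
      induction n with
      | zero => exact Or.inl rfl
      | succ n ih =>
        rw [pow_succ', Equiv.Perm.mul_apply]
        rcases ih with ih | ih
        · rw [ih]; exact Or.inr rfl
        · rw [ih, h]; exact Or.inl rfl
    rw [← hn.2]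
    exact key n
  set s : Finset V := {z.snd, (M.rot z).snd} with hs
  have hz : z.fst ∉ s := by
    rw [hs, Finset.mem_insert, Finset.mem_singleton, not_or]
    exact ⟨z.adj.ne, by rw [← rot_fst M z]; exact (M.rot z).adj.ne⟩
  have hcard : ∃ w : V, w ∉ s ∧ w ≠ z.fst := by
    by_contra hcon
    push Not at hcon
    have h4 : (Finset.univ : Finset V) ⊆ insert z.fst s := by
      intro w _
      rw [Finset.mem_insert]
      by_cases hw : w ∈ s
      · exact Or.inr hw
      · exact Or.inl (hcon w hw)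
    have h5 := Finset.card_le_card h4
    have h6 := Finset.card_insert_le z.fst s
    have h7 : s.card ≤ 2 := Finset.card_le_two
    have h8 := h3.1
    rw [Finset.card_univ] at h5
    omega
  obtain ⟨w, hw, hwz⟩ := hcard
  have h5 := const_of M (h3.2 s Finset.card_le_two).preconnected (fun v => v = z.fst) (by
    intro d hd1 hd2
    have h6 : ∀ d : M.G.Dart, d.fst = z.fst → d.snd ∉ s → False := by
      intro d hd hds
      apply hds
      rw [hs, Finset.mem_insert, Finset.mem_singleton]
      rcases h1 d hd with h | h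
      · left; rw [h]
      · right; rw [h]
    apply propext
    constructor
    · intro h; exact (h6 d h hd2).elim
    · intro h; exact (h6 d.symm h hd1).elim) hz hw
  have h6 : w = z.fst := h5 ▸ rfl
  exact hwz h6

theorem rot_ne (h3 : M.Conn3) (z : M.G.Dart) : M.rot z ≠ z := by
  intro h
  exact rot_rot_ne h3 z (by rw [h, h])

theorem onFace_iff {d : M.G.Dart} {v : V} : M.OnFace d v ↔ ∃ e, fc M e = fc M d ∧ e.fst = v := by
  constructor
  · rintro ⟨e, he, h⟩; exact ⟨e, (fc_eq M).2 he.symm, h⟩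
  · rintro ⟨e, he, h⟩; exact ⟨e, ((fc_eq M).1 he).symm, h⟩

/-- The faces are induced cycles. -/
theorem induced_face (h3 : M.Conn3) (d e : M.G.Dart) (h1 : M.OnFace d e.fst)
    (h2 : M.OnFace d e.snd) : fc M d = fc M e ∨ fc M d = fc M e.symm := by
  rw [onFace_iff] at h1 h2
  obtain ⟨x, hx, hxf⟩ := h1
  obtain ⟨x', hx', hxf'⟩ := h2
  by_cases h : fc M d = fc M e
  · exact Or.inl h
  right
  -- the face of e contains both ends
  obtain ⟨a, h4, h5, h6⟩ := two_faces h3 (x := x) (y := e) (x' := x') (y' := M.nxt e)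
    (hx.trans hx'.symm) (fc_nxt M e).symm (fun h7 => h (hx.symm.trans h7)) hxf
    (by rw [M.nxt_fst, hxf']) (by rw [hxf, hxf']; exact e.adj.ne)
  have h7 : a = e := SimpleGraph.Dart.ext _ _ (Prod.ext (h4.trans hxf) (h5.trans hxf'))
  rcases h6 with ⟨h6, h8⟩ | ⟨h6, h8⟩
  · exfalso
    rw [h7] at h8
    exact rot_ne h3 e h8.symm
  · rw [← hx, h8, h7, fc_rot]

variable (M) in
/-- Reachability inside a set of vertices. -/
def Rch (S : Set V) (a b : V) : Prop :=
  ∃ (ha : a ∈ S) (hb : b ∈ S), (M.G.induce S).Reachable ⟨a, ha⟩ ⟨b, hb⟩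

theorem rch_refl {S : Set V} {a : V} (ha : a ∈ S) : Rch M S a a :=
  ⟨ha, ha, SimpleGraph.Reachable.refl _⟩

theorem rch_symm {S : Set V} {a b : V} (h : Rch M S a b) : Rch M S b a := by
  obtain ⟨ha, hb, h⟩ := h
  exact ⟨hb, ha, h.symm⟩

theorem rch_trans {S : Set V} {a b c : V} (h : Rch M S a b) (h' : Rch M S b c) :
    Rch M S a c := by
  obtain ⟨ha, hb, h⟩ := h
  obtain ⟨_, hc, h'⟩ := h'
  exact ⟨ha, hc, h.trans h'⟩

theorem rch_step {S : Set V} {a b c : V} (h : Rch M S a b) (hadj : M.G.Adj b c) (hc : c ∈ S) :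
    Rch M S a c := by
  obtain ⟨ha, hb, h⟩ := h
  have h1 : (M.G.induce S).Adj ⟨b, hb⟩ ⟨c, hc⟩ := hadj
  exact ⟨ha, hc, h.trans h1.reachable⟩

theorem dart_eq {d e : M.G.Dart} (h1 : d.fst = e.fst) (h2 : d.snd = e.snd) : d = e :=
  SimpleGraph.Dart.ext _ _ (Prod.ext h1 h2)

theorem exists_pow_nxt {x y : M.G.Dart} (h : fc M x = fc M y) : ∃ n : ℕ, (M.nxt ^ n) x = y := by
  classical
  obtain ⟨n, -, hn⟩ := ((fc_eq M).1 h).exists_pow_eq''
  exact ⟨n, hn.2⟩

theorem exists_pow_rot {x y : M.G.Dart} (h : x.fst = y.fst) : ∃ n : ℕ, (M.rot ^ n) x = y := by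
  classical
  obtain ⟨n, -, hn⟩ := (M.trans x y h).exists_pow_eq''
  exact ⟨n, hn.2⟩

theorem fc_pow (n : ℕ) (x : M.G.Dart) : fc M ((M.nxt ^ n) x) = fc M x := by
  induction n with
  | zero => rfl
  | succ n ih => rw [pow_succ', Equiv.Perm.mul_apply, fc_nxt, ih]

theorem rot_pow_fst (n : ℕ) (x : M.G.Dart) : ((M.rot ^ n) x).fst = x.fst := by
  induction n with
  | zero => rfl
  | succ n ih => rw [pow_succ', Equiv.Perm.mul_apply, rot_fst, ih]

/-- The path along a face that avoids the vertices of another face. -/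
theorem face_path {S : Set V} {w q : M.G.Dart} (hq : q = w ∨ M.nxt q = w)
    (hbad : ∀ y, fc M y = fc M w → y.fst ∉ S → y = w ∨ y = q) (j : ℕ) :
    (M.nxt ^ j) w ≠ w → (M.nxt ^ j) w ≠ q → Rch M S (M.nxt w).fst ((M.nxt ^ j) w).fst := by
  induction j with
  | zero => intro h; exact absurd rfl h
  | succ j ih =>
    intro h1 h2
    have h3 : ((M.nxt ^ (j + 1)) w).fst ∈ S := by
      by_contra h4
      rcases hbad _ (fc_pow (j + 1) w) h4 with h | h
      · exact h1 h
      · exact h2 h
    rw [pow_succ', Equiv.Perm.mul_apply] at h1 h2 h3 ⊢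
    by_cases h5 : (M.nxt ^ j) w = w
    · rw [h5] at h3 ⊢
      exact rch_refl h3
    by_cases h6 : (M.nxt ^ j) w = q
    · exfalso
      rcases hq with h7 | h7
      · exact h5 (h6.trans h7)
      · exact h1 (by rw [h6]; exact h7)
    · have h8 := M.nxt_fst ((M.nxt ^ j) w)
      rw [h8] at h3 ⊢
      exact rch_step (ih h5 h6) ((M.nxt ^ j) w).adj h3

section

variable (h3 : M.Conn3) {d : M.G.Dart}

include h3

/-- The corner between two outer darts. -/
theorem type_one {x : M.G.Dart} (hx : M.OnFace d x.fst) (hx2 : ¬ M.OnFace d x.snd)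
    (hr : ¬ M.OnFace d (M.rot x).snd) :
    Rch M {v | ¬ M.OnFace d v} (M.rot x).snd x.snd := by
  obtain ⟨z, hz, hzx⟩ := onFace_iff.1 hx
  have hzs : M.OnFace d z.snd := onFace_iff.2 ⟨M.nxt z, (fc_nxt M z).trans hz, M.nxt_fst z⟩
  set w := M.rot x with hw
  have hwf : w.fst = x.fst := rot_fst M x
  have h1 : fc M w ≠ fc M d := by
    intro h
    have h2 := simple_face h3 (x := w) (y := z) (h.trans hz.symm) (by rw [hwf, hzx])
    rw [h2] at hr
    exact hr hzs
  have hbad : ∀ y, fc M y = fc M w → y.fst ∉ {v | ¬ M.OnFace d v} → y = w ∨ y = w := by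
    intro y hy hyS
    have hyO : M.OnFace d y.fst := by
      by_contra h; exact hyS h
    left
    by_cases hyf : y.fst = w.fst
    · exact simple_face h3 hy hyf
    obtain ⟨y', hy', hyy⟩ := onFace_iff.1 hyO
    obtain ⟨e, he1, he2, he3⟩ := two_faces h3 (x := z) (y := w) (x' := y') (y' := y)
      (hz.trans hy'.symm) hy.symm (fun h => h1 (h.symm.trans hz)) (by rw [hzx, hwf]) hyy
      (by rw [hzx, ← hwf, hyy]; exact fun h => hyf h.symm)
    exfalso
    rcases he3 with ⟨h4, h5⟩ | ⟨h4, h5⟩
    · rw [← h4, hw] at h5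
      have h6 := M.rot.injective h5
      rw [h6] at hx2
      exact hx2 hzs
    · rw [h4, he2, hyy] at hr
      exact hr hyO
  have hn : M.nxt x.symm = w := by rw [hw, M.rot_eq]
  obtain ⟨j, hj⟩ := exists_pow_nxt (x := w) (y := x.symm) (by rw [← hn, fc_nxt])
  have hne : x.symm ≠ w := by
    intro h
    have h4 : x.symm.fst = w.fst := by rw [h]
    rw [hwf] at h4
    exact x.adj.ne h4.symm
  have h4 := face_path (S := {v | ¬ M.OnFace d v}) (w := w) (q := w) (Or.inl rfl) hbad j
    (by rw [hj]; exact hne) (by rw [hj]; exact hne)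
  rw [hj, M.nxt_fst] at h4
  exact h4

theorem type_two_bad {z : M.G.Dart} (hz : fc M z = fc M d) (y : M.G.Dart)
    (hy : fc M y = fc M (M.rot z)) (hyS : y.fst ∉ {v | ¬ M.OnFace d v}) :
    y = M.rot z ∨ y = z.symm := by
  have hyO : M.OnFace d y.fst := by
    by_contra h; exact hyS h
  set w := M.rot z with hw
  have hwf : w.fst = z.fst := rot_fst M z
  have hwq : fc M w = fc M z.symm := fc_rot M z
  have h1 : fc M w ≠ fc M d := by
    intro h
    exact rot_ne h3 z (simple_face h3 (x := w) (y := z) (h.trans hz.symm) hwf)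
  by_cases hyf : y.fst = w.fst
  · exact Or.inl (simple_face h3 hy hyf)
  by_cases hyg : y.fst = z.snd
  · exact Or.inr (simple_face h3 (hy.trans hwq) hyg)
  obtain ⟨y', hy', hyy⟩ := onFace_iff.1 hyO
  obtain ⟨e, he1, he2, he3⟩ := two_faces h3 (x := z) (y := w) (x' := y') (y' := y)
    (hz.trans hy'.symm) hy.symm (fun h => h1 (h.symm.trans hz)) hwf.symm hyy
    (by rw [← hwf, hyy]; exact fun h => hyf h.symm)
  exfalso
  rcases he3 with ⟨h4, h5⟩ | ⟨h4, h5⟩
  · apply hyg
    rw [← hyy, ← he2, h4]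
  · rw [← h4, hw] at h5
    exact rot_rot_ne h3 z h5.symm

theorem outer_rot {z : M.G.Dart} (hz : fc M z = fc M d) : ¬ M.OnFace d (M.rot z).snd := by
  intro h
  have h1 := type_two_bad h3 hz (M.nxt (M.rot z)) (fc_nxt M _) (by
    rw [M.nxt_fst]
    exact fun h2 => h2 h)
  have hf : (M.rot z).fst = z.fst := rot_fst M z
  rcases h1 with h1 | h1
  · have h2 : (M.nxt (M.rot z)).fst = (M.rot z).fst := by rw [h1]
    rw [M.nxt_fst] at h2
    exact (M.rot z).adj.ne h2.symm
  · have h2 : (M.nxt (M.rot z)).fst = z.symm.fst := by rw [h1]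
    rw [M.nxt_fst] at h2
    exact rot_ne h3 z (dart_eq hf h2)

omit h3 in
theorem on_snd {z : M.G.Dart} (hz : fc M z = fc M d) : M.OnFace d z.snd :=
  onFace_iff.2 ⟨M.nxt z, (fc_nxt M z).trans hz, M.nxt_fst z⟩

/-- All outer neighbours of a vertex of the face are connected. -/
theorem chain_one {z e : M.G.Dart} (hz : fc M z = fc M d) (he : e.fst = z.fst)
    (heo : ¬ M.OnFace d e.snd) : Rch M {v | ¬ M.OnFace d v} (M.rot z).snd e.snd := by
  have hon : M.OnFace d z.fst := onFace_iff.2 ⟨z, hz, rfl⟩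
  have key : ∀ k : ℕ, ¬ M.OnFace d ((M.rot ^ k) z).snd →
      Rch M {v | ¬ M.OnFace d v} (M.rot z).snd ((M.rot ^ k) z).snd := by
    intro k
    induction k with
    | zero => intro h; exact absurd (on_snd hz) h
    | succ k ih =>
      intro h
      rw [pow_succ', Equiv.Perm.mul_apply] at h ⊢
      set y := (M.rot ^ k) z with hy
      have hyf : y.fst = z.fst := rot_pow_fst k z
      by_cases h1 : M.OnFace d y.snd
      · rcases induced_face h3 d y (by rw [hyf]; exact hon) h1 with h2 | h2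
        · have h4 := simple_face h3 (x := y) (y := z) (h2.symm.trans hz.symm) hyf
          rw [h4]
          exact rch_refl (outer_rot h3 hz)
        · exfalso
          have h4 : M.rot y = z := simple_face h3 (by rw [fc_rot, ← h2, hz])
            ((rot_fst M y).trans hyf)
          rw [h4] at h
          exact h (on_snd hz)
      · exact rch_trans (ih h1) (rch_symm (type_one h3 (by rw [hyf]; exact hon) h1 h))
  obtain ⟨k, hk⟩ := exists_pow_rot he.symm
  rw [← hk]
  exact key k (by rw [hk]; exact heo)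

/-- Passing along an edge of the face. -/
theorem type_two {z : M.G.Dart} (hz : fc M z = fc M d) :
    Rch M {v | ¬ M.OnFace d v} (M.rot z).snd (M.rot (M.nxt z)).snd := by
  set w := M.rot z with hw
  have hwf : w.fst = z.fst := rot_fst M z
  have hn : M.nxt z.symm = w := by rw [hw, M.rot_eq]
  set p := M.nxt.symm z.symm with hp
  have hnp : M.nxt p = z.symm := by rw [hp, Equiv.apply_symm_apply]
  have hps : p.snd = z.snd := by rw [← M.nxt_fst p, hnp]; rfl
  have hwz : w ≠ z := rot_ne h3 z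
  have hpw : p ≠ w := by
    intro h
    rw [h] at hps
    exact hwz (dart_eq hwf hps)
  have hpq : p ≠ z.symm := by
    intro h
    rw [h, hn] at hnp
    have h2 : w.fst = z.symm.fst := by rw [hnp]
    rw [hwf] at h2
    exact z.adj.ne h2
  obtain ⟨j, hj⟩ := exists_pow_nxt (x := w) (y := p) (by
    rw [← fc_nxt M p, hnp, ← hn, fc_nxt])
  have h4 := face_path (S := {v | ¬ M.OnFace d v}) (w := w) (q := z.symm) (Or.inr hn)
    (fun y hy hyS => type_two_bad h3 hz y hy hyS) j (by rw [hj]; exact hpw)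
    (by rw [hj]; exact hpq)
  rw [hj, M.nxt_fst] at h4
  have h5 : ¬ M.OnFace d p.fst := h4.2.1
  have h6 := chain_one h3 (z := M.nxt z) (e := p.symm) ((fc_nxt M z).trans hz)
    (by rw [M.nxt_fst]; exact hps) h5
  exact rch_trans h4 (rch_symm h6)

theorem all_outer {e : M.G.Dart} (he : M.OnFace d e.fst) (heo : ¬ M.OnFace d e.snd) :
    Rch M {v | ¬ M.OnFace d v} (M.rot d).snd e.snd := by
  obtain ⟨z, hz, hze⟩ := onFace_iff.1 he
  obtain ⟨k, hk⟩ := exists_pow_nxt hz.symm
  have key : ∀ k : ℕ, Rch M {v | ¬ M.OnFace d v} (M.rot d).snd (M.rot ((M.nxt ^ k) d)).snd := by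
    intro k
    induction k with
    | zero => exact rch_refl (outer_rot h3 rfl)
    | succ k ih =>
      rw [pow_succ', Equiv.Perm.mul_apply]
      exact rch_trans ih (type_two h3 (fc_pow k d))
  have h1 := key k
  rw [hk] at h1
  exact rch_trans h1 (chain_one h3 hz hze.symm heo)

theorem nonsep_face : (M.G.induce {v | ¬ M.OnFace d v}).Connected := by
  have h0 : (M.rot d).snd ∈ {v | ¬ M.OnFace d v} := outer_rot h3 rfl
  have key : ∀ a, M.OnFace d a ∨ Rch M {v | ¬ M.OnFace d v} (M.rot d).snd a := by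
    have h1 := con_of M h3 (fun a => M.OnFace d a ∨ Rch M {v | ¬ M.OnFace d v} (M.rot d).snd a) (by
      have h2 : ∀ e : M.G.Dart, (M.OnFace d e.fst ∨
          Rch M {v | ¬ M.OnFace d v} (M.rot d).snd e.fst) → (M.OnFace d e.snd ∨
          Rch M {v | ¬ M.OnFace d v} (M.rot d).snd e.snd) := by
        intro e he
        by_cases h4 : M.OnFace d e.snd
        · exact Or.inl h4
        right
        rcases he with he | he
        · exact all_outer h3 he h4
        · exact rch_step he e.adj h4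
      intro e
      exact propext ⟨h2 e, h2 e.symm⟩) d.fst
    intro a
    rw [← h1 a]
    exact Or.inl (onFace_iff.2 ⟨d, rfl, rfl⟩)
  have key2 : ∀ a : {v | ¬ M.OnFace d v},
      (M.G.induce {v | ¬ M.OnFace d v}).Reachable ⟨(M.rot d).snd, h0⟩ a := by
    rintro ⟨a, ha⟩
    obtain ⟨_, _, h⟩ := (key a).resolve_left ha
    exact h
  rw [SimpleGraph.connected_iff]
  exact ⟨fun a b => (key2 a).symm.trans (key2 b), ⟨⟨_, h0⟩⟩⟩

end

/-- **Row PER.** The faces of a vertex 3-connected plane graph are induced and nonseparating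
cycles. -/
theorem peripheral (M : PlaneGraph V) (h3 : M.Conn3) : M.Peripheral where
  simple := fun _ _ h1 h2 => simple_face h3 ((fc_eq M).2 h1) h2
  induced := fun d e h1 h2 => by
    rcases induced_face h3 d e h1 h2 with h | h
    · exact Or.inl ((fc_eq M).1 h)
    · exact Or.inr ((fc_eq M).1 h)
  nonsep := fun _ => nonsep_face h3

end N9Per
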