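import Pool.Agent.Helper24.N9.Deg1

/-!
MP_9b91d1_co, rows POT0, ROT, AXV of the sheet Deg1.
-/

open scoped RealInnerProductSpace Topology
open Pool.Agent.Helper30.N9 Pool.Agent.Helper30.N9.PlaneGraph

namespace N9Deg

/-! ### POT0 -/

theorem st_POT0 : ST_POT0 := by
  intro V _ _ M hconn T hT hB u hu a b ha hb
  have key : ∀ a : M.G.Dart, ¬ T (M.fc a) → ∃ v, M.OnB T v ∧ u v = u a.fst := by
    intro a ha
    by_contra hcon
    push Not at hcon
    -- around a vertex
    have around : ∀ v, ¬ M.OnB T v → ∀ d e : M.G.Dart, d.fst = v → e.fst = v →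
        (T (M.fc d) ↔ T (M.fc e)) := by
      intro v hv d e hd he
      have hstep : ∀ d : M.G.Dart, d.fst = v → (T (M.fc (M.rot d)) ↔ T (M.fc d)) := by
        intro d hd
        rw [M.rot_eq, M.fc_nxt]
        have h1 : ¬ M.Bd T d := fun h => hv ⟨d, hd, Or.inl h⟩
        have h2 : ¬ M.Bd T d.symm := fun h => hv ⟨d, hd, Or.inr h⟩
        unfold PlaneGraph.Bd at h1 h2
        rw [SimpleGraph.Dart.symm_symm] at h2
        tauto
      have hfst : ∀ d : M.G.Dart, (M.rot d).fst = d.fst := by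
        intro d
        rw [M.rot_eq, M.nxt_fst]
        rfl
      have hall : ∀ i : ℤ, ((M.rot ^ i) d).fst = v ∧ (T (M.fc ((M.rot ^ i) d)) ↔ T (M.fc d)) := by
        intro i
        induction i using Int.induction_on with
        | zero => exact ⟨by simpa using hd, by simp⟩
        | succ i ih =>
          rw [add_comm, zpow_add, zpow_one, Equiv.Perm.mul_apply, hfst]
          exact ⟨ih.1, (hstep _ ih.1).trans ih.2⟩
        | pred i ih =>
          have h1 : M.rot ((M.rot ^ (-(i : ℤ) - 1)) d) = (M.rot ^ (-(i : ℤ))) d := by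
            rw [← Equiv.Perm.mul_apply, ← zpow_one_add]
            congr 2
            ring
          have h2 : ((M.rot ^ (-(i : ℤ) - 1)) d).fst = v := by
            rw [← hfst, h1]; exact ih.1
          refine ⟨h2, ?_⟩
          rw [← hstep _ h2, h1]
          exact ih.2
      obtain ⟨i, hi⟩ := M.trans d e (hd.trans he.symm)
      have := (hall i).2
      rw [hi] at this
      exact this.symm
    have walk : ∀ (x y : V) (_ : M.G.Walk x y), (u x = u a.fst ∧ ∃ d : M.G.Dart, d.fst = x ∧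
        ¬ T (M.fc d)) → (u y = u a.fst ∧ ∃ d : M.G.Dart, d.fst = y ∧ ¬ T (M.fc d)) := by
      intro x y w
      induction w with
      | nil => exact id
      | @cons x z y hadj _ ih =>
        rintro ⟨h1, d, hd, hdT⟩
        apply ih
        have hnb : ¬ M.OnB T x := fun h => hcon x h h1
        obtain ⟨e, he⟩ : ∃ e : M.G.Dart, e = ⟨(x, z), hadj⟩ := ⟨_, rfl⟩
        have he1 : e.fst = x := by rw [he]
        have he2 : e.snd = z := by rw [he]
        have heT : ¬ T (M.fc e) := fun h => hdT ((around x hnb d e hd he1).2 h)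
        have heT' : ¬ T (M.fc e.symm) := by
          intro h
          refine hnb ⟨e, he1, Or.inr ⟨h, ?_⟩⟩
          rw [SimpleGraph.Dart.symm_symm]
          exact heT
        refine ⟨?_, e.symm, he2, heT'⟩
        rw [← he2, ← hu e (fun h => heT h.1), he1, h1]
    obtain ⟨w0, hw0⟩ := hT
    obtain ⟨W⟩ := hconn.preconnected a.fst w0.out.fst
    obtain ⟨h1, d, hd, hdT⟩ := walk _ _ W ⟨rfl, a, rfl, ha⟩
    have hw : M.fc w0.out = w0 := Quotient.out_eq w0
    have hnb : ¬ M.OnB T w0.out.fst := fun h => hcon _ h h1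
    apply hdT
    rw [around _ hnb d w0.out hd rfl, hw]
    exact hw0
  obtain ⟨v, hv, e1⟩ := key a ha
  obtain ⟨v', hv', e2⟩ := key b hb
  rw [← e1, ← e2]
  exact hB u hu v v' hv hv'

/-! ### ROT -/

theorem det3_eq_det (a b c : E3) :
    det3 a b c = (EuclideanSpace.basisFun (Fin 3) ℝ).toBasis.det ![a, b, c] := by
  rw [Module.Basis.det_apply, Matrix.det_fin_three]
  simp [Module.Basis.toMatrix_apply, det3]
  ring

theorem det3_rot (R : E3 ≃ₗᵢ[ℝ] E3) (hR : LinearMap.det (R.toLinearEquiv : E3 →ₗ[ℝ] E3) = 1)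
    (a b c : E3) : det3 (R a) (R b) (R c) = det3 a b c := by
  rw [det3_eq_det, det3_eq_det]
  have h := Module.Basis.det_comp (EuclideanSpace.basisFun (Fin 3) ℝ).toBasis
    (R.toLinearEquiv : E3 →ₗ[ℝ] E3) ![a, b, c]
  rw [hR, one_mul] at h
  rw [← h]
  congr 1
  funext i
  fin_cases i <;> rfl

theorem Om_rot (R : E3 ≃ₗᵢ[ℝ] E3) (hR : LinearMap.det (R.toLinearEquiv : E3 →ₗ[ℝ] E3) = 1)
    (a b c : E3) : Om (R a) (R b) (R c) = Om a b c := by
  unfold Om zc
  rw [det3_rot R hR, R.inner_map_map, R.inner_map_map, R.inner_map_map]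

theorem mem_arc_rot (R : E3 ≃ₗᵢ[ℝ] E3) {a b x : E3} (hx : x ∈ arc (R a) (R b)) :
    R.symm x ∈ arc a b := by
  obtain ⟨h1, s, t, hs, ht, h2⟩ := hx
  refine ⟨by rw [LinearIsometryEquiv.norm_map]; exact h1, s, t, hs, ht, ?_⟩
  rw [h2, map_add, map_smul, map_smul, R.symm_apply_apply, R.symm_apply_apply]

theorem st_ROT : ST_ROT := by
  intro V _ _ M q R hR hq
  refine ⟨fun v => ?_, ?_, fun d h => ?_, fun d e hde x hx hx' => ?_, fun d => ?_, ?_⟩
  · rw [R.norm_map]; exact hq.unit v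
  · exact R.injective.comp hq.inj
  · rw [← map_neg] at h
    exact hq.ne_neg d (R.injective h)
  · obtain ⟨v, h1, h2, h3⟩ := hq.embed d e hde _ (mem_arc_rot R hx) (mem_arc_rot R hx')
    refine ⟨v, h1, h2, ?_⟩
    rw [← h3, R.apply_symm_apply]
  · have := hq.per d
    unfold ang at this ⊢
    simpa only [R.inner_map_map] using this
  · obtain ⟨h, h1, h2, h3, h4⟩ := hq.deg
    refine ⟨fun d => R (h d), fun d => by rw [R.norm_map]; exact h1 d,
      fun d => by show R (h (M.nxt d)) = R (h d); rw [h2],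
      fun d => by rw [R.inner_map_map]; exact h3 d, ?_⟩
    rw [← h4]
    exact Finset.sum_congr rfl fun d _ => Om_rot R hR _ _ _

/-! ### AXV -/

theorem det3_rot' (a b c : E3) : det3 c a b = det3 a b c := by
  simp only [det3]; ring

theorem det3_swap' (a b c : E3) : det3 b a c = - det3 a b c := by
  simp only [det3]; ring


theorem crs_comb' (c u : E3) (α β : ℝ) : crs c (α • c + β • u) = β • crs c u := by
  ext i
  fin_cases i <;> simp [crs] <;> ring

/-- planar inequality -/
theorem up_aux {z α β c : ℝ} (hz : -1 < z) (hz' : z < 1) (hβ : 0 < β)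
    (h1 : α ^ 2 + β ^ 2 + 2 * α * β * z = 1) (hc : c = α * z + β) (hcz : c ≤ z) : α ≤ 0 := by
  by_contra hα
  rw [not_le] at hα
  have hS : 0 < 1 - z ^ 2 := by nlinarith
  have h2 : 1 - c ^ 2 = α ^ 2 * (1 - z ^ 2) := by rw [hc]; linear_combination (-1 : ℝ) * h1
  have h3 : α * z < c := by rw [hc]; linarith
  rcases le_or_gt α 1 with h4 | h4
  · have h5 : α ^ 2 * (1 - z ^ 2) ≤ 1 - z ^ 2 := by
      have : α ^ 2 ≤ 1 := by nlinarith
      nlinarith
    rcases le_or_gt 0 z with h6 | h6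
    · have h7 : 0 ≤ α * z := mul_nonneg hα.le h6
      have h8 : z ≤ c := by
        by_contra h9
        rw [not_le] at h9
        nlinarith
      have h10 : c = z := le_antisymm hcz h8
      rw [h10] at h2 h3
      have h11 : α ^ 2 = 1 := by
        have h12 : (1 - α ^ 2) * (1 - z ^ 2) = 0 := by linear_combination h2
        rcases mul_eq_zero.1 h12 with h13 | h13
        · linarith
        · linarith
      have h12 : α = 1 := by nlinarith
      rw [h12, one_mul] at h3
      exact lt_irrefl _ h3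
    · nlinarith
  · have h5 : 1 - z ^ 2 < α ^ 2 * (1 - z ^ 2) := by
      have : 1 < α ^ 2 := by nlinarith
      nlinarith
    rcases le_or_gt 0 z with h6 | h6
    · nlinarith
    · nlinarith

theorem st_AXV : ST_AXV := by
  intro V _ _ M p a om hp ha hom hmer heq d0 hd0
  classical
  obtain ⟨n, hn⟩ : ∃ n, n = crs (p d0.fst) (p d0.snd) := ⟨_, rfl⟩
  have hn1 : ∀ y, det3 (p d0.fst) (p d0.snd) y = ⟪n, y⟫ := fun y => by rw [hn, crs_inner]
  have hna : ⟪n, a⟫ = 0 := by
    rw [← hn1, ← det3_rot', hmer d0 hd0]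
  obtain ⟨v, hv, hmax⟩ := Finset.exists_max_image
    (Finset.univ.filter (fun v => ∃ e : M.G.Dart, om e ≠ 0 ∧ e.fst = v ∧ ⟪n, p e.fst⟫ = 0 ∧
      ⟪n, p e.snd⟫ = 0)) (fun v => ⟪a, p v⟫) ⟨d0.fst, by
      rw [Finset.mem_filter]
      refine ⟨Finset.mem_univ _, d0, hd0, rfl, ?_, ?_⟩
      · rw [← hn1, det3_self_left]
      · rw [← hn1, det3_self_right]⟩
  rw [Finset.mem_filter] at hv
  obtain ⟨-, e, he0, he1, he2, he3⟩ := hv
  have hmax' : ∀ e : M.G.Dart, om e ≠ 0 → ⟪n, p e.fst⟫ = 0 → ⟪n, p e.snd⟫ = 0 →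
      ⟪a, p e.fst⟫ ≤ ⟪a, p v⟫ := fun e h1 h2 h3 => hmax e.fst (by
    rw [Finset.mem_filter]
    exact ⟨Finset.mem_univ _, e, h1, rfl, h2, h3⟩)
  have hmax2 : ∀ e : M.G.Dart, om e ≠ 0 → ⟪n, p e.fst⟫ = 0 → ⟪n, p e.snd⟫ = 0 →
      ⟪a, p e.snd⟫ ≤ ⟪a, p v⟫ := fun e h1 h2 h3 =>
    hmax' e.symm (by rw [hom.symm]; exact h1) h3 h2
  by_cases hva : p v = a
  · refine ⟨e, he0, ?_, by rw [hn1]; exact he2, by rw [hn1]; exact he3⟩
    rw [he1, hva]
    exact left_mem_arc ha
  by_cases hva' : p v = -a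
  · exfalso
    have h1 := hmax2 e he0 he2 he3
    rw [hva', inner_neg_right, inner_self_one ha] at h1
    by_cases h2 : p e.snd = -a
    · have h3 : e.snd = v := hp.inj (by rw [h2, hva'])
      exact e.adj.ne (by rw [he1, h3])
    · have h3 := inner_gt_neg_one ha (hp.unit e.snd) (fun h => h2 (by rw [h, neg_neg]))
      linarith
  -- coefficients
  obtain ⟨A, hA⟩ : ∃ A : E3 → ℝ, A = fun y =>
      (⟪y, p v⟫ - ⟪p v, a⟫ * ⟪y, a⟫) / (1 - ⟪p v, a⟫ ^ 2) := ⟨_, rfl⟩
  obtain ⟨B, hB⟩ : ∃ B : E3 → ℝ, B = fun y =>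
      (⟪y, a⟫ - ⟪p v, a⟫ * ⟪y, p v⟫) / (1 - ⟪p v, a⟫ ^ 2) := ⟨_, rfl⟩
  have hspan : ∀ y, det3 (p v) a y = 0 → y = A y • p v + B y • a := by
    intro y hy
    have := span_det (hp.unit v) ha hva hva' hy
    rw [hA, hB]
    exact this
  have hN := crs_pos (hp.unit v) ha hva hva'
  have hN0 : crs (p v) a ≠ 0 := by
    intro h0
    rw [h0, inner_zero_left] at hN
    exact lt_irrefl _ hN
  have hdart : ∀ d : M.G.Dart, d.fst = v → om d ≠ 0 →
      p d.snd = A (p d.snd) • p v + B (p d.snd) • a := by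
    intro d hd hd0
    apply hspan
    have := hmer d hd0
    rw [hd] at this
    rw [det3_swap', this, neg_zero]
  have hnv : ⟪n, p v⟫ = 0 := by rw [← he1]; exact he2
  have hplane : ∀ d : M.G.Dart, d.fst = v → om d ≠ 0 → ⟪n, p d.snd⟫ = 0 := by
    intro d hd hd0
    rw [hdart d hd hd0, inner_add_right, real_inner_smul_right, real_inner_smul_right, hnv, hna]
    ring
  have hsum : ∑ d ∈ Finset.univ.filter (fun d : M.G.Dart => d.fst = v),
      om d * B (p d.snd) = 0 := by
    have h1 := heq v hva hva'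
    unfold PlaneGraph.EqAt at h1
    have h2 : ∑ d ∈ Finset.univ.filter (fun d : M.G.Dart => d.fst = v),
        om d • crs (p d.fst) (p d.snd) =
        (∑ d ∈ Finset.univ.filter (fun d : M.G.Dart => d.fst = v), om d * B (p d.snd)) •
          crs (p v) a := by
      rw [Finset.sum_smul]
      apply Finset.sum_congr rfl
      intro d hd
      rw [Finset.mem_filter] at hd
      by_cases hd0 : om d = 0
      · rw [hd0, zero_smul, zero_mul, zero_smul]
      · rw [hd.2, mul_smul]
        congr 1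
        conv_lhs => rw [hdart d hd.2 hd0]
        rw [crs_comb']
    rw [h2] at h1
    exact (smul_eq_zero.1 h1).resolve_right hN0
  have hBne : ∀ d : M.G.Dart, d.fst = v → om d ≠ 0 → B (p d.snd) ≠ 0 := by
    intro d hd hd0 hB0
    have h1 := hdart d hd hd0
    rw [hB0, zero_smul, add_zero] at h1
    have h2 : |A (p d.snd)| = 1 := by
      have := congrArg norm h1
      rw [norm_smul, hp.unit, hp.unit, mul_one, Real.norm_eq_abs] at this
      exact this.symm
    rcases eq_or_eq_neg_of_abs_eq h2 with h3 | h3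
    · rw [h3, one_smul] at h1
      exact d.adj.ne (by rw [hd]; exact (hp.inj h1).symm)
    · rw [h3, neg_one_smul] at h1
      apply hp.ne_neg d
      rw [hd, h1, neg_neg]
  obtain ⟨d, hd, hdom, hdB⟩ : ∃ d : M.G.Dart, d.fst = v ∧ om d ≠ 0 ∧ 0 < B (p d.snd) := by
    by_contra hcon
    push Not at hcon
    have h1 : ∀ d ∈ Finset.univ.filter (fun d : M.G.Dart => d.fst = v),
        om d * B (p d.snd) ≤ 0 := by
      intro d hd
      rw [Finset.mem_filter] at hd
      by_cases hd0 : om d = 0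
      · rw [hd0, zero_mul]
      · exact mul_nonpos_of_nonneg_of_nonpos (hom.nonneg d) (hcon d hd.2 hd0)
    have h2 := (Finset.sum_eq_zero_iff_of_nonpos h1).1 hsum e (by
      rw [Finset.mem_filter]; exact ⟨Finset.mem_univ _, he1⟩)
    rcases mul_eq_zero.1 h2 with h3 | h3
    · exact he0 h3
    · exact hBne e he1 he0 h3
  have hpl := hplane d hd hdom
  have hfst : ⟪n, p d.fst⟫ = 0 := by rw [hd]; exact hnv
  refine ⟨d, hdom, ?_, by rw [hn1]; exact hfst, by rw [hn1]; exact hpl⟩
  have hle := hmax2 d hdom hfst hpl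
  have hw := hdart d hd hdom
  obtain ⟨α, hα⟩ : ∃ α, α = A (p d.snd) := ⟨_, rfl⟩
  obtain ⟨β, hβ⟩ : ∃ β, β = B (p d.snd) := ⟨_, rfl⟩
  rw [← hα, ← hβ] at hw
  rw [← hβ] at hdB
  have z1 := inner_gt_neg_one ha (hp.unit v) (fun h => hva' (by rw [h, neg_neg]))
  have z2 := inner_lt_one ha (hp.unit v) (fun h => hva h.symm)
  have e1 : α ^ 2 + β ^ 2 + 2 * α * β * ⟪a, p v⟫ = 1 := by
    have h1 := inner_self_one (hp.unit d.snd)
    rw [hw, inner_add_left, inner_add_right, inner_add_right, real_inner_smul_left,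
      real_inner_smul_left, real_inner_smul_left, real_inner_smul_left, real_inner_smul_right,
      real_inner_smul_right, real_inner_smul_right, real_inner_smul_right,
      inner_self_one (hp.unit v), inner_self_one ha, real_inner_comm a (p v)] at h1
    linear_combination h1
  have e2 : ⟪a, p d.snd⟫ = α * ⟪a, p v⟫ + β := by
    rw [hw, inner_add_right, real_inner_smul_right, real_inner_smul_right, inner_self_one ha]
    ring
  have hα0 := up_aux (by linarith) z2 hdB e1 e2 hle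
  refine ⟨ha, -α / β, 1 / β, div_nonneg (by linarith) hdB.le, by positivity, ?_⟩
  rw [hd]
  have h6 : β • a = (-α) • p v + (1 : ℝ) • p d.snd := by
    rw [hw, one_smul]
    module
  have h7 : a = β⁻¹ • (β • a) := by rw [smul_smul, inv_mul_cancel₀ hdB.ne', one_smul]
  conv_lhs => rw [h7, h6, smul_add, smul_smul, smul_smul]
  congr 2 <;> ring

end N9Deg
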