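import Pool.Agent.Helper74.N9.Fl

/-!
MP_9b91d1_co, row FL of the sheet Deg2: assembly.
-/

open scoped RealInnerProductSpace Topology
open Pool.Agent.Helper30.N9 Pool.Agent.Helper30.N9.PlaneGraph N9Ha N9Sec N9Fl

namespace N9Fl

theorem inner_dr {a r0 : E3} (ha : ‖a‖ = 1) (hr0 : ‖r0‖ = 1) (h0 : ⟪a, r0⟫ = 0)
    (θ c φ z : ℝ) :
    ⟪dr a r0 θ, (c * Real.cos φ) • r0 + (c * Real.sin φ) • crs a r0 + z • a⟫ =
      c * Real.cos (φ - θ) := by
  have h1 : ⟪r0, crs a r0⟫ = 0 := by
    rw [real_inner_comm, crs_inner]; simp only [det3]; ring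
  have h2 : ⟪crs a r0, crs a r0⟫ = 1 := by
    rw [crs_inner_self, inner_self_one ha, inner_self_one hr0, h0]; norm_num
  have h3 : ⟪crs a r0, a⟫ = 0 := by rw [crs_inner]; simp only [det3]; ring
  unfold dr
  simp only [inner_add_left, inner_add_right, real_inner_smul_left, real_inner_smul_right]
  rw [inner_self_one hr0, h1, h2, h3, real_inner_comm a r0, h0, real_inner_comm r0 (crs a r0), h1,
    Real.cos_sub]
  ring

theorem norm_dr {a r0 : E3} (ha : ‖a‖ = 1) (hr0 : ‖r0‖ = 1) (h0 : ⟪a, r0⟫ = 0) (θ : ℝ) :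
    ‖dr a r0 θ‖ = 1 ∧ ⟪a, dr a r0 θ⟫ = 0 := by
  constructor
  · rw [norm_one_iff]
    have := inner_dr ha hr0 h0 θ 1 θ 0
    rw [one_mul, one_mul, zero_smul, add_zero, sub_self, Real.cos_zero, one_mul] at this
    exact this
  · have h3 : ⟪a, crs a r0⟫ = 0 := by
      rw [real_inner_comm, crs_inner]; simp only [det3]; ring
    unfold dr
    rw [inner_add_right, real_inner_smul_right, real_inner_smul_right, h0, h3]; ring

theorem det_dr2 {a r0 : E3} (ha : ‖a‖ = 1) (hr0 : ‖r0‖ = 1) (h0 : ⟪a, r0⟫ = 0) (θ φ c z : ℝ) :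
    det3 a (dr a r0 θ) (c • dr a r0 φ + z • a) = c * Real.sin (φ - θ) := by
  have := det_dr ha hr0 h0 θ c φ z
  rw [← this]
  congr 1
  unfold dr
  module

theorem Sec_shift {a r0 : E3} {g : ℝ} : Sec a r0 (2 * Real.pi) (2 * Real.pi + g) ⊆
    Sec a r0 0 g := by
  rintro y ⟨c, φ, z, hc, h1, h2, e⟩
  refine ⟨c, φ - 2 * Real.pi, z, hc, by linarith, by linarith, ?_⟩
  rw [Real.cos_sub_two_pi, Real.sin_sub_two_pi]
  exact e

theorem Sec_nonempty {a r0 : E3} {α β : ℝ} (h : α < β) : (Sec a r0 α β).Nonempty :=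
  ⟨_, 1, (α + β) / 2, 0, one_pos, by linarith, by linarith, rfl⟩

/-- A point of a sector is not on a half meridian outside. -/
theorem angle_eq {a r0 : E3} (ha : ‖a‖ = 1) (hr0 : ‖r0‖ = 1) (h0 : ⟪a, r0⟫ = 0) {θ φ c C z Z : ℝ}
    (hc : 0 < c) (hC : 0 ≤ C) (h1 : -(2 * Real.pi) < φ - θ) (h2 : φ - θ < 2 * Real.pi)
    (h : (c * Real.cos φ) • r0 + (c * Real.sin φ) • crs a r0 + z • a =
      C • dr a r0 θ + Z • a) : φ = θ := by
  have e1 := det_dr ha hr0 h0 θ c φ z
  rw [h, det_dr2 ha hr0 h0, sub_self, Real.sin_zero, mul_zero] at e1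
  have e2 := inner_dr ha hr0 h0 θ c φ z
  obtain ⟨n1, n2⟩ := norm_dr ha hr0 h0 θ
  rw [h, inner_add_right, real_inner_smul_right, real_inner_smul_right, inner_self_one n1,
    real_inner_comm a (dr a r0 θ), n2] at e2
  have h3 : Real.sin (φ - θ) = 0 := (mul_eq_zero.1 e1.symm).resolve_left hc.ne'
  have h4 : 0 ≤ Real.cos (φ - θ) := by
    by_contra h5
    rw [not_le] at h5
    have := mul_neg_of_pos_of_neg hc h5
    linarith
  have h5 : Real.cos (φ - θ) = 1 := by
    have := Real.sin_sq_add_cos_sq (φ - θ)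
    rw [h3] at this
    nlinarith
  have := (Real.cos_eq_one_iff_of_lt_of_lt h1 h2).1 h5
  linarith

theorem onR_unique {a x ρ σ : E3} (ha : ‖a‖ = 1) (hx : ‖x‖ = 1) (h1 : x ≠ a) (h2 : x ≠ -a)
    (hρ : ‖ρ‖ = 1) (hxρ : OnR a ρ x) (hσ : dirv a x = σ) : ρ = σ := by
  obtain ⟨c, hc, e⟩ := hxρ
  rw [← hσ]
  exact (dirv_unique ha hx h1 h2 hρ hc e).1.symm

theorem fl (hHALF : ST_HALF) (hREG1 : ST_REG1) (hRAYS : ST_RAYS) : ST_FL := by
  intro V _ _ M L p h a l s t hS hF v0 hv0 hv0s hv0t
  classical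
  have ha := hF.ua
  have hG := good_of_std hS
  have hpi := Real.pi_pos
  obtain ⟨n1, n1'⟩ := ne_pole hS hF hv0s hv0t
  obtain ⟨r0, hr0d⟩ : ∃ r0, r0 = dirv a (p v0) := ⟨_, rfl⟩
  obtain ⟨hr0, har0, c0, hc0, e0⟩ := dirv_spec ha (hS.inc.unit v0) n1 n1'
  rw [← hr0d] at hr0 har0 e0
  obtain ⟨R, hR⟩ : ∃ R : Finset E3, R = (Finset.univ.filter
    (fun v => M.OnE l v ∧ v ≠ s ∧ v ≠ t)).image (fun v => dirv a (p v)) := ⟨_, rfl⟩
  have hmemR : ∀ ρ, ρ ∈ R ↔ ∃ v, M.OnE l v ∧ v ≠ s ∧ v ≠ t ∧ dirv a (p v) = ρ := by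
    intro ρ
    rw [hR, Finset.mem_image]
    constructor
    · rintro ⟨v, hv, e⟩
      rw [Finset.mem_filter] at hv
      exact ⟨v, hv.2.1, hv.2.2.1, hv.2.2.2, e⟩
    · rintro ⟨v, h1, h2, h3, e⟩
      exact ⟨v, Finset.mem_filter.2 ⟨Finset.mem_univ _, h1, h2, h3⟩, e⟩
  have hr0R : r0 ∈ R := (hmemR r0).2 ⟨v0, hv0, hv0s, hv0t, hr0d.symm⟩
  obtain ⟨k, th, hk, th0, thl, thk, hRk⟩ := hRAYS a r0 ha R hr0R (by
    intro r hr
    obtain ⟨v, hv, h1, h2, rfl⟩ := (hmemR r).1 hr
    obtain ⟨n1, n1'⟩ := ne_pole hS hF h1 h2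
    obtain ⟨q1, q2, -⟩ := dirv_spec ha (hS.inc.unit v) n1 n1'
    exact ⟨q1, q2⟩)
  have dr0 : dr a r0 0 = r0 := by
    unfold dr; rw [Real.cos_zero, Real.sin_zero, one_smul, zero_smul, add_zero]
  have drk : dr a r0 (2 * Real.pi) = r0 := by
    unfold dr; rw [Real.cos_two_pi, Real.sin_two_pi, one_smul, zero_smul, add_zero]
  have hmono : ∀ j i, i < j → j ≤ k → th i < th j := by
    intro j
    induction j with
    | zero => intro i hi; omega
    | succ j ih =>
      intro i hij hj
      rcases Nat.lt_succ_iff_lt_or_eq.1 hij with h | h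
      · exact (ih i h (by omega)).trans (thl j (by omega))
      · rw [h]; exact thl j (by omega)
  have hmono' : ∀ i j, i ≤ j → j ≤ k → th i ≤ th j := by
    intro i j hij hj
    rcases hij.lt_or_eq with h | h
    · exact (hmono j i h hj).le
    · rw [h]
  have hidx : ∀ ρ ∈ R, ∃ i < k, ρ = dr a r0 (th (i + 1)) := by
    intro ρ hρ
    obtain ⟨j, hj, e⟩ := (hRk ρ).1 hρ
    rcases Nat.eq_zero_or_pos j with h | h
    · refine ⟨k - 1, by omega, ?_⟩
      rw [show k - 1 + 1 = k by omega, thk, drk, e, h, th0]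
      exact dr0
    · refine ⟨j - 1, by omega, ?_⟩
      rw [show j - 1 + 1 = j by omega]
      exact e
  have hmr : ∀ i ≤ k, dr a r0 (th i) ∈ R := by
    intro i hi
    rcases hi.lt_or_eq with h | h
    · exact (hRk _).2 ⟨i, h, rfl⟩
    · rw [h, thk, drk]; exact hr0R
  -- the open lunes contain no arc of the fan
  have havoid : ∀ i < k, ∀ y ∈ Sec a r0 (th i) (th (i + 1)), ∀ d : M.G.Dart, M.E0 l d →
      nrm y ∉ arc (p d.fst) (p d.snd) := by
    intro i hi y hy d hd hm
    obtain ⟨ρ, hρ1, hρ2, hv, hf, hs, -⟩ := dart_struct hS hF hd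
    obtain ⟨j, hj, hρj⟩ := (hRk ρ).1 ((hmemR ρ).2 hv)
    have hρj' : ρ = dr a r0 (th j) := hρj
    obtain ⟨c, φ, z, hc, h1, h2, e⟩ := id hy
    have hy0 := Sec_ne_zero ha hr0 har0 hy
    rw [nrm_mem_arc hy0] at hm
    obtain ⟨s', t', hs', ht', hm⟩ := hm
    obtain ⟨c1, hc1, e1⟩ := hf
    obtain ⟨c2, hc2, e2⟩ := hs
    have hy' : y = (s' * c1 + t' * c2) • ρ +
        (s' * ⟪a, p d.fst⟫ + t' * ⟪a, p d.snd⟫) • a := by
      conv_lhs => rw [hm, e1, e2]
      module
    rw [e, hρj'] at hy'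
    have b1 := hmono' 0 i (Nat.zero_le _) hi.le
    have b2 := hmono' (i + 1) k hi le_rfl
    have b3 := hmono' 0 j (Nat.zero_le _) hj.le
    have b4 := hmono k j hj le_rfl
    rw [th0] at b1 b3
    rw [thk] at b2 b4
    have hφ := angle_eq ha hr0 har0 hc (by positivity) (by linarith) (by linarith) hy'
    rcases Nat.lt_or_ge i j with h3 | h3
    · have := hmono' (i + 1) j h3 hj.le
      linarith
    · have := hmono' j i h3 hi.le
      linarith
  -- labels of the lunes
  obtain ⟨dd, hdd⟩ := hF.ex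
  have hlab : ∀ i, ∃ b, i < k → ∀ w y, y ∈ Sec a r0 (th i) (th (i + 1)) →
      y ∈ Reg M p h w → l w = b := by
    intro i
    by_cases hi : i < k
    · obtain ⟨y0, hy0, hy1, hy2, -⟩ := exists_gen hS.inc ∅ (by simp)
        (Sec_open ha hr0 har0 (th i) (th (i + 1))) (Sec_nonempty (thl i hi))
      obtain ⟨w0, hw0⟩ := exists_face hG hy1 hy2
      refine ⟨l w0, fun _ w y hy hyw => ?_⟩
      have hcov := hREG1 V M p h hS (fun w => l w = l w0) (Sec a r0 (th i) (th (i + 1)))
        (Sec_preconn a r0 _ _) (fun y hy => Sec_ne_zero ha hr0 har0 hy) (by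
          intro y hy d hd
          refine havoid i hi y hy d ?_
          intro heq
          exact hd.2 (heq.symm.trans hd.1)) y0 hy0 y hy hyw.2.1
        ⟨norm_nrm hy1, hy2, w0, rfl, hw0.2.2⟩
      obtain ⟨-, -, w', hw', h3⟩ := hcov
      have hw'' : l w' = l w0 := hw'
      rw [← hw'', Reg_unique hG hyw ⟨hyw.1, hyw.2.1, h3⟩]
    · exact ⟨l (M.fc dd), fun h => absurd h hi⟩
  choose lam0 hlam0 using hlab
  obtain ⟨lam, hlam⟩ : ∃ lam : ℕ → L, lam = fun i => if i = k then lam0 0 else lam0 i := ⟨_, rfl⟩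
  have lamlt : ∀ i < k, lam i = lam0 i := by
    intro i hi; rw [hlam]; simp only; rw [if_neg hi.ne]
  have lamk : lam k = lam 0 := by
    rw [lamlt 0 hk, hlam]; simp
  -- labels along a down dart
  have F1 : ∀ i < k, ∀ d : M.G.Dart, OnR a (dr a r0 (th (i + 1))) (p d.fst) →
      OnR a (dr a r0 (th (i + 1))) (p d.snd) → ∀ κ : ℝ, 0 < κ →
      crs (p d.fst) (p d.snd) = κ • crs a (dr a r0 (th (i + 1))) →
      l (M.fc d) = lam (i + 1) ∧ l (M.fc d.symm) = lam i := by
    intro i hi d h1 h2 κ hκ hcr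
    obtain ⟨g, hg, j, hj, hsub, hjl⟩ : ∃ g : ℝ, 0 < g ∧ ∃ j < k,
        Sec a r0 (th (i + 1)) (th (i + 1) + g) ⊆ Sec a r0 (th j) (th (j + 1)) ∧
        lam j = lam (i + 1) := by
      by_cases h3 : i + 1 < k
      · refine ⟨th (i + 2) - th (i + 1), by have := thl (i + 1) h3; linarith, i + 1, h3,
          Sec_mono le_rfl (by linarith), rfl⟩
      · have h4 : i + 1 = k := by omega
        refine ⟨th 1 - th 0, by have := thl 0 hk; linarith, 0, hk, ?_, ?_⟩
        · rw [h4, thk]
          refine Sec_shift.trans (Sec_mono th0.le ?_)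
          rw [th0, sub_zero]
        · rw [h4, lamk]
    obtain ⟨δ, hδ⟩ : ∃ δ, δ = min Real.pi (min (th (i + 1) - th i) g) := ⟨_, rfl⟩
    have hδ0 : 0 < δ := by
      rw [hδ]
      exact lt_min hpi (lt_min (by have := thl i hi; linarith) hg)
    have hδ1 : δ ≤ Real.pi := by rw [hδ]; exact min_le_left _ _
    have hδ2 : δ ≤ th (i + 1) - th i := by
      rw [hδ]; exact (min_le_right _ _).trans (min_le_left _ _)
    have hδ3 : δ ≤ g := by
      rw [hδ]; exact (min_le_right _ _).trans (min_le_right _ _)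
    obtain ⟨⟨y, y1, y2⟩, y', y1', y2'⟩ := sides hG ha hr0 har0 h1 h2 hκ hcr hδ0 hδ1
    constructor
    · rw [← hjl, lamlt j hj]
      exact hlam0 j hj _ y (hsub (Sec_mono le_rfl (by linarith) y1)) y2
    · rw [lamlt i hi]
      exact hlam0 i hi _ y' (Sec_mono (by linarith) le_rfl y1') y2'
  -- down darts and up darts on the meridians
  have Dn : ∀ i ≤ k, ∃ (e : M.G.Dart) (v : V) (κ c : ℝ), M.E0 l e ∧ e.fst = v ∧ v ≠ s ∧ v ≠ t ∧
      0 < κ ∧ crs (p e.fst) (p e.snd) = κ • crs a (dr a r0 (th i)) ∧ l (M.fc e) = lam i ∧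
      0 < c ∧ p v = c • dr a r0 (th i) + ⟪a, p v⟫ • a := by
    intro i hi
    obtain ⟨v, hv, hvs, hvt, hvd⟩ := (hmemR _).1 (hmr i hi)
    obtain ⟨e, he, hev, heR, ⟨κ, hκ, hcr⟩, hlt⟩ := dn_dart hS hF hv hvs hvt
    obtain ⟨n1, n1'⟩ := ne_pole hS hF hvs hvt
    obtain ⟨q1, q2, c, hc, e1⟩ := dirv_spec ha (hS.inc.unit v) n1 n1'
    rw [hvd] at heR hcr e1
    refine ⟨e, v, κ, c, he, hev, hvs, hvt, hκ, hcr, ?_, hc, e1⟩
    have hfR : OnR a (dr a r0 (th i)) (p e.fst) := by rw [hev]; exact ⟨c, hc.le, e1⟩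
    rcases Nat.eq_zero_or_pos i with h | h
    · have h3 : dr a r0 (th i) = dr a r0 (th (k - 1 + 1)) := by
        rw [show k - 1 + 1 = k by omega, h, th0, thk, dr0, drk]
      rw [h3] at hfR heR hcr
      have := (F1 (k - 1) (by omega) e hfR heR κ hκ hcr).1
      rw [this, h, show k - 1 + 1 = k by omega, lamk]
    · have h3 : i = i - 1 + 1 := by omega
      rw [h3] at hfR heR hcr ⊢
      exact (F1 (i - 1) (by omega) e hfR heR κ hκ hcr).1
  have Up : ∀ i < k, ∃ (e : M.G.Dart) (v : V) (κ c : ℝ), M.E0 l e ∧ e.fst = v ∧ v ≠ s ∧ v ≠ t ∧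
      κ < 0 ∧ crs (p e.fst) (p e.snd) = κ • crs a (dr a r0 (th (i + 1))) ∧ l (M.fc e) = lam i ∧
      0 < c ∧ p v = c • dr a r0 (th (i + 1)) + ⟪a, p v⟫ • a := by
    intro i hi
    obtain ⟨v, hv, hvs, hvt, hvd⟩ := (hmemR _).1 (hmr (i + 1) hi)
    obtain ⟨e, he, hev, heR, ⟨κ, hκ, hcr⟩, hlt⟩ := up_dart hS hF hv hvs hvt
    obtain ⟨n1, n1'⟩ := ne_pole hS hF hvs hvt
    obtain ⟨q1, q2, c, hc, e1⟩ := dirv_spec ha (hS.inc.unit v) n1 n1'
    rw [hvd] at heR hcr e1
    refine ⟨e, v, κ, c, he, hev, hvs, hvt, hκ, hcr, ?_, hc, e1⟩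
    have hfR : OnR a (dr a r0 (th (i + 1))) (p e.fst) := by rw [hev]; exact ⟨c, hc.le, e1⟩
    have hcr' : crs (p e.symm.fst) (p e.symm.snd) = (-κ) • crs a (dr a r0 (th (i + 1))) := by
      show crs (p e.snd) (p e.fst) = _
      rw [crs_neg_swap, hcr, neg_smul]
    have := (F1 i hi e.symm heR hfR (-κ) (by linarith) hcr').2
    rwa [SimpleGraph.Dart.symm_symm] at this
  -- at least two meridians
  have hk2 : 2 ≤ k := by
    by_contra hcon
    have hk1 : k = 1 := by omega
    obtain ⟨v, hv, hvs, hvt, hvd⟩ := (hmemR _).1 (hmr 1 (by omega))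
    obtain ⟨e, he, hev, heR, ⟨κ, hκ, hcr⟩, hlt⟩ := dn_dart hS hF hv hvs hvt
    obtain ⟨n1, n1'⟩ := ne_pole hS hF hvs hvt
    obtain ⟨q1, q2, c, hc, e1⟩ := dirv_spec ha (hS.inc.unit v) n1 n1'
    rw [hvd] at heR hcr e1
    have hfR : OnR a (dr a r0 (th (0 + 1))) (p e.fst) := by rw [hev]; exact ⟨c, hc.le, e1⟩
    obtain ⟨g1, g2⟩ := F1 0 hk e hfR heR κ hκ hcr
    apply he
    rw [g1, g2, ← lamk, hk1]
  -- lunes
  have hlune : ∀ i < k, ∀ e : M.G.Dart, l (M.fc e) = lam i →
      0 ≤ det3 a (dr a r0 (th i)) (p e.fst) ∧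
      0 ≤ det3 a (p e.fst) (dr a r0 (th (i + 1))) := by
    intro i hi e he
    constructor
    · obtain ⟨d, v, κ, c, hd, hdv, -, -, hκ, hcr, hdl, -, -⟩ := Dn i hi.le
      have h1 := hF.cvx d e hd (he.trans hdl.symm)
      rw [det_of_crs hcr] at h1
      by_contra h2
      rw [not_le] at h2
      have := mul_neg_of_pos_of_neg hκ h2
      linarith
    · obtain ⟨d, v, κ, c, hd, hdv, -, -, hκ, hcr, hdl, -, -⟩ := Up i hi
      have h1 := hF.cvx d e hd (he.trans hdl.symm)
      rw [det_of_crs hcr] at h1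
      have h3 : det3 a (p e.fst) (dr a r0 (th (i + 1))) =
          - det3 a (dr a r0 (th (i + 1))) (p e.fst) := by rw [det3_swap]
      rw [h3]
      by_contra h2
      rw [not_le] at h2
      have : 0 < det3 a (dr a r0 (th (i + 1))) (p e.fst) := by linarith
      have := mul_neg_of_neg_of_pos hκ this
      linarith
  -- gaps
  have hgap : ∀ i < k, th (i + 1) ≤ th i + Real.pi := by
    intro i hi
    obtain ⟨e, v, κ, c, he, hev, -, -, -, -, hel, hc, hv⟩ := Up i hi
    have h1 := (hlune i hi e hel).1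
    rw [hev, hv, det_dr2 ha hr0 har0] at h1
    by_contra h2
    rw [not_le] at h2
    have h3 : th (i + 1) - th i < 2 * Real.pi := by
      have b1 := hmono' 0 i (Nat.zero_le _) hi.le
      have b2 := hmono' (i + 1) k hi le_rfl
      rw [th0] at b1
      rw [thk] at b2
      rcases Nat.eq_zero_or_pos i with h4 | h4
      · have b3 := hmono k (i + 1) (by omega) le_rfl
        rw [thk] at b3
        linarith
      · have b3 := hmono i 0 h4 hi.le
        rw [th0] at b3
        linarith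
    have h4 : Real.sin (th (i + 1) - th i) < 0 := by
      have h5 := Real.sin_neg_of_neg_of_neg_pi_lt (x := th (i + 1) - th i - 2 * Real.pi)
        (by linarith) (by linarith)
      rwa [Real.sin_sub_two_pi] at h5
    have := mul_neg_of_pos_of_neg hc h4
    linarith
  -- labels are different
  have hinj : ∀ i j, i < j → j < k → lam i ≠ lam j := by
    intro i j hij hj hl
    have hi : i < k := hij.trans hj
    obtain ⟨d1, v1, κ1, c1, hd1, hdv1, -, -, hκ1, hcr1, hdl1, hc1, hv1⟩ := Dn i hi.le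
    obtain ⟨d2, v2, κ2, c2, hd2, hdv2, -, -, hκ2, hcr2, hdl2, hc2, hv2⟩ := Dn j hj.le
    have e1 := (hlune i hi d2 (hdl2.trans hl.symm)).1
    have e2 := (hlune j hj d1 (hdl1.trans hl)).1
    rw [hdv2, hv2, det_dr2 ha hr0 har0] at e1
    rw [hdv1, hv1, det_dr2 ha hr0 har0] at e2
    have b0 := hmono j i hij hj.le
    have b1 := hmono' 0 i (Nat.zero_le _) hi.le
    have b2 := hmono k j hj le_rfl
    rw [th0] at b1
    rw [thk] at b2
    have f1 : 0 ≤ Real.sin (th j - th i) := by
      by_contra h3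
      rw [not_le] at h3
      have := mul_neg_of_pos_of_neg hc2 h3
      linarith
    have f2 : 0 ≤ Real.sin (th i - th j) := by
      by_contra h3
      rw [not_le] at h3
      have := mul_neg_of_pos_of_neg hc1 h3
      linarith
    have f3 : Real.sin (th i - th j) = - Real.sin (th j - th i) := by
      rw [← Real.sin_neg]; congr 1; ring
    have f4 : Real.sin (th j - th i) = 0 := by linarith
    have f5 : th j - th i = Real.pi := by
      rcases lt_trichotomy (th j - th i) Real.pi with h4 | h4 | h4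
      · have := Real.sin_pos_of_pos_of_lt_pi (by linarith : 0 < th j - th i) h4
        linarith
      · exact h4
      · have h5 := Real.sin_neg_of_neg_of_neg_pi_lt (x := th j - th i - 2 * Real.pi)
          (by linarith) (by linarith)
        rw [Real.sin_sub_two_pi] at h5
        linarith
    have f6 : dr a r0 (th j) = - dr a r0 (th i) := by
      have : th j = th i + Real.pi := by linarith
      unfold dr
      rw [this, Real.cos_add_pi, Real.sin_add_pi]
      module
    have hn0 : crs a (dr a r0 (th i)) ≠ 0 := by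
      intro h0
      obtain ⟨m1, m2⟩ := norm_dr ha hr0 har0 (th i)
      have := det3_frame1 ha m1 m2
      rw [h0] at this
      simp [det3] at this
    obtain ⟨z, hz, hz0, -, hz2⟩ := exists_gen hS.inc {crs a (dr a r0 (th i))} (by
      intro n hn
      rw [Finset.mem_singleton] at hn
      rw [hn]; exact hn0) (isOpen_Reg hS.inc (M.fc d1)) (exists_Reg hG (M.fc d1))
    have hz3 := hz2 _ (Finset.mem_singleton_self _)
    rw [crs_inner] at hz3
    have hcvx : M.Cvx p (fun w => l w = lam i) := by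
      intro d e hd he
      refine hF.cvx d e ?_ (he.trans hd.1.symm)
      intro heq
      exact hd.2 (heq.symm.trans hd.1)
    have hbd : ∀ d : M.G.Dart, M.E0 l d → l (M.fc d) = lam i →
        M.Bd (fun w => l w = lam i) d := by
      intro d hd hl
      refine ⟨hl, fun h => hd ?_⟩
      have h' : l (M.fc d.symm) = lam i := h
      rw [hl, h']
    have hcov : M.Cov p h (fun w => l w = lam i) (nrm z) :=
      ⟨norm_nrm hz.1, hz.2.1, M.fc d1, hdl1, hz.2.2⟩
    have g1 := hHALF V M p h hS _ hcvx d1 (hbd d1 hd1 hdl1) _ hcov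
    have g2 := hHALF V M p h hS _ hcvx d2 (hbd d2 hd2 (hdl2.trans hl.symm)) _ hcov
    have hzn : 0 < ‖z‖⁻¹ := inv_pos.2 (norm_pos_iff.2 hz.1)
    rw [det_of_crs hcr1, det3_nrm] at g1
    rw [det_of_crs hcr2, f6, det3_nrm] at g2
    have g3 : det3 a (-dr a r0 (th i)) z = - det3 a (dr a r0 (th i)) z := by
      simp only [det3, PiLp.neg_apply]; ring
    rw [g3] at g2
    have g4 : 0 ≤ det3 a (dr a r0 (th i)) z := by
      by_contra h3
      rw [not_le] at h3
      have := mul_neg_of_pos_of_neg hκ1 (mul_neg_of_pos_of_neg hzn h3)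
      linarith
    have g5 : det3 a (dr a r0 (th i)) z ≤ 0 := by
      by_contra h3
      rw [not_le] at h3
      have := mul_pos hκ2 (mul_pos hzn h3)
      linarith
    exact hz3 (le_antisymm g5 g4)
  refine ⟨k, th, fun i => dr a r0 (th i), lam, ?_, ?_⟩
  · exact
      { th0 := th0
        thl := thl
        thp := hgap
        thk := thk
        r0 := by show ‖dr a r0 (th 0)‖ = 1; rw [th0, dr0]; exact hr0
        ar0 := by show ⟪a, dr a r0 (th 0)⟫ = 0; rw [th0, dr0]; exact har0
        rr := by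
          intro i hi
          show dr a r0 (th i) = Real.cos (th i) • dr a r0 (th 0) +
            Real.sin (th i) • crs a (dr a r0 (th 0))
          rw [th0, dr0]
          rfl
        lamk := lamk
        lami := by
          intro i hi j hj hl
          rcases lt_trichotomy i j with h1 | h1 | h1
          · exact absurd hl (hinj i j h1 hj)
          · exact h1
          · exact absurd hl.symm (hinj j i h1 hi)
        lams := by
          intro w
          obtain ⟨y, hy, hy0, -, hy2⟩ := exists_gen hS.inc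
            ((Finset.range k).image (fun i => crs a (dr a r0 (th i)))) (by
              intro n hn
              rw [Finset.mem_image] at hn
              obtain ⟨i, -, rfl⟩ := hn
              intro h0
              obtain ⟨m1, m2⟩ := norm_dr ha hr0 har0 (th i)
              have := det3_frame1 ha m1 m2
              rw [h0] at this
              simp [det3] at this) (isOpen_Reg hS.inc w) (exists_Reg hG w)
          have hdet : ∀ i < k, det3 a (dr a r0 (th i)) y ≠ 0 := by
            intro i hi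
            rw [← crs_inner]
            exact hy2 _ (Finset.mem_image_of_mem _ (Finset.mem_range.2 hi))
          have h00 := hdet 0 hk
          rw [th0, dr0] at h00
          obtain ⟨c, φ, hc, hφ0, hφ1, e⟩ := exists_polar ha hr0 har0 h00
          obtain ⟨i, hi, h1, h2⟩ := find_idx (th := th) (φ := φ) k (by rw [th0]; exact hφ0)
            (by rw [thk]; exact hφ1)
          have h3 : th i < φ := by
            rcases h1.lt_or_eq with h | h
            · exact h
            · exfalso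
              apply hdet i hi
              rw [e, det_dr ha hr0 har0, h, sub_self, Real.sin_zero, mul_zero]
          refine ⟨i, hi, ?_⟩
          rw [lamlt i hi]
          exact hlam0 i hi w y ⟨c, φ, _, hc, h3, h2, e⟩ hy
        ray := by
          intro d hd
          obtain ⟨ρ, hρ1, hρ2, hv, hf, hs, κ, hκ0, hcr, k1, k2⟩ := dart_struct hS hF hd
          obtain ⟨i, hi, e⟩ := hidx ρ ((hmemR ρ).2 hv)
          rw [e] at hf hs hcr
          refine ⟨i, hi, hf, hs, ?_⟩
          rcases lt_or_gt_of_ne hκ0 with h1 | h1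
          · right
            have hcr' : crs (p d.symm.fst) (p d.symm.snd) =
                (-κ) • crs a (dr a r0 (th (i + 1))) := by
              show crs (p d.snd) (p d.fst) = _
              rw [crs_neg_swap, hcr, neg_smul]
            have := F1 i hi d.symm hs hf (-κ) (by linarith) hcr'
            rw [SimpleGraph.Dart.symm_symm] at this
            exact ⟨k2.1 h1, this.2, this.1⟩
          · left
            have := F1 i hi d hf hs κ h1 hcr
            exact ⟨k1.1 h1, this.1, this.2⟩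
        top := by
          intro i hi
          obtain ⟨v, hv, hmax⟩ := Finset.exists_max_image (Finset.univ.filter
            (fun v => M.OnE l v ∧ v ≠ s ∧ v ≠ t ∧ dirv a (p v) = dr a r0 (th (i + 1))))
            (fun v => ⟪a, p v⟫) (by
              obtain ⟨v, h1, h2, h3, h4⟩ := (hmemR _).1 (hmr (i + 1) hi)
              exact ⟨v, Finset.mem_filter.2 ⟨Finset.mem_univ _, h1, h2, h3, h4⟩⟩)
          rw [Finset.mem_filter] at hv
          obtain ⟨-, hv, hvs, hvt, hvd⟩ := hv
          obtain ⟨e, he, hev, heR, ⟨κ, hκ, hcr⟩, hlt⟩ := up_dart hS hF hv hvs hvt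
          obtain ⟨n1, n1'⟩ := ne_pole hS hF hvs hvt
          obtain ⟨q1, q2, c, hc, e1⟩ := dirv_spec ha (hS.inc.unit v) n1 n1'
          rw [hvd] at heR hcr e1
          have hfR : OnR a (dr a r0 (th (i + 1))) (p e.fst) := by
            rw [hev]; exact ⟨c, hc.le, e1⟩
          have hes : e.snd = s := by
            by_contra h1
            have h2 : e.snd ≠ t := by
              intro h2
              rw [h2, hF.pt, inner_neg_right, inner_self_one ha] at hlt
              have := inner_gt_neg_one ha (hS.inc.unit v) (fun h => n1' (by rw [h, neg_neg]))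
              linarith
            have h3 : M.OnE l e.snd := ⟨e.symm, rfl, E0_symm he⟩
            obtain ⟨m1, m1'⟩ := ne_pole hS hF h1 h2
            have h4 : dirv a (p e.snd) = dr a r0 (th (i + 1)) :=
              (onR_unique ha (hS.inc.unit _) m1 m1' (norm_dr ha hr0 har0 _).1 heR rfl).symm
            have := hmax e.snd (Finset.mem_filter.2 ⟨Finset.mem_univ _, h3, h1, h2, h4⟩)
            linarith
          have hcr' : crs (p e.symm.fst) (p e.symm.snd) =
              (-κ) • crs a (dr a r0 (th (i + 1))) := by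
            show crs (p e.snd) (p e.fst) = _
            rw [crs_neg_swap, hcr, neg_smul]
          have hF1 := F1 i hi e.symm heR hfR (-κ) (by linarith) hcr'
          exact ⟨e.symm, hes, hfR, hF1⟩
        bot := by
          intro i hi
          obtain ⟨v, hv, hmin⟩ := Finset.exists_min_image (Finset.univ.filter
            (fun v => M.OnE l v ∧ v ≠ s ∧ v ≠ t ∧ dirv a (p v) = dr a r0 (th (i + 1))))
            (fun v => ⟪a, p v⟫) (by
              obtain ⟨v, h1, h2, h3, h4⟩ := (hmemR _).1 (hmr (i + 1) hi)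
              exact ⟨v, Finset.mem_filter.2 ⟨Finset.mem_univ _, h1, h2, h3, h4⟩⟩)
          rw [Finset.mem_filter] at hv
          obtain ⟨-, hv, hvs, hvt, hvd⟩ := hv
          obtain ⟨e, he, hev, heR, ⟨κ, hκ, hcr⟩, hlt⟩ := dn_dart hS hF hv hvs hvt
          obtain ⟨n1, n1'⟩ := ne_pole hS hF hvs hvt
          obtain ⟨q1, q2, c, hc, e1⟩ := dirv_spec ha (hS.inc.unit v) n1 n1'
          rw [hvd] at heR hcr e1
          have hfR : OnR a (dr a r0 (th (i + 1))) (p e.fst) := by
            rw [hev]; exact ⟨c, hc.le, e1⟩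
          have het : e.snd = t := by
            by_contra h2
            have h1 : e.snd ≠ s := by
              intro h1
              rw [h1, hF.ps, inner_self_one ha] at hlt
              have := inner_lt_one ha (hS.inc.unit v) (fun h => n1 h.symm)
              linarith
            have h3 : M.OnE l e.snd := ⟨e.symm, rfl, E0_symm he⟩
            obtain ⟨m1, m1'⟩ := ne_pole hS hF h1 h2
            have h4 : dirv a (p e.snd) = dr a r0 (th (i + 1)) :=
              (onR_unique ha (hS.inc.unit _) m1 m1' (norm_dr ha hr0 har0 _).1 heR rfl).symm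
            have := hmin e.snd (Finset.mem_filter.2 ⟨Finset.mem_univ _, h3, h1, h2, h4⟩)
            linarith
          exact ⟨e, het, hfR, F1 i hi e hfR heR κ hκ hcr⟩
        lune := hlune }
  · show OnR a (dr a r0 (th 0)) (p v0)
    rw [th0, dr0]
    exact ⟨c0, hc0.le, e0⟩

end N9Fl
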