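import Pool.Agent.Helper30.N9.Sheet2

/-!
MP_9b91d1_co, row HA: potentials which are constant along the darts not inside a cell are
constant on the outer vertices.
-/

open scoped RealInnerProductSpace Topology
open Pool.Agent.Helper30.N9 Pool.Agent.Helper30.N9.PlaneGraph

namespace N9Ha

variable {V : Type} [Fintype V] [DecidableEq V] {M : PlaneGraph V} {p : V → E3}
  {h : M.Face → E3}

/-- The region of a face. -/
def Reg (M : PlaneGraph V) (p : V → E3) (h : M.Face → E3) (w : M.Face) : Set E3 :=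
  {y | y ≠ 0 ∧ M.OffAll p (nrm y) ∧ M.FW p h w (nrm y) = 1}

theorem ev_off (hq : M.InC p) {y : E3} (hy : y ≠ 0) (ho : M.OffAll p (nrm y)) :
    ∀ᶠ y' in 𝓝 y, y' ≠ 0 ∧ M.OffAll p (nrm y') := by
  have h1 : ∀ᶠ y' in 𝓝 y, y' ≠ 0 := isOpen_ne.mem_nhds hy
  have h2 : ∀ᶠ y' in 𝓝 y, ∀ d : M.G.Dart, nrm y' ∉ arc (p d.fst) (p d.snd) := by
    rw [Filter.eventually_all]
    intro d
    exact eventually_not_arc (hq.unit _) (hq.unit _) (hq.q_ne d) (hq.ne_neg d) hy (ho d)
  exact h1.and h2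

theorem ev_FW (hq : M.InC p) {y : E3} (hy : y ≠ 0) (ho : M.OffAll p (nrm y)) :
    ∀ᶠ y' in 𝓝 y, ∀ w, M.FW p h w (nrm y') = M.FW p h w (nrm y) := by
  rw [Filter.eventually_all]
  intro w
  filter_upwards [(hq.chain w).W_eventually hy (fun d _ => ho d) (h w)] with y' h1
  exact h1.2.2

theorem isOpen_Reg (hq : M.InC p) (w : M.Face) : IsOpen (Reg M p h w) := by
  rw [isOpen_iff_mem_nhds]
  rintro y ⟨h1, h2, h3⟩
  filter_upwards [ev_off hq h1 h2, ev_FW (h := h) hq h1 h2] with y' h4 h5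
  exact ⟨h4.1, h4.2, by rw [h5 w, h3]⟩

/-- Points to the left of a dart near an interior point of its arc. -/
theorem left_Reg (hG : Good M p h) (d : M.G.Dart) {x : E3}
    (hx : x ∈ arc (p d.fst) (p d.snd)) (hx1 : x ≠ p d.fst) (hx2 : x ≠ p d.snd) {U : Set E3}
    (hU : U ∈ 𝓝 x) : ∃ y ∈ U, y ∈ Reg M p h (M.fc d) := by
  have hx0 := ne_zero_of_unit hx.1
  have hnx := nrm_unit hx.1
  have ev := eventually_off_others hG.inC (d := d) hx0 (by rw [hnx]; exact hx)
    (by rw [hnx]; exact hx1) (by rw [hnx]; exact hx2)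
  obtain ⟨δ, hδ, hloc⟩ := edge_local hG.per hG.c3 hG.inC hG.cen hx hx1 hx2
  obtain ⟨τ, hτ, h1, h2, h3⟩ := exists_left (n := crs (p d.fst) (p d.snd))
    (Filter.inter_mem hU (ev.and (Metric.ball_mem_nhds x hδ)))
  have hdx : det3 (p d.fst) (p d.snd) x = 0 := by
    by_contra hcon
    have := not_mem_arc_of_det hcon
    rw [hnx] at this
    exact this hx
  have hcp := crs_pos (hG.inC.unit d.fst) (hG.inC.unit d.snd) (hG.inC.q_ne d)
    (hG.inC.ne_neg d)
  have hd : 0 < det3 (p d.fst) (p d.snd) (x + τ • crs (p d.fst) (p d.snd)) := by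
    rw [det3_add_right, det3_smul_right, det3_crs, hdx]
    have := mul_pos hτ hcp
    linarith
  obtain ⟨p0, p1, p2, p3⟩ := hloc _ h3
  exact ⟨_, h1, p0, h2 hd.ne', p2 hd⟩

theorem exists_Reg (hG : Good M p h) (w : M.Face) : (Reg M p h w).Nonempty := by
  have hw : M.fc w.out = w := Quotient.out_eq w
  obtain ⟨q0, q1, q2, q3⟩ := pt_props (hG.inC.unit w.out.fst) (hG.inC.unit w.out.snd)
    (hG.inC.q_ne w.out) (hG.inC.ne_neg w.out) one_pos
  obtain ⟨y, -, hy⟩ := left_Reg hG w.out q1 q2 q3 Filter.univ_mem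
  rw [hw] at hy
  exact ⟨y, hy⟩

theorem Reg_unique (hG : Good M p h) {w w' : M.Face} {y : E3} (h1 : y ∈ Reg M p h w)
    (h2 : y ∈ Reg M p h w') : w = w' := by
  obtain ⟨w0, -, hw0⟩ := tiling hG.per hG.c3 hG.inC hG.cen (norm_nrm h1.1) h1.2.1
  have e1 : w = w0 := by
    by_contra hne
    have := hw0 w hne
    rw [h1.2.2] at this
    exact one_ne_zero this
  have e2 : w' = w0 := by
    by_contra hne
    have := hw0 w' hne
    rw [h2.2.2] at this
    exact one_ne_zero this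
  rw [e1, e2]

theorem exists_face (hG : Good M p h) {y : E3} (hy : y ≠ 0) (ho : M.OffAll p (nrm y)) :
    ∃ w, y ∈ Reg M p h w := by
  obtain ⟨w, hw, -⟩ := tiling hG.per hG.c3 hG.inC hG.cen (norm_nrm hy) ho
  exact ⟨w, hy, ho, hw⟩

/-- density of the points off the drawing -/
theorem exists_off (hq : M.InC p) {y : E3} (hy : y ≠ 0) {U : Set E3} (hU : U ∈ 𝓝 y) :
    ∃ y' ∈ U, y' ≠ 0 ∧ M.OffAll p (nrm y') := by
  classical
  obtain ⟨O, hO1, hO2, hO3⟩ := mem_nhds_iff.1 hU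
  obtain ⟨y', ⟨h1, h0⟩, h2⟩ := exists_generic
    (Finset.univ.image (fun d : M.G.Dart => crs (p d.fst) (p d.snd))) (by
      intro n hn
      rw [Finset.mem_image] at hn
      obtain ⟨d, -, rfl⟩ := hn
      have := crs_pos (hq.unit _) (hq.unit _) (hq.q_ne d) (hq.ne_neg d)
      intro h0
      rw [h0, inner_zero_left] at this
      exact lt_irrefl _ this) (hO2.inter isOpen_ne) ⟨y, hO3, hy⟩
  refine ⟨y', hO1 h1, h0, fun d => ?_⟩
  apply not_mem_arc_of_det
  rw [← crs_inner]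
  exact h2 _ (Finset.mem_image_of_mem _ (Finset.mem_univ d))

variable {T : Set M.Face} {N : Set E3}

theorem cell_smul (hC : M.Cell p h T N) {y : E3} (hy : y ∈ N) {t : ℝ} (ht : 0 ≤ t) :
    t • y ∈ N := by
  have := hC.cvx y hy y hy t 0 ht le_rfl
  rwa [zero_smul, add_zero] at this

theorem cell_nrm (hC : M.Cell p h T N) {y : E3} (hy : y ≠ 0) (hy2 : nrm y ∈ N) : y ∈ N := by
  have := cell_smul hC hy2 (norm_nonneg y)
  unfold nrm at this
  rwa [smul_smul, mul_inv_cancel₀ (norm_ne_zero_iff.2 hy), one_smul] at this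

theorem Reg_sub (hC : M.Cell p h T N) {w : M.Face} (hw : w ∈ T) {y : E3}
    (hy : y ∈ Reg M p h w) : y ∈ N :=
  cell_nrm hC hy.1 ((hC.reg _ (norm_nrm hy.1) hy.2.1).1 ⟨w, hw, hy.2.2⟩)

theorem Reg_out (hG : Good M p h) (hC : M.Cell p h T N) {w : M.Face} (hw : w ∉ T) {y : E3}
    (hy : y ∈ Reg M p h w) : y ∉ N := by
  intro hyN
  have h1 : nrm y ∈ N := cell_smul hC hyN (by positivity)
  obtain ⟨w', hw', h2⟩ := (hC.reg _ (norm_nrm hy.1) hy.2.1).2 h1
  have := Reg_unique hG hy ⟨hy.1, hy.2.1, h2⟩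
  rw [this] at hw
  exact hw hw'

theorem face_const {u : V → ℝ} (hu : ∀ d : M.G.Dart, ¬ (M.fc d ∈ T ∧ M.fc d.symm ∈ T) →
    u d.fst = u d.snd) {d e : M.G.Dart} (hd : M.fc d ∉ T) (hde : M.nxt.SameCycle d e) :
    u e.fst = u d.fst := by
  obtain ⟨i, rfl⟩ := hde
  have hstep : ∀ e : M.G.Dart, M.fc e ∉ T → u (M.nxt e).fst = u e.fst := by
    intro e he
    rw [M.nxt_fst]
    exact (hu e (fun h => he h.1)).symm
  have hfc : ∀ i : ℤ, M.fc ((M.nxt ^ i) d) = M.fc d := by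
    intro i
    rw [eq_comm, M.fc_eq]
    exact ⟨i, rfl⟩
  induction i using Int.induction_on with
  | zero => simp
  | succ i ih =>
    rw [add_comm, zpow_add, zpow_one, Equiv.Perm.mul_apply, hstep _ (by rw [hfc]; exact hd), ih]
  | pred i ih =>
    have h1 : M.nxt ((M.nxt ^ (-(i : ℤ) - 1)) d) = (M.nxt ^ (-(i : ℤ))) d := by
      rw [← Equiv.Perm.mul_apply, ← zpow_one_add]
      congr 2
      ring
    rw [← ih, ← h1, hstep _ (by rw [hfc]; exact hd)]

/-- All faces near `y` have the value `c`. -/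
def Pc (M : PlaneGraph V) (p : V → E3) (h : M.Face → E3) (u : V → ℝ) (c : ℝ) (y : E3) : Prop :=
  ∀ᶠ y' in 𝓝 y, ∀ w, y' ∈ Reg M p h w → u w.out.fst = c

theorem Pc_unique (hG : Good M p h) {u : V → ℝ} {c c' : ℝ} {y : E3} (hy : y ≠ 0)
    (h1 : Pc M p h u c y) (h2 : Pc M p h u c' y) : c = c' := by
  obtain ⟨y', ⟨h3, h4⟩, h5, h6⟩ := exists_off hG.inC hy (h1.and h2)
  obtain ⟨w, hw⟩ := exists_face hG h5 h6
  rw [← h3 w hw, ← h4 w hw]

theorem exists_Pc (hG : Good M p h) (hC : M.Cell p h T N) {u : V → ℝ}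
    (hu : ∀ d : M.G.Dart, ¬ (M.fc d ∈ T ∧ M.fc d.symm ∈ T) → u d.fst = u d.snd)
    {y : E3} (hy : y ≠ 0) (hyN : y ∉ N) (hyv : ∀ v, nrm y ≠ p v) : ∃ c, Pc M p h u c y := by
  by_cases ho : M.OffAll p (nrm y)
  · obtain ⟨w, hw⟩ := exists_face hG hy ho
    refine ⟨u w.out.fst, ?_⟩
    have := (isOpen_Reg hG.inC w).mem_nhds hw
    filter_upwards [this] with y' h1 w' h2
    rw [Reg_unique hG h1 h2]
  · unfold PlaneGraph.OffAll at ho
    push Not at ho
    obtain ⟨d, hd⟩ := ho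
    refine ⟨u d.fst, ?_⟩
    have hx0 := ne_zero_of_unit hd.1
    have hnx := nrm_unit hd.1
    have key : ∀ e : M.G.Dart, nrm y ∈ arc (p e.fst) (p e.snd) → M.fc e ∉ T := by
      intro e he hT
      apply hyN
      apply cell_nrm hC hy
      rw [← hC.closed.closure_eq, mem_closure_iff_nhds]
      intro U hU
      obtain ⟨z, hz1, hz2⟩ := left_Reg hG e he (hyv _) (hyv _) hU
      exact ⟨z, hz1, Reg_sub hC hT hz2⟩
    have k1 := key d hd
    have k2 := key d.symm (by rw [arc_comm]; exact hd)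
    have ev := eventually_other_faces hG.per hG.inC hG.cen hy hd (hyv _) (hyv _)
    filter_upwards [ev] with y' h1 w hw
    by_cases e1 : w = M.fc d
    · subst e1
      have hw2 : M.fc (M.fc d).out = M.fc d := Quotient.out_eq (M.fc d)
      exact face_const hu k1 ((M.fc_eq).1 hw2.symm)
    by_cases e2 : w = M.fc d.symm
    · subst e2
      have hw2 : M.fc (M.fc d.symm).out = M.fc d.symm := Quotient.out_eq (M.fc d.symm)
      rw [face_const hu k2 ((M.fc_eq).1 hw2.symm)]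
      show u d.snd = u d.fst
      exact (hu d (fun h => k1 h.1)).symm
    · have := (h1 w e1 e2).2
      rw [hw.2.2] at this
      exact absurd this one_ne_zero

theorem seg_Pc (hG : Good M p h) (hC : M.Cell p h T N) {u : V → ℝ}
    (hu : ∀ d : M.G.Dart, ¬ (M.fc d ∈ T ∧ M.fc d.symm ∈ T) → u d.fst = u d.snd)
    {z z' : E3} (hz : ∀ y ∈ segment ℝ z z', y ≠ 0 ∧ y ∉ N ∧ ∀ v, nrm y ≠ p v) {c : ℝ}
    (hc : Pc M p h u c z) : Pc M p h u c z' := by
  by_contra hcon
  obtain ⟨c', hc'⟩ := exists_Pc hG hC hu (hz _ (right_mem_segment ℝ z z')).1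
    (hz _ (right_mem_segment ℝ z z')).2.1 (hz _ (right_mem_segment ℝ z z')).2.2
  have hcc : c' ≠ c := fun h => hcon (h ▸ hc')
  have hA : IsOpen {y | Pc M p h u c y} := isOpen_setOfPred_eventually_nhds
  have hB : IsOpen {y | ∃ c', c' ≠ c ∧ Pc M p h u c' y} := by
    have : {y | ∃ c', c' ≠ c ∧ Pc M p h u c' y} = ⋃ (c' : ℝ) (_ : c' ≠ c),
        {y | Pc M p h u c' y} := by
      ext y
      simp
    rw [this]
    exact isOpen_iUnion fun c' => isOpen_iUnion fun _ => isOpen_setOfPred_eventually_nhds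
  obtain ⟨y, hy, h1, c'', h2, h3⟩ := (convex_segment z z').isPreconnected _ _ hA hB (by
      intro y hy
      obtain ⟨c0, hc0⟩ := exists_Pc hG hC hu (hz y hy).1 (hz y hy).2.1 (hz y hy).2.2
      by_cases h0 : c0 = c
      · left; rw [h0] at hc0; exact hc0
      · right; exact ⟨c0, h0, hc0⟩)
    ⟨z, left_mem_segment ℝ z z', hc⟩ ⟨z', right_mem_segment ℝ z z', c', hcc, hc'⟩
  exact h2 (Pc_unique hG (hz y hy).1 h3 h1)

theorem good_seg (hC : M.Cell p h T N) (v0 : V) {z y0 : E3} (hz : z ∉ N) (hz0 : z ≠ 0)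
    (hz1 : ∀ v, crs z (p v) ≠ 0) (hy : y0 ∈ N) (hy0 : y0 ≠ 0)
    (hy1 : ∀ v, ⟪crs z (p v), y0⟫ ≠ 0) :
    ∀ y ∈ segment ℝ z (-y0), y ≠ 0 ∧ y ∉ N ∧ ∀ v, nrm y ≠ p v := by
  rintro y ⟨α, β, hα, hβ, hαβ, rfl⟩
  have key : ∀ v, ⟪crs z (p v), α • z + β • (-y0)⟫ = - (β * ⟪crs z (p v), y0⟫) := by
    intro v
    have e1 : ⟪crs z (p v), z⟫ = 0 := by rw [crs_inner, det3_self_left]
    rw [inner_add_right, real_inner_smul_right, real_inner_smul_right, inner_neg_right, e1]
    ring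
  have hzero : ∀ v, ⟪crs z (p v), α • z + β • (-y0)⟫ = 0 → β = 0 ∧ α = 1 := by
    intro v h0
    rw [key v, neg_eq_zero] at h0
    have h1 : β = 0 := (mul_eq_zero.1 h0).resolve_right (hy1 v)
    exact ⟨h1, by linarith⟩
  refine ⟨?_, ?_, ?_⟩
  · intro h0
    obtain ⟨h1, h2⟩ := hzero v0 (by rw [h0, inner_zero_right])
    rw [h1, h2, one_smul, zero_smul, add_zero] at h0
    exact hz0 h0
  · intro hN
    rcases hα.eq_or_lt with h0 | h0
    · have h1 : β = 1 := by linarith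
      rw [← h0, h1, zero_smul, zero_add, one_smul] at hN
      obtain ⟨s, hs⟩ := hC.pointed
      have e1 := hs _ hN (neg_ne_zero.2 hy0)
      have e2 := hs _ hy hy0
      rw [inner_neg_right] at e1
      linarith
    · apply hz
      have h1 := hC.cvx _ hN _ hy 1 β zero_le_one hβ
      have h2 : (1 : ℝ) • (α • z + β • -y0) + β • y0 = α • z := by module
      rw [h2] at h1
      have h3 := cell_smul hC h1 (inv_nonneg.2 hα)
      rwa [smul_smul, inv_mul_cancel₀ h0.ne', one_smul] at h3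
  · intro v h0
    have hne : α • z + β • (-y0) ≠ 0 := by
      intro h0
      obtain ⟨h1, h2⟩ := hzero v0 (by rw [h0, inner_zero_right])
      rw [h1, h2, one_smul, zero_smul, add_zero] at h0
      exact hz0 h0
    have h1 : α • z + β • (-y0) = ‖α • z + β • (-y0)‖ • p v := by
      rw [← h0]
      unfold nrm
      rw [smul_smul, mul_inv_cancel₀ (norm_ne_zero_iff.2 hne), one_smul]
    have e2 : ⟪crs z (p v), p v⟫ = 0 := by rw [crs_inner, det3_self_right]
    obtain ⟨h2, h3⟩ := hzero v (by rw [h1, real_inner_smul_right, e2, mul_zero])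
    rw [h2, h3, one_smul, zero_smul, add_zero] at h1
    apply hz1 v
    rw [h1]
    ext i
    fin_cases i <;> simp [crs] <;> ring

theorem par_of_crs_zero {z c e : E3} (hc : ‖c‖ = 1) (he : ⟪c, e⟫ = 0) (h0 : crs z c = 0) :
    ⟪e, z⟫ = 0 := by
  have h1 := crs_inner_self z c
  rw [h0, inner_zero_left, inner_self_one hc] at h1
  have h2 : ‖z - ⟪z, c⟫ • c‖ ^ 2 = 0 := by
    have h5 := inner_self_one hc
    have h6 := real_inner_comm z c
    rw [← real_inner_self_eq_norm_sq, inner_sub_left, inner_sub_right, inner_sub_right,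
      real_inner_smul_left, real_inner_smul_right, real_inner_smul_left,
      real_inner_smul_right, h5, h6]
    linarith
  have h3 : z - ⟪z, c⟫ • c = 0 := by
    rw [← norm_eq_zero]
    exact pow_eq_zero_iff (two_ne_zero) |>.mp h2
  have h4 : z = ⟪z, c⟫ • c := sub_eq_zero.1 h3
  rw [h4, real_inner_smul_right, real_inner_comm c e, he, mul_zero]

theorem st_HA : ST_HA := by
  intro V _ _ M p h T N hG hC u hu a b ha hb
  classical
  have hpt : ∀ w : M.Face, ∃ z ∈ Reg M p h w, ∀ v, crs z (p v) ≠ 0 := by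
    intro w
    choose e he1 he2 using fun v : V => exists_perp (hG.inC.unit v)
    obtain ⟨z, hz, hz2⟩ := exists_generic (Finset.univ.image e) (by
      intro n hn
      rw [Finset.mem_image] at hn
      obtain ⟨v, -, rfl⟩ := hn
      exact ne_zero_of_unit (he1 v)) (isOpen_Reg hG.inC w) (exists_Reg hG w)
    refine ⟨z, hz, fun v h0 => ?_⟩
    exact hz2 (e v) (Finset.mem_image_of_mem _ (Finset.mem_univ v))
      (par_of_crs_zero (hG.inC.unit v) (he2 v) h0)
  obtain ⟨z, hz, hz1⟩ := hpt (M.fc a)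
  obtain ⟨z', hz', hz1'⟩ := hpt (M.fc b)
  obtain ⟨w0, hw0⟩ := hC.ne
  obtain ⟨y0, hy0, hgen⟩ := exists_generic
    (Finset.univ.image (fun v => crs z (p v)) ∪ Finset.univ.image (fun v => crs z' (p v))) (by
      intro n hn
      rw [Finset.mem_union, Finset.mem_image, Finset.mem_image] at hn
      rcases hn with ⟨v, -, rfl⟩ | ⟨v, -, rfl⟩
      · exact hz1 v
      · exact hz1' v) (isOpen_Reg hG.inC w0) (exists_Reg hG w0)
  have hyN := Reg_sub hC hw0 hy0
  have s1 := good_seg hC a.fst (Reg_out hG hC ha hz) hz.1 hz1 hyN hy0.1 (fun v =>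
    hgen _ (Finset.mem_union_left _ (Finset.mem_image_of_mem _ (Finset.mem_univ v))))
  have s2 := good_seg hC a.fst (Reg_out hG hC hb hz') hz'.1 hz1' hyN hy0.1 (fun v =>
    hgen _ (Finset.mem_union_right _ (Finset.mem_image_of_mem _ (Finset.mem_univ v))))
  have hstart : ∀ (d : M.G.Dart), M.fc d ∉ T → ∀ z ∈ Reg M p h (M.fc d),
      Pc M p h u (u d.fst) z := by
    intro d hd z hz
    filter_upwards [(isOpen_Reg hG.inC (M.fc d)).mem_nhds hz] with y' h1 w h2
    have := Reg_unique hG h1 h2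
    subst this
    have hw2 : M.fc (M.fc d).out = M.fc d := Quotient.out_eq (M.fc d)
    exact face_const hu hd ((M.fc_eq).1 hw2.symm)
  have p1 := seg_Pc hG hC hu s1 (hstart a ha z hz)
  have p2 := seg_Pc hG hC hu s2 (hstart b hb z' hz')
  exact Pc_unique hG (s1 _ (right_mem_segment ℝ _ _)).1 p1 p2

end N9Ha
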