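import Pool.Agent.Helper30.N9.Sheet
import Pool.Agent.Helper30.N9.Cx

/-!
MP_9b91d1_co, row OPEN: the class `C(G)` is open.
-/

open scoped RealInnerProductSpace Topology
open Pool.Agent.Helper30.N9

namespace N9Open

/-! ### Two arcs with a common end -/

theorem det3_lin1 (c a b : E3) (s t : ℝ) :
    det3 c (s • c + t • a) b = t * det3 c a b := by
  simp only [det3, PiLp.add_apply, PiLp.smul_apply, smul_eq_mul]; ring

/-- Criterion for two arcs with a common end to have no other common point. -/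
theorem fork_of_disj {a b c : E3} (ha : ‖a‖ = 1) (hb : ‖b‖ = 1) (hc : ‖c‖ = 1) (hac : a ≠ c)
    (hac' : a ≠ -c) (hbc : b ≠ c) (hbc' : b ≠ -c)
    (h : ∀ x ∈ arc c a, x ∈ arc c b → x = c) :
    det3 c a b ≠ 0 ∨ ⟪a, b⟫ - ⟪a, c⟫ * ⟪b, c⟫ < 0 := by
  by_contra hcon
  rw [not_or, not_ne_iff, not_lt] at hcon
  obtain ⟨h1, h2⟩ := hcon
  have h3 : det3 c b a = 0 := by rw [det3_swap, h1, neg_zero]
  have h4 := span_det hc hb hbc.symm (fun h => hbc' (by rw [h, neg_neg])) h3
  have e1 := inner_gt_neg_one hc hb (fun h => hbc' (by rw [h, neg_neg]))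
  have e2 := inner_lt_one hc hb hbc.symm
  have hk : 0 < 1 - ⟪c, b⟫ ^ 2 := by nlinarith
  obtain ⟨α, hα⟩ : ∃ α, α = (⟪a, c⟫ - ⟪c, b⟫ * ⟪a, b⟫) / (1 - ⟪c, b⟫ ^ 2) := ⟨_, rfl⟩
  obtain ⟨β, hβ⟩ : ∃ β, β = (⟪a, b⟫ - ⟪c, b⟫ * ⟪a, c⟫) / (1 - ⟪c, b⟫ ^ 2) := ⟨_, rfl⟩
  rw [← hα, ← hβ] at h4
  have hβ0 : 0 ≤ β := by
    rw [hβ]
    apply div_nonneg _ hk.le
    rw [real_inner_comm b c]
    linarith
  have hβ1 : β ≠ 0 := by
    intro h0
    rw [h0, zero_smul, add_zero] at h4
    have h5 : |α| = 1 := by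
      have := congrArg norm h4
      rw [norm_smul, hc, mul_one, ha, Real.norm_eq_abs] at this
      exact this.symm
    rcases eq_or_eq_neg_of_abs_eq h5 with h6 | h6
    · rw [h6, one_smul] at h4; exact hac h4
    · rw [h6, neg_one_smul] at h4; exact hac' h4
  have hβp : 0 < β := lt_of_le_of_ne hβ0 hβ1.symm
  by_cases hα0 : 0 ≤ α
  · exact hac (h a (right_mem_arc ha) ⟨ha, α, β, hα0, hβ0, h4⟩)
  · rw [not_le] at hα0
    refine hbc (h b ⟨hb, -α / β, 1 / β, ?_, ?_, ?_⟩ (right_mem_arc hb))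
    · exact div_nonneg (by linarith) hβ0
    · exact div_nonneg zero_le_one hβ0
    · have h6 : β • b = (-α) • c + (1 : ℝ) • a := by
        rw [h4, one_smul]
        module
      have h7 : b = β⁻¹ • (β • b) := by rw [smul_smul, inv_mul_cancel₀ hβ1, one_smul]
      rw [h7, h6, smul_add, smul_smul, smul_smul]
      congr 2 <;> ring

theorem disj_of_fork {a b c : E3} (hb : ‖b‖ = 1) (hc : ‖c‖ = 1)
    (hbc : b ≠ c) (hbc' : b ≠ -c)
    (h : det3 c a b ≠ 0 ∨ ⟪a, b⟫ - ⟪a, c⟫ * ⟪b, c⟫ < 0) {x : E3} (hx1 : x ∈ arc c a)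
    (hx2 : x ∈ arc c b) : x = c := by
  obtain ⟨hx, s, t, hs, ht, h1⟩ := hx1
  obtain ⟨-, s', t', hs', ht', h2⟩ := hx2
  by_contra hne
  have key : ∀ r : ℝ, 0 ≤ r → x ≠ r • c := by
    intro r hr h0
    have := congrArg norm h0
    rw [norm_smul, hc, mul_one, hx, Real.norm_eq_abs, abs_of_nonneg hr] at this
    rw [← this, one_smul] at h0
    exact hne h0
  have ht0 : 0 < t := by
    rcases ht.eq_or_lt with h0 | h0
    · rw [← h0, zero_smul, add_zero] at h1; exact absurd h1 (key s hs)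
    · exact h0
  have ht0' : 0 < t' := by
    rcases ht'.eq_or_lt with h0 | h0
    · rw [← h0, zero_smul, add_zero] at h2; exact absurd h2 (key s' hs')
    · exact h0
  have e1 : t * det3 c a b = 0 := by
    rw [← det3_lin1 c a b s t, ← h1, h2]
    simp only [det3, PiLp.add_apply, PiLp.smul_apply, smul_eq_mul]; ring
  have e2 : det3 c a b = 0 := (mul_eq_zero.1 e1).resolve_left ht0.ne'
  have e3 : ⟪a, b⟫ - ⟪a, c⟫ * ⟪b, c⟫ < 0 := h.resolve_left (fun h' => h' e2)
  have e4 : ∀ y : E3, ∀ r w : ℝ, ⟪r • c + w • y, b⟫ - ⟪r • c + w • y, c⟫ * ⟪b, c⟫ =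
      w * (⟪y, b⟫ - ⟪y, c⟫ * ⟪b, c⟫) := by
    intro y r w
    rw [inner_add_left, inner_add_left, real_inner_smul_left, real_inner_smul_left,
      real_inner_smul_left, real_inner_smul_left, inner_self_one hc, real_inner_comm b c]
    ring
  have e5 := e4 a s t
  have e6 := e4 b s' t'
  rw [← h1, h2, e6] at e5
  rw [inner_self_one hb] at e5
  have f1 := inner_gt_neg_one hc hb (fun h => hbc' (by rw [h, neg_neg]))
  have f2 := inner_lt_one hc hb hbc.symm
  have hk : 0 < 1 - ⟪b, c⟫ * ⟪b, c⟫ := by rw [real_inner_comm c b]; nlinarith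
  have f3 := mul_pos ht0' hk
  have f4 := mul_neg_of_pos_of_neg ht0 e3
  linarith

/-! ### Two disjoint arcs -/

/-- A point of the chord. -/
noncomputable def chd (a b : E3) (r : ℝ) : E3 := (1 - r) • a + r • b

theorem chd_mem_cone {a b : E3} {r : ℝ} (hr : r ∈ Set.Icc (0 : ℝ) 1) : chd a b r ∈ cone a b :=
  ⟨1 - r, r, by linarith [hr.2], hr.1, rfl⟩

theorem chd_ne {a b : E3} (ha : ‖a‖ = 1) (hb : ‖b‖ = 1) (hab : a ≠ -b) {r : ℝ}
    (hr : r ∈ Set.Icc (0 : ℝ) 1) : chd a b r ≠ 0 := by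
  intro h0
  have h1 : ⟪chd a b r, a + b⟫ = 1 + ⟪a, b⟫ := by
    unfold chd
    rw [inner_add_left, inner_add_right, inner_add_right, real_inner_smul_left,
      real_inner_smul_left, real_inner_smul_left, real_inner_smul_left, inner_self_one ha,
      inner_self_one hb, real_inner_comm a b]
    ring
  rw [h0, inner_zero_left] at h1
  have := inner_gt_neg_one ha hb hab
  linarith

theorem arc_chd {a b x : E3} (hx : x ∈ arc a b) :
    ∃ r ∈ Set.Icc (0 : ℝ) 1, ∃ m : ℝ, 0 < m ∧ chd a b r = m • x := by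
  obtain ⟨hx1, s, t, hs, ht, h⟩ := hx
  have hst : 0 < s + t := by
    rcases (add_nonneg hs ht).eq_or_lt with h0 | h0
    · have h1 : s = 0 := by linarith
      have h2 : t = 0 := by linarith
      rw [h1, h2, zero_smul, zero_smul, add_zero] at h
      rw [h, norm_zero] at hx1
      exact absurd hx1 zero_ne_one
    · exact h0
  refine ⟨t / (s + t), ⟨by positivity, by rw [div_le_one hst]; linarith⟩, (s + t)⁻¹,
    by positivity, ?_⟩
  unfold chd
  rw [h, smul_add, smul_smul, smul_smul]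
  congr 2
  · field_simp; ring
  · rw [div_eq_mul_inv, mul_comm]

variable {V : Type}

theorem ev_disj (p : V → E3) (v1 v2 v3 v4 : V) (hu : ∀ v, ‖p v‖ = 1) (h12 : p v1 ≠ -p v2)
    (h34 : p v3 ≠ -p v4) (h : ∀ x ∈ arc (p v1) (p v2), x ∉ arc (p v3) (p v4)) :
    ∀ᶠ q in 𝓝 p, (∀ v, ‖q v‖ = 1) → ∀ x ∈ arc (q v1) (q v2), x ∉ arc (q v3) (q v4) := by
  have hG : Continuous (fun z : (V → E3) × (ℝ × ℝ) =>
      ‖chd (z.1 v1) (z.1 v2) z.2.1‖ * ‖chd (z.1 v3) (z.1 v4) z.2.2‖ -
        ⟪chd (z.1 v1) (z.1 v2) z.2.1, chd (z.1 v3) (z.1 v4) z.2.2⟫) := by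
    unfold chd
    fun_prop
  have hK : IsCompact (Set.Icc (0 : ℝ) 1 ×ˢ Set.Icc (0 : ℝ) 1) := isCompact_Icc.prod isCompact_Icc
  have hev := hK.eventually_forall_of_forall_eventually (x₀ := p)
    (P := fun (q : V → E3) (r : ℝ × ℝ) => 0 <
      ‖chd (q v1) (q v2) r.1‖ * ‖chd (q v3) (q v4) r.2‖ -
        ⟪chd (q v1) (q v2) r.1, chd (q v3) (q v4) r.2⟫) (by
    rintro ⟨r, r'⟩ ⟨hr, hr'⟩
    refine (isOpen_lt continuous_const hG).mem_nhds ?_
    show 0 < ‖chd (p v1) (p v2) r‖ * ‖chd (p v3) (p v4) r'‖ -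
        ⟪chd (p v1) (p v2) r, chd (p v3) (p v4) r'⟫
    have hy := chd_ne (hu v1) (hu v2) h12 hr
    have hz := chd_ne (hu v3) (hu v4) h34 hr'
    have h1 := real_inner_le_norm (chd (p v1) (p v2) r) (chd (p v3) (p v4) r')
    rcases h1.eq_or_lt with h2 | h2
    · exfalso
      rw [inner_eq_norm_mul_iff_real] at h2
      have hyn := norm_pos_iff.2 hy
      have hzn := norm_pos_iff.2 hz
      have h3 : nrm (chd (p v1) (p v2) r) = nrm (chd (p v3) (p v4) r') := by
        rw [← nrm_smul hzn (chd (p v1) (p v2) r), h2, nrm_smul hyn]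
      refine h (nrm (chd (p v1) (p v2) r)) ((nrm_mem_arc hy).2 (chd_mem_cone hr)) ?_
      rw [h3]
      exact (nrm_mem_arc hz).2 (chd_mem_cone hr')
    · linarith)
  filter_upwards [hev] with q hq hqu x hx hx'
  obtain ⟨r, hr, m, hm, h1⟩ := arc_chd hx
  obtain ⟨r', hr', m', hm', h2⟩ := arc_chd hx'
  have h3 := hq (r, r') ⟨hr, hr'⟩
  simp only [h1, h2] at h3
  rw [norm_smul, norm_smul, hx.1, real_inner_smul_left, real_inner_smul_right,
    inner_self_one hx.1, Real.norm_eq_abs, Real.norm_eq_abs, abs_of_pos hm, abs_of_pos hm'] at h3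
  linarith

/-- The embedding condition for two edges. -/
def EE {V : Type} {G : SimpleGraph V} (q : V → E3) (d e : G.Dart) : Prop :=
  ∀ x ∈ arc (q d.fst) (q d.snd), x ∈ arc (q e.fst) (q e.snd) →
    ∃ v, v ∈ d.edge ∧ v ∈ e.edge ∧ x = q v

theorem EE_symm1 {G : SimpleGraph V} {q : V → E3} {d e : G.Dart} (h : EE q d.symm e) :
    EE q d e := by
  intro x hx hx'
  rw [arc_comm] at hx
  obtain ⟨v, h1, h2, h3⟩ := h x hx hx'
  rw [SimpleGraph.Dart.edge_symm] at h1
  exact ⟨v, h1, h2, h3⟩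

theorem EE_symm2 {G : SimpleGraph V} {q : V → E3} {d e : G.Dart} (h : EE q d e.symm) :
    EE q d e := by
  intro x hx hx'
  rw [arc_comm] at hx'
  obtain ⟨v, h1, h2, h3⟩ := h x hx hx'
  rw [SimpleGraph.Dart.edge_symm] at h2
  exact ⟨v, h1, h2, h3⟩

theorem mem_edge {G : SimpleGraph V} {d : G.Dart} {v : V} :
    v ∈ d.edge ↔ v = d.fst ∨ v = d.snd := by
  rcases d with ⟨⟨a, b⟩, h⟩
  exact Sym2.mem_iff

theorem ev_fork [Fintype V] {G : SimpleGraph V} (p : V → E3) (hu : ∀ v, ‖p v‖ = 1)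
    (hinj : Function.Injective p) (hnn : ∀ d : G.Dart, p d.fst ≠ -p d.snd) {d e : G.Dart}
    (hde : d.fst = e.fst) (hne : d.snd ≠ e.snd) (h : EE p d e) :
    ∀ᶠ q in 𝓝 p, (∀ v, ‖q v‖ = 1) → EE q d e := by
  have h1 := fork_of_disj (a := p d.snd) (b := p e.snd) (c := p d.fst) (hu _) (hu _) (hu _)
    (fun h => d.adj.ne (hinj h).symm) (fun h => hnn d (by rw [h, neg_neg]))
    (fun h => e.adj.ne (by rw [← hde]; exact (hinj h).symm))
    (fun h => hnn e (by rw [h, neg_neg, hde])) (by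
      intro x hx hx'
      have hx2 : x ∈ arc (p e.fst) (p e.snd) := by rw [← hde]; exact hx'
      obtain ⟨v, hv1, hv2, hv3⟩ := h x hx hx2
      rw [mem_edge] at hv1 hv2
      rcases hv1 with hv1 | hv1
      · rw [hv3, hv1]
      · exfalso
        rcases hv2 with hv2 | hv2
        · exact d.adj.ne (by rw [hde, ← hv2, hv1])
        · exact hne (by rw [← hv1, ← hv2]))
  have hc1 : Continuous (fun q : V → E3 => det3 (q d.fst) (q d.snd) (q e.snd)) := by
    unfold det3
    fun_prop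
  have hc2 : Continuous (fun q : V → E3 =>
      ⟪q d.snd, q e.snd⟫ - ⟪q d.snd, q d.fst⟫ * ⟪q e.snd, q d.fst⟫) := by
    fun_prop
  have h2 : ∀ᶠ q in 𝓝 p, det3 (q d.fst) (q d.snd) (q e.snd) ≠ 0 ∨
      ⟪q d.snd, q e.snd⟫ - ⟪q d.snd, q d.fst⟫ * ⟪q e.snd, q d.fst⟫ < 0 := by
    rcases h1 with h1 | h1
    · filter_upwards [(isOpen_ne.preimage hc1).mem_nhds h1] with q hq
      exact Or.inl hq
    · filter_upwards [(isOpen_lt hc2 continuous_const).mem_nhds h1] with q hq
      exact Or.inr hq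
  have hce : Continuous (fun q : V → E3 => q e.snd) := continuous_apply _
  have hcd : Continuous (fun q : V → E3 => q d.fst) := continuous_apply _
  have h3 : ∀ᶠ q : V → E3 in 𝓝 p, q e.snd ≠ q d.fst := by
    refine (isOpen_ne_fun hce hcd).mem_nhds ?_
    exact fun h => e.adj.ne (by rw [← hde]; exact (hinj h).symm)
  have h4 : ∀ᶠ q : V → E3 in 𝓝 p, q e.snd ≠ -q d.fst := by
    refine (isOpen_ne_fun hce hcd.neg).mem_nhds ?_
    exact fun h => hnn e (by rw [show p e.snd = -p d.fst from h, neg_neg, hde])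
  filter_upwards [h2, h3, h4] with q h2 h3 h4 hqu x hx hx'
  rw [← hde] at hx'
  refine ⟨d.fst, by rw [mem_edge]; exact Or.inl rfl, by rw [mem_edge]; exact Or.inl hde, ?_⟩
  exact disj_of_fork (hqu _) (hqu _) h3 h4 h2 hx hx'

theorem ev_EE [Fintype V] {G : SimpleGraph V} (p : V → E3) (hu : ∀ v, ‖p v‖ = 1)
    (hinj : Function.Injective p) (hnn : ∀ d : G.Dart, p d.fst ≠ -p d.snd) {d e : G.Dart}
    (hde : d.edge ≠ e.edge) (h : ∀ d e : G.Dart, d.edge ≠ e.edge → EE p d e) :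
    ∀ᶠ q in 𝓝 p, (∀ v, ‖q v‖ = 1) → EE q d e := by
  by_cases hcom : ∃ v, v ∈ d.edge ∧ v ∈ e.edge
  · obtain ⟨v, hv1, hv2⟩ := hcom
    rw [mem_edge] at hv1 hv2
    have hed : ∀ d e : G.Dart, d.edge ≠ e.edge → d.fst = e.fst → d.snd ≠ e.snd := by
      intro d e hne h1 h2
      exact hne (by
        have : d = e := SimpleGraph.Dart.ext _ _ (Prod.ext h1 h2)
        rw [this])
    rcases hv1 with hv1 | hv1
    · rcases hv2 with hv2 | hv2
      · exact ev_fork p hu hinj hnn (hv1.symm.trans hv2) (hed d e hde (hv1.symm.trans hv2))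
          (h d e hde)
      · have h1 : d.edge ≠ e.symm.edge := by rw [SimpleGraph.Dart.edge_symm]; exact hde
        have h2 := ev_fork (d := d) (e := e.symm) p hu hinj hnn (hv1.symm.trans hv2)
          (hed d e.symm h1 (hv1.symm.trans hv2)) (h d e.symm h1)
        filter_upwards [h2] with q hq hqu
        exact EE_symm2 (hq hqu)
    · rcases hv2 with hv2 | hv2
      · have h1 : d.symm.edge ≠ e.edge := by rw [SimpleGraph.Dart.edge_symm]; exact hde
        have h2 := ev_fork (d := d.symm) (e := e) p hu hinj hnn (hv1.symm.trans hv2)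
          (hed d.symm e h1 (hv1.symm.trans hv2)) (h d.symm e h1)
        filter_upwards [h2] with q hq hqu
        exact EE_symm1 (hq hqu)
      · have h1 : d.symm.edge ≠ e.symm.edge := by
          rw [SimpleGraph.Dart.edge_symm, SimpleGraph.Dart.edge_symm]; exact hde
        have h2 := ev_fork (d := d.symm) (e := e.symm) p hu hinj hnn (hv1.symm.trans hv2)
          (hed d.symm e.symm h1 (hv1.symm.trans hv2)) (h d.symm e.symm h1)
        filter_upwards [h2] with q hq hqu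
        exact EE_symm1 (EE_symm2 (hq hqu))
  · have h1 := ev_disj p d.fst d.snd e.fst e.snd hu (hnn d) (hnn e) (fun x hx hx' => by
      obtain ⟨v, hv1, hv2, -⟩ := h d e hde x hx hx'
      exact hcom ⟨v, hv1, hv2⟩)
    filter_upwards [h1] with q hq hqu x hx hx'
    exact absurd hx' (hq hqu x hx)

/-! ### The degree condition -/

/-- The degree condition of `InC`. -/
def Deg [Fintype V] [DecidableEq V] (M : PlaneGraph V) (q : V → E3) : Prop :=
  ∃ h : M.G.Dart → E3, (∀ d, ‖h d‖ = 1) ∧ (∀ d, h (M.nxt d) = h d) ∧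
    (∀ d, 0 < ⟪h d, q d.fst⟫) ∧
    ∑ d : M.G.Dart, Om (h d) (q d.fst) (q d.snd) = 4 * Real.pi

theorem ev_deg [Fintype V] [DecidableEq V] (M : PlaneGraph V) {p : V → E3} (hp : M.InC p) :
    ∀ᶠ q in 𝓝 p, (∀ v, ‖q v‖ = 1) → (∀ d : M.G.Dart, q d.fst ≠ q d.snd) →
      (∀ d : M.G.Dart, q d.fst ≠ -q d.snd) → Deg M q := by
  classical
  obtain ⟨h, h1, h2, h3, h4⟩ := hp.deg
  have hcyc : ∀ d e, M.nxt.SameCycle d e → h e = h d := by
    rintro d e ⟨i, rfl⟩
    induction i using Int.induction_on with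
    | zero => simp
    | succ i ih =>
      rw [add_comm, zpow_add, zpow_one, Equiv.Perm.mul_apply, h2, ih]
    | pred i ih =>
      rw [← h2, ← Equiv.Perm.mul_apply, ← zpow_one_add]
      have : (1 : ℤ) + (-(i : ℤ) - 1) = - (i : ℤ) := by ring
      rw [this, ih]
  have hout : ∀ d : M.G.Dart, h (M.fc d).out = h d := by
    intro d
    apply hcyc
    rw [← M.fc_eq]
    exact (Quotient.out_eq (M.fc d)).symm
  -- a generic point
  obtain ⟨y, hy0, hy⟩ := exists_generic
    (Finset.univ.image (fun d : M.G.Dart => crs (p d.fst) (p d.snd))) (by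
      intro n hn
      rw [Finset.mem_image] at hn
      obtain ⟨d, -, rfl⟩ := hn
      have := crs_pos (hp.unit _) (hp.unit _) (hp.q_ne d) (hp.ne_neg d)
      intro h0
      rw [h0, inner_zero_left] at this
      exact lt_irrefl _ this) (isOpen_ne (x := (0 : E3))) (by
      obtain ⟨v, hv⟩ := exists_ne (0 : E3)
      exact ⟨v, hv⟩)
  have hy0' : y ≠ 0 := hy0
  obtain ⟨z, hz⟩ : ∃ z, z = nrm y := ⟨_, rfl⟩
  have hz1 : ‖z‖ = 1 := by rw [hz]; exact norm_nrm hy0'
  have hzoff : ∀ d : M.G.Dart, z ∉ arc (p d.fst) (p d.snd) := by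
    intro d
    rw [hz]
    apply not_mem_arc_of_det
    rw [← crs_inner]
    exact hy _ (Finset.mem_image_of_mem _ (Finset.mem_univ d))
  have hcont : ∀ v : V, ContinuousAt (fun q : V → E3 => q v) p := fun v =>
    (continuous_apply v).continuousAt
  have hslz : ∀ᶠ q : V → E3 in 𝓝 p, ∀ d : M.G.Dart,
      zc (-z) (q d.fst) (q d.snd) ∈ Complex.slitPlane := by
    rw [Filter.eventually_all]
    intro d
    have hc : ContinuousAt (fun q : V → E3 => zc (-z) (q d.fst) (q d.snd)) p :=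
      continuous_zc.continuousAt.comp (x := p)
        (f := fun q : V → E3 => (-z, q d.fst, q d.snd))
        (continuousAt_const.prodMk ((hcont _).prodMk (hcont _)))
    exact hc (Complex.isOpen_slitPlane.mem_nhds
      (slit_of_not_mem hz1 (hp.unit _) (hp.unit _) (hp.q_ne d) (hp.ne_neg d) (hzoff d)))
  have hpos : ∀ᶠ q : V → E3 in 𝓝 p, ∀ d : M.G.Dart, 0 < ⟪h d, q d.fst⟫ := by
    rw [Filter.eventually_all]
    intro d
    have hc : ContinuousAt (fun q : V → E3 => ⟪h d, q d.fst⟫) p :=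
      ContinuousAt.inner continuousAt_const (hcont _)
    exact hc (lt_mem_nhds (h3 d))
  have hsnd : ∀ q : V → E3, (∀ d : M.G.Dart, 0 < ⟪h d, q d.fst⟫) →
      ∀ d : M.G.Dart, 0 < ⟪h d, q d.snd⟫ := by
    intro q hq d
    have := hq (M.nxt d)
    rwa [h2, M.nxt_fst] at this
  have hF : ContinuousAt (fun q : V → E3 => ∑ d : M.G.Dart, Om (h d) (q d.fst) (q d.snd)) p := by
    apply tendsto_finsetSum
    intro d _
    exact continuousAt_Om continuousAt_const (hcont _) (hcont _)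
      (slit_of_pos (h1 d) (hp.unit _) (hp.unit _) (hp.q_ne d) (hp.ne_neg d) (h3 d)
        (hsnd p h3 d))
  have hpi := Real.pi_pos
  have hF1 : ∀ᶠ q : V → E3 in 𝓝 p,
      0 < ∑ d : M.G.Dart, Om (h d) (q d.fst) (q d.snd) := by
    refine hF (lt_mem_nhds ?_)
    show 0 < ∑ d : M.G.Dart, Om (h d) (p d.fst) (p d.snd)
    rw [h4]; positivity
  have hF2 : ∀ᶠ q : V → E3 in 𝓝 p,
      ∑ d : M.G.Dart, Om (h d) (q d.fst) (q d.snd) < 8 * Real.pi := by
    refine hF (gt_mem_nhds ?_)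
    show ∑ d : M.G.Dart, Om (h d) (p d.fst) (p d.snd) < 8 * Real.pi
    rw [h4]; linarith
  filter_upwards [hslz, hpos, hF1, hF2] with q hslz hpos hF1 hF2 hqu hqn hqn'
  have hpos2 := hsnd q hpos
  refine ⟨h, h1, h2, hpos, ?_⟩
  have hch : ∀ w : M.Face, Chain (M.fdarts w) (M.ga q) (M.gb q) := fun w =>
    { ua := fun i _ => hqu _
      ub := fun i _ => hqu _
      ne := fun i _ => hqn i
      nn := fun i _ => hqn' i
      closed := fun g => PlaneGraph.sum_snd w (fun v => g (q v)) }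
  have hh : ∀ (w : M.Face) (i : M.G.Dart), i ∈ M.fdarts w → h w.out = h i := by
    intro w i hi
    rw [M.mem_fdarts] at hi
    rw [← hi]; exact hout i
  have hint : ∀ w : M.Face, ∃ k : ℤ, SA (M.fdarts w) (M.ga q) (M.gb q) (h w.out)
      - SA (M.fdarts w) (M.ga q) (M.gb q) (-z) = 4 * Real.pi * k := by
    intro w
    refine (hch w).int (h1 _) (by rwa [norm_neg]) ?_ ?_
    · intro i hi
      rw [hh w i hi]
      exact slit_of_pos (h1 i) (hqu _) (hqu _) (hqn i) (hqn' i) (hpos i) (hpos2 i)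
    · intro i hi
      exact hslz i
  choose k hk using hint
  have e1 : ∑ w : M.Face, SA (M.fdarts w) (M.ga q) (M.gb q) (h w.out) =
      ∑ d : M.G.Dart, Om (h d) (q d.fst) (q d.snd) := by
    rw [← PlaneGraph.sum_faces]
    apply Finset.sum_congr rfl
    intro w _
    unfold SA
    apply Finset.sum_congr rfl
    intro i hi
    rw [hh w i hi]
    rfl
  have e2 : ∑ w : M.Face, SA (M.fdarts w) (M.ga q) (M.gb q) (-z) = 0 := by
    unfold SA
    rw [PlaneGraph.sum_faces]
    apply PlaneGraph.sum_darts_zero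
    intro d
    exact Om_swap (hslz d)
  have e3 : ∑ d : M.G.Dart, Om (h d) (q d.fst) (q d.snd) = 4 * Real.pi * ((∑ w, k w : ℤ) : ℝ) := by
    rw [← e1, ← sub_zero (∑ w : M.Face, SA (M.fdarts w) (M.ga q) (M.gb q) (h w.out)), ← e2,
      ← Finset.sum_sub_distrib, Int.cast_sum, Finset.mul_sum]
    exact Finset.sum_congr rfl fun w _ => hk w
  rw [e3] at hF1 hF2 ⊢
  have k1 : (0 : ℝ) < ((∑ w, k w : ℤ) : ℝ) := by
    by_contra hcon
    rw [not_lt] at hcon
    nlinarith
  have k2 : ((∑ w, k w : ℤ) : ℝ) < 2 := by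
    by_contra hcon
    rw [not_lt] at hcon
    nlinarith
  have k1' : 0 < ∑ w, k w := by exact_mod_cast k1
  have k2' : ∑ w, k w < 2 := by exact_mod_cast k2
  have k3 : ∑ w, k w = 1 := by omega
  rw [k3]
  norm_num

/-! ### The row -/

theorem ev_InC [Fintype V] [DecidableEq V] (M : PlaneGraph V) {p : V → E3} (hp : M.InC p) :
    ∀ᶠ q in 𝓝 p, (∀ v, ‖q v‖ = 1) → M.InC q := by
  classical
  have hinj : ∀ᶠ q : V → E3 in 𝓝 p, ∀ a b : V, a ≠ b → q a ≠ q b := by
    rw [Filter.eventually_all]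
    intro a
    rw [Filter.eventually_all]
    intro b
    by_cases hab : a = b
    · exact Filter.Eventually.of_forall fun q h => absurd hab h
    · have h1 : Continuous (fun q : V → E3 => q a) := continuous_apply _
      have h2 : Continuous (fun q : V → E3 => q b) := continuous_apply _
      filter_upwards [(isOpen_ne_fun h1 h2).mem_nhds (fun h => hab (hp.inj h))] with q hq _
      exact hq
  have hnn : ∀ᶠ q : V → E3 in 𝓝 p, ∀ d : M.G.Dart, q d.fst ≠ -q d.snd := by
    rw [Filter.eventually_all]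
    intro d
    have h1 : Continuous (fun q : V → E3 => q d.fst) := continuous_apply _
    have h2 : Continuous (fun q : V → E3 => q d.snd) := continuous_apply _
    exact (isOpen_ne_fun h1 h2.neg).mem_nhds (hp.ne_neg d)
  have hemb : ∀ᶠ q : V → E3 in 𝓝 p, ∀ d e : M.G.Dart, d.edge ≠ e.edge →
      (∀ v, ‖q v‖ = 1) → EE q d e := by
    rw [Filter.eventually_all]
    intro d
    rw [Filter.eventually_all]
    intro e
    by_cases hde : d.edge = e.edge
    · exact Filter.Eventually.of_forall fun q h => absurd hde h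
    · filter_upwards [ev_EE p hp.unit hp.inj hp.ne_neg hde (fun d e hde => hp.embed d e hde)]
        with q hq _
      exact hq
  have hper : ∀ᶠ q : V → E3 in 𝓝 p, ∀ d : M.G.Dart,
      ∑ e ∈ M.face d, ang (q e.fst) (q e.snd) < 2 * Real.pi := by
    rw [Filter.eventually_all]
    intro d
    have hc : Continuous (fun q : V → E3 => ∑ e ∈ M.face d, ang (q e.fst) (q e.snd)) := by
      apply continuous_finsetSum
      intro e _
      unfold ang
      have h1 : Continuous (fun q : V → E3 => q e.fst) := continuous_apply _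
      have h2 : Continuous (fun q : V → E3 => q e.snd) := continuous_apply _
      exact Real.continuous_arccos.comp (h1.inner h2)
    exact (isOpen_lt hc continuous_const).mem_nhds (hp.per d)
  filter_upwards [hinj, hnn, hemb, hper, ev_deg M hp] with q hinj hnn hemb hper hdeg hqu
  have hinj' : Function.Injective q := by
    intro a b hab
    by_contra hne
    exact hinj a b hne hab
  exact
    { unit := hqu
      inj := hinj'
      ne_neg := hnn
      embed := fun d e hde => hemb d e hde hqu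
      per := hper
      deg := hdeg hqu (fun d h => d.adj.ne (hinj' h)) hnn }

theorem st_OPEN : ST_OPEN := by
  intro V _ _ M p hp
  obtain ⟨ε, hε, h⟩ := Metric.eventually_nhds_iff.1 (ev_InC M hp)
  refine ⟨ε, hε, fun q hqu hq => h ?_ hqu⟩
  rw [dist_pi_lt_iff hε]
  exact hq

end N9Open
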