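import Pool.Agent.Helper24.N9.Deg1
import Pool.Agent.Helper74.N9.Ha

/-!
MP_9b91d1_co, rows REG2, REG3, REG4, FCV of the sheet Deg1.
-/

open scoped RealInnerProductSpace Topology
open Pool.Agent.Helper30.N9 Pool.Agent.Helper30.N9.PlaneGraph

namespace N9Ha

variable {V : Type} [Fintype V] [DecidableEq V] {M : PlaneGraph V} {p : V → E3}
  {h : M.Face → E3}

theorem good_of_std (hs : M.Std p h) : Good M p h := ⟨hs.c3, hs.per, hs.inc, hs.cen⟩

theorem cov_of_Reg {w : M.Face} {y : E3} (hy : y ∈ Reg M p h w) :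
    M.Cov p h (fun w' => w' = w) (nrm y) :=
  ⟨norm_nrm hy.1, hy.2.1, w, rfl, hy.2.2⟩

theorem Reg_of_cov {T : M.Face → Prop} {z : E3} (hz : M.Cov p h T z) :
    ∃ w, T w ∧ z ∈ Reg M p h w := by
  obtain ⟨h1, h2, w, hw, h3⟩ := hz
  refine ⟨w, hw, ne_zero_of_unit h1, ?_, ?_⟩
  · rw [nrm_unit h1]; exact h2
  · rw [nrm_unit h1]; exact h3

theorem st_REG2 : ST_REG2 := by
  intro V _ _ M q h hs d x hx hx1 hx2
  have hx0 := ne_zero_of_unit hx.1
  have hnx := nrm_unit hx.1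
  have ev := eventually_off_others hs.inc (d := d) hx0 (by rw [hnx]; exact hx)
    (by rw [hnx]; exact hx1) (by rw [hnx]; exact hx2)
  obtain ⟨δ, hδ, hloc⟩ := edge_local hs.per hs.c3 hs.inc hs.cen hx hx1 hx2
  obtain ⟨δ', hδ', hsub⟩ := Metric.mem_nhds_iff.1 ev
  refine ⟨min δ δ', lt_min hδ hδ', fun y hy => ?_⟩
  have hy1 : y ∈ Metric.ball x δ := Metric.ball_subset_ball (min_le_left _ _) hy
  have hy2 : y ∈ Metric.ball x δ' := Metric.ball_subset_ball (min_le_right _ _) hy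
  obtain ⟨p0, -, p2, -⟩ := hloc y hy1
  refine ⟨p0, fun hd => ⟨norm_nrm p0, ?_, M.fc d, rfl, p2 hd⟩⟩
  exact hsub hy2 hd.ne'

theorem st_REG3 : ST_REG3 := by
  intro V _ _ M q h hs
  have hG := good_of_std hs
  refine ⟨fun T T' z h1 h2 => ?_, fun z hz ho => ?_⟩
  · obtain ⟨w, hw, e1⟩ := Reg_of_cov h1
    obtain ⟨w', hw', e2⟩ := Reg_of_cov h2
    have := Reg_unique hG e1 e2
    subst this
    refine ⟨w, hw, hw', ?_⟩
    have := cov_of_Reg e1
    rwa [nrm_unit h1.1] at this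
  · obtain ⟨w, hw⟩ := exists_face hG (ne_zero_of_unit hz) (by rw [nrm_unit hz]; exact ho)
    refine ⟨w, ?_⟩
    have := cov_of_Reg hw
    rwa [nrm_unit hz] at this

/-- Generic points off the drawing. -/
theorem exists_gen (hq : M.InC p) (S : Finset E3) (hS : ∀ n ∈ S, n ≠ 0) {O : Set E3}
    (hO : IsOpen O) (hne : O.Nonempty) :
    ∃ y ∈ O, y ≠ 0 ∧ M.OffAll p (nrm y) ∧ ∀ n ∈ S, ⟪n, y⟫ ≠ 0 := by
  classical
  have hne' : (O ∩ {y | y ≠ 0}).Nonempty := by
    obtain ⟨v, hv⟩ := exists_ne (0 : E3)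
    obtain ⟨y, hy, hy2⟩ := exists_generic {v} (by
      intro n hn
      rw [Finset.mem_singleton] at hn
      rw [hn]; exact hv) hO hne
    refine ⟨y, hy, fun h0 => hy2 v (Finset.mem_singleton_self v) ?_⟩
    rw [h0, inner_zero_right]
  obtain ⟨y', ⟨h1, h0⟩, h2⟩ := exists_generic
    (S ∪ Finset.univ.image (fun d : M.G.Dart => crs (p d.fst) (p d.snd))) (by
      intro n hn
      rw [Finset.mem_union, Finset.mem_image] at hn
      rcases hn with hn | ⟨d, -, rfl⟩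
      · exact hS n hn
      have := crs_pos (hq.unit _) (hq.unit _) (hq.q_ne d) (hq.ne_neg d)
      intro h0
      rw [h0, inner_zero_left] at this
      exact lt_irrefl _ this) (hO.inter isOpen_ne) hne'
  refine ⟨y', h1, h0, fun d => ?_, fun n hn => h2 n (Finset.mem_union_left _ hn)⟩
  apply not_mem_arc_of_det
  rw [← crs_inner]
  exact h2 _ (Finset.mem_union_right _ (Finset.mem_image_of_mem _ (Finset.mem_univ d)))

theorem st_REG4 : ST_REG4 := by
  intro V _ _ M q hq S hS O hO hne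
  exact exists_gen hq S hS hO hne

theorem st_FCV : ST_FCV := by
  intro V _ _ M q h hs w S hS
  have hG := good_of_std hs
  obtain ⟨y, hy, hy0, -, hy2⟩ := exists_gen hs.inc S hS (isOpen_Reg hs.inc w) (exists_Reg hG w)
  refine ⟨nrm y, cov_of_Reg hy, fun n hn => ?_⟩
  rw [inner_nrm]
  exact mul_ne_zero (inv_ne_zero (norm_ne_zero_iff.2 hy0)) (hy2 n hn)

end N9Ha
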