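import Pool.Agent.Helper24.N9.Stm
import Pool.Agent.Helper30.N9.Local

/-!
MP_9b91d1_co, row G7: the total area of the fan is `4 π`.
-/

open scoped RealInnerProductSpace Topology
open Pool.Agent.Helper30.N9

namespace N9

namespace H74

theorem toE_inner (a b : V3) : ⟪toE a, toE b⟫ = ip a b := by
  rw [inner_def, ip_eq]; rfl

theorem toE_det (a b c : V3) : det3 (toE a) (toE b) (toE c) = dt a b c := rfl

theorem toE_add (a b : V3) : toE (a + b) = toE a + toE b := rfl

theorem toE_smul (r : ℝ) (a : V3) : toE (r • a) = r • toE a := rfl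

theorem toE_neg (a : V3) : toE (-a) = - toE a := rfl

theorem toE_norm_eq (a : V3) : ‖toE a‖ = Real.sqrt (nsq a) := by
  rw [norm_eq_sqrt_real_inner, toE_inner, ip_self]

theorem toE_norm {a : V3} (h : nsq a = 1) : ‖toE a‖ = 1 := by
  rw [norm_one_iff, toE_inner, ip_self, h]

theorem toE_ne {a : V3} (h : a ≠ 0) : toE a ≠ 0 := by
  intro h0
  have h1 := toE_inner a a
  rw [h0, inner_zero_left, ip_self] at h1
  exact (nsq_pos h).ne h1

theorem dt_add (a b c d : V3) : dt a b (c + d) = dt a b c + dt a b d := by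
  simp only [dt, Pi.add_apply]; ring

theorem dt_smul (a b c : V3) (r : ℝ) : dt a b (r • c) = r * dt a b c := by
  simp only [dt, Pi.smul_apply, smul_eq_mul]; ring

theorem dt_zero (a b : V3) : dt a b 0 = 0 := by
  simp [dt]

theorem dt_sum {ι : Type} (a b : V3) (s : Finset ι) (f : ι → V3) :
    dt a b (∑ i ∈ s, f i) = ∑ i ∈ s, dt a b (f i) := by
  classical
  induction s using Finset.induction_on with
  | empty => rw [Finset.sum_empty, Finset.sum_empty, dt_zero]
  | insert i s hi ih => rw [Finset.sum_insert hi, Finset.sum_insert hi, dt_add, ih]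

theorem ip_sum {ι : Type} (a : V3) (s : Finset ι) (f : ι → V3) :
    ip a (∑ i ∈ s, f i) = ∑ i ∈ s, ip a (f i) := by
  classical
  induction s using Finset.induction_on with
  | empty => rw [Finset.sum_empty, Finset.sum_empty]; simp [ip]
  | insert i s hi ih => rw [Finset.sum_insert hi, Finset.sum_insert hi, ip_add_right, ih]

theorem crv_ip (a b c : V3) : ip (crv a b) c = dt a b c := by
  rw [ip_eq]
  simp [crv, dt]
  ring

variable {I : Type} [DecidableEq I] {p : I → V3} {S : Finset I} {sd : Finset (I × I)}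

/-- start points of the sides -/
noncomputable def fa (p : I → V3) (e : I × I) : E3 := toE (p e.1)

/-- end points of the sides -/
noncomputable def fb (p : I → V3) (e : I × I) : E3 := toE (p e.2)

theorem exists_third (hS : ConvPos p S) {i j : I} (h : Side p S i j) :
    ∃ l ∈ S, l ≠ i ∧ l ≠ j ∧ 0 < dt (p i) (p j) (p l) := by
  obtain ⟨k, hk, hka, hkj⟩ : ∃ k ∈ S, k ≠ i ∧ k ≠ j := by
    have h1 : 0 < ((S.erase i).erase j).card := by
      rw [Finset.card_erase_of_mem (Finset.mem_erase.mpr ⟨h.2.2.1.symm, h.2.1⟩),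
        Finset.card_erase_of_mem h.1]
      have := hS.card
      omega
    obtain ⟨k, hk⟩ := Finset.card_pos.mp h1
    rw [Finset.mem_erase, Finset.mem_erase] at hk
    exact ⟨k, hk.2.2, hk.2.1, hk.1⟩
  exact ⟨k, hk, hka, hkj, h.2.2.2 k hk hka hkj⟩

theorem side_nonneg {i j l : I} (h : Side p S i j) (hl : l ∈ S) :
    0 ≤ dt (p i) (p j) (p l) := by
  by_cases h1 : l = i
  · rw [h1]; exact le_of_eq (by unfold dt; ring)
  by_cases h2 : l = j
  · rw [h2]; exact le_of_eq (by unfold dt; ring)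
  exact (h.2.2.2 l hl h1 h2).le

theorem side_c0 (hS : ConvPos p S) {i j : I} (h : Side p S i j) :
    0 < dt (p i) (p j) (∑ l ∈ S, p l) := by
  rw [dt_sum]
  obtain ⟨l, hl, -, -, hpos⟩ := exists_third hS h
  exact Finset.sum_pos' (fun m hm => side_nonneg h hm) ⟨l, hl, hpos⟩

theorem chain_of (hS : ConvPos p S) (hu : ∀ i, nsq (p i) = 1)
    (hsd : ∀ e, e ∈ sd ↔ Side p S e.1 e.2) : Chain sd (fa p) (fb p) where
  ua := fun e _ => toE_norm (hu e.1)
  ub := fun e _ => toE_norm (hu e.2)
  ne := by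
    intro e he h
    obtain ⟨l, -, -, -, hpos⟩ := exists_third hS ((hsd e).1 he)
    rw [← toE_det] at hpos
    change toE (p e.1) = toE (p e.2) at h
    rw [h] at hpos
    simp only [det3] at hpos
    ring_nf at hpos
    exact lt_irrefl _ hpos
  nn := by
    intro e he h
    obtain ⟨l, -, -, -, hpos⟩ := exists_third hS ((hsd e).1 he)
    rw [← toE_det] at hpos
    change toE (p e.1) = - toE (p e.2) at h
    rw [h, det3_neg_left] at hpos
    simp only [det3] at hpos
    ring_nf at hpos
    exact lt_irrefl _ hpos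
  closed := by
    intro g
    have h1 : ∑ e ∈ sd, g (fa p e) = ∑ i ∈ S, g (toE (p i)) := by
      refine Finset.sum_bij (fun e _ => e.1) ?_ ?_ ?_ ?_
      · intro e he; exact ((hsd e).1 he).1
      · intro e he e' he' h
        have h2 := (hsd e).1 he
        have h3 := (hsd e').1 he'
        rw [← h] at h3
        exact Prod.ext h (h2.unique_right h3)
      · intro i hi
        obtain ⟨j, hj⟩ := hS.exists_succ hi
        exact ⟨(i, j), (hsd (i, j)).2 hj, rfl⟩
      · intro e _; rfl
    have h2 : ∑ e ∈ sd, g (fb p e) = ∑ i ∈ S, g (toE (p i)) := by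
      refine Finset.sum_bij (fun e _ => e.2) ?_ ?_ ?_ ?_
      · intro e he; exact ((hsd e).1 he).2.1
      · intro e he e' he' h
        have h2 := (hsd e).1 he
        have h3 := (hsd e').1 he'
        rw [← h] at h3
        exact Prod.ext (h2.unique_left h3) h
      · intro i hi
        obtain ⟨j, hj⟩ := hS.exists_pred hi
        exact ⟨(j, i), (hsd (j, i)).2 hj, rfl⟩
      · intro e _; rfl
    rw [h1, h2]

theorem centre_of (hsd : ∀ e, e ∈ sd ↔ Side p S e.1 e.2) {y : V3} (hy0 : y ≠ 0)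
    (hy : ∀ l ∈ S, 0 < ip y (p l)) : Centre sd (fa p) (fb p) (nrm (toE y)) := by
  refine ⟨norm_nrm (toE_ne hy0), fun e he => ?_⟩
  have h1 := (hsd e).1 he
  have h2 : 0 < ‖toE y‖⁻¹ := inv_pos.2 (norm_pos_iff.2 (toE_ne hy0))
  have key : ∀ l ∈ S, 0 < ⟪nrm (toE y), toE (p l)⟫ := by
    intro l hl
    unfold nrm
    rw [real_inner_smul_left, toE_inner]
    exact mul_pos h2 (hy l hl)
  exact ⟨key _ h1.1, key _ h1.2.1⟩

theorem inner_nrm' (y z : V3) : ⟪nrm (toE y), nrm (toE z)⟫ = ‖toE y‖⁻¹ * (‖toE z‖⁻¹ * ip y z) := by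
  unfold nrm
  rw [real_inner_smul_left, real_inner_smul_right, toE_inner]

theorem W_eq_zero (hS : ConvPos p S) (hu : ∀ i, nsq (p i) = 1)
    (hsd : ∀ e, e ∈ sd ↔ Side p S e.1 e.2) {H : E3} (hH : Centre sd (fa p) (fb p) H) {y z : V3}
    (hz0 : z ≠ 0) (hy : ∀ l ∈ S, 0 < ip y (p l)) (hyz : ip y z ≤ 0) :
    W sd (fa p) (fb p) H (nrm (toE z)) = 0 ∧ Off sd (fa p) (fb p) (nrm (toE z)) := by
  have hc := chain_of hS hu hsd
  have hy0 : y ≠ 0 := by
    rintro rfl
    obtain ⟨l, hl⟩ : S.Nonempty := by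
      rw [← Finset.card_pos]; have := hS.card; omega
    have := hy l hl
    simp [ip] at this
  have hH' := centre_of hsd hy0 hy
  have h1 : ⟪nrm (toE y), nrm (toE z)⟫ ≤ 0 := by
    rw [inner_nrm']
    exact mul_nonpos_of_nonneg_of_nonpos (by positivity)
      (mul_nonpos_of_nonneg_of_nonpos (by positivity) hyz)
  refine ⟨?_, hH'.off h1⟩
  have h2 := hc.W_zero hH' (norm_nrm (toE_ne hz0)) h1
  unfold W at h2 ⊢
  rw [hc.centre_indep hH hH']
  exact h2

theorem W_eq_one (hS : ConvPos p S) (hu : ∀ i, nsq (p i) = 1)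
    (hsd : ∀ e, e ∈ sd ↔ Side p S e.1 e.2) {H : E3} (hH : Centre sd (fa p) (fb p) H) :
    W sd (fa p) (fb p) H (nrm (toE (∑ l ∈ S, p l))) = 1 ∧
      Off sd (fa p) (fb p) (nrm (toE (∑ l ∈ S, p l))) := by
  have hc := chain_of hS hu hsd
  obtain ⟨g0, hg0⟩ := hS.pointed
  obtain ⟨i, hi⟩ : S.Nonempty := by
    rw [← Finset.card_pos]; have := hS.card; omega
  obtain ⟨j, hj⟩ := hS.exists_succ hi
  set c0 : V3 := ∑ l ∈ S, p l with hc0
  obtain ⟨l0, hl0, hl0i, hl0j, hl0p⟩ := exists_third hS hj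
  set m : V3 := p i + p j with hm
  have hD := side_c0 hS hj
  rw [← hc0] at hD
  have hDm : dt (p i) (p j) m = 0 := by
    rw [hm]; simp only [dt, Pi.add_apply]; ring
  -- the sides other than (i, j)
  have hside : ∀ e ∈ sd, 0 ≤ dt (p e.1) (p e.2) m ∧ (e ≠ (i, j) → 0 < dt (p e.1) (p e.2) m) := by
    intro e he
    have h1 := (hsd e).1 he
    rw [hm, dt_add]
    have a1 := side_nonneg h1 hj.1
    have a2 := side_nonneg h1 hj.2.1
    refine ⟨add_nonneg a1 a2, fun hne => ?_⟩
    by_cases h2 : i ≠ e.1 ∧ i ≠ e.2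
    · have := h1.2.2.2 i hj.1 h2.1 h2.2
      linarith
    by_cases h3 : j ≠ e.1 ∧ j ≠ e.2
    · have := h1.2.2.2 j hj.2.1 h3.1 h3.2
      linarith
    exfalso
    rw [not_and_or, not_ne_iff, not_ne_iff] at h2 h3
    have hij := hj.2.2.1
    rcases h2 with h2 | h2
    · rcases h3 with h3 | h3
      · exact hij (h2.trans h3.symm)
      · exact hne (Prod.ext h2.symm h3.symm)
    · rcases h3 with h3 | h3
      · rw [← h2, ← h3] at h1
        have h4 := h1.2.2.2 l0 hl0 hl0j hl0i
        have h5 : dt (p j) (p i) (p l0) = - dt (p i) (p j) (p l0) := by unfold dt; ring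
        linarith
      · exact hij (h2.trans h3.symm)
  have hm0 : m ≠ 0 := by
    intro h
    have h1 : dt (p i) (p l0) m = - dt (p i) (p j) (p l0) := by
      rw [hm]; simp only [dt, Pi.add_apply]; ring
    rw [h, dt_zero] at h1
    linarith
  have hmn : 0 < ‖toE m‖ := norm_pos_iff.2 (toE_ne hm0)
  have hij : (i, j) ∈ sd := (hsd (i, j)).2 hj
  obtain ⟨δ, hδ, w, hloc⟩ := local1 hc hij (toE_ne hm0)
    (by
      rw [nrm_mem_arc (toE_ne hm0)]
      exact ⟨1, 1, zero_le_one, zero_le_one, by rw [one_smul, one_smul]; rfl⟩)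
    (by
      intro h
      have h1 : det3 (toE (p i)) (toE (p l0)) (nrm (toE m)) =
          det3 (toE (p i)) (toE (p l0)) (toE (p i)) := by rw [h]; rfl
      rw [det3_nrm, toE_det, toE_det] at h1
      have h2 : dt (p i) (p l0) m = - dt (p i) (p j) (p l0) := by
        rw [hm]; simp only [dt, Pi.add_apply]; ring
      have h3 : dt (p i) (p l0) (p i) = 0 := by unfold dt; ring
      rw [h2, h3] at h1
      rcases mul_eq_zero.1 h1 with h4 | h4
      · rw [inv_eq_zero] at h4; exact hmn.ne' h4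
      · linarith)
    (by
      intro h
      have h1 : det3 (toE (p j)) (toE (p l0)) (nrm (toE m)) =
          det3 (toE (p j)) (toE (p l0)) (toE (p j)) := by rw [h]; rfl
      rw [det3_nrm, toE_det, toE_det] at h1
      have h2 : dt (p j) (p l0) m = dt (p i) (p j) (p l0) := by
        rw [hm]; simp only [dt, Pi.add_apply]; ring
      have h3 : dt (p j) (p l0) (p j) = 0 := by unfold dt; ring
      rw [h2, h3] at h1
      rcases mul_eq_zero.1 h1 with h4 | h4
      · rw [inv_eq_zero] at h4; exact hmn.ne' h4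
      · linarith)
    (fun e he hne => not_mem_arc_of_det (by
      change dt (p e.1) (p e.2) m ≠ 0
      exact ((hside e he).2 hne).ne')) H
  have hcn : 0 ≤ ‖toE c0‖ := norm_nonneg _
  obtain ⟨ε, hε0, hεδ⟩ : ∃ ε : ℝ, 0 < ε ∧ ε * ‖toE c0‖ < δ := by
    refine ⟨δ / (2 * (‖toE c0‖ + 1)), by positivity, ?_⟩
    rw [div_mul_eq_mul_div, div_lt_iff₀ (by positivity)]
    nlinarith
  have hball : ∀ t : ℝ, |t| = ε → toE (m + t • c0) ∈ Metric.ball (toE m) δ := by
    intro t ht
    rw [Metric.mem_ball, dist_eq_norm, toE_add, toE_smul, add_sub_cancel_left, norm_smul,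
      Real.norm_eq_abs, ht]
    exact hεδ
  have hdt : ∀ t : ℝ, dt (p i) (p j) (m + t • c0) = t * dt (p i) (p j) c0 := by
    intro t
    rw [dt_add, hDm, dt_smul, zero_add]
  have hplus := hloc _ (hball ε (abs_of_pos hε0))
  have hminus := hloc _ (hball (-ε) (by rw [abs_neg, abs_of_pos hε0]))
  have hp1 := hplus.2.2.2.1 (by
    change 0 < dt (p i) (p j) (m + ε • c0)
    rw [hdt]; exact mul_pos hε0 hD)
  have hm1 := hminus.2.2.2.2 (by
    change dt (p i) (p j) (m + (-ε) • c0) < 0
    rw [hdt]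
    have := mul_pos hε0 hD
    linarith)
  -- the value outside
  have hout0 : m + (-ε) • c0 ≠ 0 := by
    intro h
    have := hdt (-ε)
    rw [h, dt_zero] at this
    have := mul_pos hε0 hD
    linarith
  have hw : w = 0 := by
    have hq : 0 < ε * dt (p i) (p j) c0 := mul_pos hε0 hD
    obtain ⟨η, hη, hη2⟩ : ∃ η : ℝ, 0 < η ∧
        -(ε * dt (p i) (p j) c0) + η * ip g0 (m + (-ε) • c0) ≤ 0 := by
      refine ⟨ε * dt (p i) (p j) c0 / (1 + |ip g0 (m + (-ε) • c0)|), by positivity, ?_⟩
      have h1 := le_abs_self (ip g0 (m + (-ε) • c0))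
      have h2 := abs_nonneg (ip g0 (m + (-ε) • c0))
      have h3 : ε * dt (p i) (p j) c0 / (1 + |ip g0 (m + (-ε) • c0)|) *
          ip g0 (m + (-ε) • c0) ≤ ε * dt (p i) (p j) c0 := by
        rw [div_mul_eq_mul_div, div_le_iff₀ (by positivity)]
        nlinarith
      linarith
    have h1 := W_eq_zero hS hu hsd hH (y := crv (p i) (p j) + η • g0) hout0 (by
      intro l hl
      rw [ip_add_left, ip_smul_left, crv_ip]
      exact add_pos_of_nonneg_of_pos (side_nonneg hj hl) (mul_pos hη (hg0 l hl))) (by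
      rw [ip_add_left, ip_smul_left, crv_ip, hdt]
      linarith)
    rw [← hm1.2]
    exact h1.1
  have hc00 : c0 ≠ 0 := by
    intro h; rw [h, dt_zero] at hD; exact lt_irrefl _ hD
  -- the value inside
  have hseg : ∀ y ∈ segment ℝ (toE (m + ε • c0)) (toE c0), y ≠ 0 ∧ Off sd (fa p) (fb p) (nrm y) := by
    rintro y ⟨α, β, hα, hβ, hαβ, rfl⟩
    have hpos : ∀ e ∈ sd, 0 < dt (p e.1) (p e.2) (α • (m + ε • c0) + β • c0) := by
      intro e he
      have h1 := (hside e he).1
      have h2 := side_c0 hS ((hsd e).1 he)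
      rw [← hc0] at h2
      rw [dt_add, dt_smul, dt_smul, dt_add, dt_smul]
      have h3 : 0 < α * ε + β := by
        rcases hα.eq_or_lt with h | h
        · have : β = 1 := by linarith
          rw [← h, this]; norm_num
        · have := mul_pos h hε0
          linarith
      have h4 := mul_pos h3 h2
      have h5 := mul_nonneg hα h1
      nlinarith
    have he : α • toE (m + ε • c0) + β • toE c0 = toE (α • (m + ε • c0) + β • c0) := rfl
    rw [he]
    refine ⟨?_, fun e hes => not_mem_arc_of_det (by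
      change dt (p e.1) (p e.2) _ ≠ 0
      exact (hpos e hes).ne')⟩
    apply toE_ne
    intro h
    have := hpos _ hij
    rw [h, dt_zero] at this
    exact lt_irrefl _ this
  have hconst := hc.W_const (convex_segment (toE (m + ε • c0)) (toE c0)).isPreconnected
    (fun y hy => (hseg y hy).1) (fun y hy => (hseg y hy).2) (left_mem_segment ℝ _ _)
    (right_mem_segment ℝ _ _) H
  refine ⟨?_, (hseg _ (right_mem_segment ℝ _ _)).2⟩
  rw [← hconst, hp1.2, hw, zero_add]

/-- The area seen from the centre of the cone. -/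
theorem SA_cen (hS : ConvPos p S) (hu : ∀ i, nsq (p i) = 1)
    (hsd : ∀ e, e ∈ sd ↔ Side p S e.1 e.2) {y : V3} (hy : ∀ l ∈ S, 0 < ip y (p l)) :
    SA sd (fa p) (fb p) (nrm (toE (∑ l ∈ S, p l))) = SA sd (fa p) (fb p) (nrm (toE y)) := by
  have hc := chain_of hS hu hsd
  obtain ⟨i, hi⟩ : S.Nonempty := by
    rw [← Finset.card_pos]; have := hS.card; omega
  have hyc : 0 < ip y (∑ l ∈ S, p l) := by
    rw [ip_sum]
    exact Finset.sum_pos hy ⟨i, hi⟩
  have hy0 : y ≠ 0 := by
    rintro rfl
    have := hy i hi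
    simp [ip] at this
  have hyy : 0 < ip y y := by rw [ip_self]; exact nsq_pos hy0
  have hH := centre_of hsd hy0 hy
  have h1 : ∀ z ∈ segment ℝ (-toE (∑ l ∈ S, p l)) (-toE y), z ≠ 0 ∧
      Off sd (fa p) (fb p) (nrm z) := by
    rintro z ⟨α, β, hα, hβ, hαβ, rfl⟩
    have he : α • -toE (∑ l ∈ S, p l) + β • -toE y = toE (-(α • (∑ l ∈ S, p l) + β • y)) := by
      rw [toE_neg, toE_add, toE_smul, toE_smul, smul_neg, smul_neg, neg_add]
    rw [he]
    have h2 : ip y (-(α • (∑ l ∈ S, p l) + β • y)) < 0 := by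
      rw [ip_neg_right, ip_add_right, ip_smul_right, ip_smul_right]
      rcases hα.eq_or_lt with h | h
      · have : β = 1 := by linarith
        rw [← h, this]; linarith
      · have := mul_pos h hyc
        have := mul_nonneg hβ hyy.le
        linarith
    have h3 : -(α • (∑ l ∈ S, p l) + β • y) ≠ 0 := by
      intro h
      rw [h] at h2
      simp [ip] at h2
    refine ⟨toE_ne h3, hH.off ?_⟩
    rw [inner_nrm']
    exact mul_nonpos_of_nonneg_of_nonpos (by positivity)
      (mul_nonpos_of_nonneg_of_nonpos (by positivity) h2.le)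
  have h2 := hc.seg (fun z hz => (h1 z hz).1) (fun z hz => (h1 z hz).2)
  rw [nrm_neg, nrm_neg, neg_neg, neg_neg] at h2
  exact h2

end H74

open H74

/-- Row G7. -/
theorem g7 (g0 : ST_G0) (g2 : ST_G2) (g3 : ST_G3) : ST_G7 := by
  classical
  intro I K _ _ _ _ p h x hP
  have hu := hP.unit
  have hC := g0 I K p h x hP
  have hsd : ∀ k e, e ∈ sides p h x k ↔ Side p (actAt p h (x k)) e.1 e.2 := by
    intro k e
    unfold sides
    rw [Finset.mem_filter]
    exact ⟨fun h => h.2, fun h => ⟨Finset.mem_univ _, h⟩⟩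
  have hact : ∀ k i, i ∈ actAt p h (x k) ↔ ip (p i) (x k) = h i := by
    intro k i
    unfold actAt
    rw [Finset.mem_filter]
    exact ⟨fun h => h.2, fun h => ⟨Finset.mem_univ _, h⟩⟩
  have hxp : ∀ k, ∀ l ∈ actAt p h (x k), 0 < ip (x k) (p l) := by
    intro k l hl
    rw [ip_comm, (hact k l).1 hl]
    exact hP.hpos l
  -- a vertex
  obtain ⟨k0⟩ : Nonempty K := by
    obtain ⟨c, -, hc⟩ := hP.bdd
    obtain ⟨i, -⟩ := hc 0
    obtain ⟨k, -⟩ := g2 I K p h x hP 1 one_pos i
    exact ⟨k⟩
  set c0 : V3 := ∑ l ∈ actAt p h (x k0), p l with hc0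
  have hcentre : ∀ k, Centre (sides p h x k) (fa p) (fb p) (nrm (toE (x k))) := by
    intro k
    refine centre_of (hsd k) ?_ (hxp k)
    intro h0
    obtain ⟨l, hl⟩ : (actAt p h (x k)).Nonempty := by
      rw [← Finset.card_pos]; have := (hC k).card; omega
    have := hxp k l hl
    rw [h0] at this
    simp [ip] at this
  have hone := W_eq_one (hC k0) hu (hsd k0) (hcentre k0)
  have hc00 : c0 ≠ 0 := by
    intro h0
    obtain ⟨l, hl⟩ : (actAt p h (x k0)).Nonempty := by
      rw [← Finset.card_pos]; have := (hC k0).card; omega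
    have h1 : 0 < ip (x k0) c0 := by
      rw [hc0, ip_sum]
      exact Finset.sum_pos (hxp k0) ⟨l, hl⟩
    rw [h0] at h1
    simp [ip] at h1
  have hzero : ∀ k, k ≠ k0 → W (sides p h x k) (fa p) (fb p) (nrm (toE (x k))) (nrm (toE c0)) = 0 ∧
      Off (sides p h x k) (fa p) (fb p) (nrm (toE c0)) := by
    intro k hk
    -- the vertex k0 is the unique maximiser
    have hmax : 0 < ip (x k0) c0 - ip (x k) c0 := by
      rw [hc0, ip_sum, ip_sum, ← Finset.sum_sub_distrib]
      have hnn : ∀ l ∈ actAt p h (x k0), 0 ≤ ip (x k0) (p l) - ip (x k) (p l) := by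
        intro l hl
        have h1 := (hact k0 l).1 hl
        have h2 := hP.mem k l
        rw [ip_comm (x k0), ip_comm (x k), h1]
        linarith
      refine lt_of_le_of_ne (Finset.sum_nonneg hnn) (fun h0 => ?_)
      have h1 := (Finset.sum_eq_zero_iff_of_nonneg hnn).1 h0.symm
      obtain ⟨i, hi, j, hj, l, hl, hd⟩ := hP.span k0
      have h2 : x k0 - x k = 0 := by
        have h3 := cramer (crv (p j) (p l)) (crv (p l) (p i)) (crv (p i) (p j)) (x k0 - x k)
        have e1 : ∀ m ∈ actAt p h (x k0), ip (p m) (x k0 - x k) = 0 := by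
          intro m hm
          have := h1 m hm
          rw [ip_sub_right, ip_comm (p m), ip_comm (p m)]
          exact this
        have h4 : dt (p i) (p j) (p l) • (x k0 - x k) =
            ip (p i) (x k0 - x k) • crv (p j) (p l) + ip (p j) (x k0 - x k) • crv (p l) (p i) +
              ip (p l) (x k0 - x k) • crv (p i) (p j) := by
          funext n
          simp only [Pi.smul_apply, Pi.add_apply, smul_eq_mul, ip_eq, dt, crv]
          fin_cases n <;> simp <;> ring
        rw [e1 i hi, e1 j hj, e1 l hl, zero_smul, zero_smul, zero_smul, add_zero, add_zero] at h4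
        exact (smul_eq_zero.1 h4).resolve_left hd
      exact hk (hP.inj (sub_eq_zero.1 h2).symm)
    obtain ⟨η, hη, hη2⟩ : ∃ η : ℝ, 0 < η ∧
        -(ip (x k0) c0 - ip (x k) c0) + η * ip (x k) c0 ≤ 0 := by
      refine ⟨(ip (x k0) c0 - ip (x k) c0) / (1 + |ip (x k) c0|), by positivity, ?_⟩
      have h1 := le_abs_self (ip (x k) c0)
      have h2 := abs_nonneg (ip (x k) c0)
      have h3 : (ip (x k0) c0 - ip (x k) c0) / (1 + |ip (x k) c0|) * ip (x k) c0 ≤
          ip (x k0) c0 - ip (x k) c0 := by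
        rw [div_mul_eq_mul_div, div_le_iff₀ (by positivity)]
        nlinarith
      linarith
    refine W_eq_zero (hC k) hu (hsd k) (hcentre k) (y := x k - x k0 + η • x k) hc00 ?_ ?_
    · intro l hl
      rw [ip_add_left, ip_sub_left, ip_smul_left]
      have h1 := (hact k l).1 hl
      have h2 := hP.mem k0 l
      have h3 := mul_pos hη (hxp k l hl)
      rw [ip_comm (x k0), ip_comm (x k), h1]
      rw [ip_comm (x k), h1] at h3
      linarith
    · rw [ip_add_left, ip_sub_left, ip_smul_left]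
      linarith
  -- off everything
  have hoff : ∀ k, Off (sides p h x k) (fa p) (fb p) (nrm (toE c0)) := by
    intro k
    by_cases hk : k = k0
    · rw [hk]; exact hone.2
    · exact (hzero k hk).2
  have hsum : ∑ k, SA (sides p h x k) (fa p) (fb p) (-nrm (toE c0)) = 0 := by
    have hanti : ∀ k, ∀ e ∈ sides p h x k, Om (-nrm (toE c0)) (toE (p e.2)) (toE (p e.1)) =
        - Om (-nrm (toE c0)) (toE (p e.1)) (toE (p e.2)) := by
      intro k e he
      have h1 := ((chain_of (hC k) hu (hsd k)).slit_iff (norm_nrm (toE_ne hc00))).2 (hoff k) e he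
      exact Om_swap h1
    have huniq : ∀ a : (_ : K) × I × I, a ∈ Finset.univ.sigma (sides p h x) →
        ∃ k', (a.2.2, a.2.1) ∈ sides p h x k' ∧ ∀ y, (a.2.2, a.2.1) ∈ sides p h x y → y = k' := by
      intro a ha
      rw [Finset.mem_sigma] at ha
      obtain ⟨k', h1, h2⟩ := g3 I K p h x hP a.1 a.2 ha.2
      exact ⟨k', h1, h2⟩
    unfold SA
    rw [Finset.sum_sigma']
    refine Finset.sum_involution (fun a ha => ⟨(huniq a ha).choose, (a.2.2, a.2.1)⟩)
      (fun a ha => ?_) (fun a ha _ => ?_) (fun a ha => ?_) (fun a ha => ?_)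
    · rw [Finset.mem_sigma] at ha
      have := hanti a.1 a.2 ha.2
      change Om (-nrm (toE c0)) (toE (p a.2.1)) (toE (p a.2.2)) +
        Om (-nrm (toE c0)) (toE (p a.2.2)) (toE (p a.2.1)) = 0
      rw [this]; ring
    · rw [Finset.mem_sigma] at ha
      intro h0
      have h1 := (hsd a.1 a.2).1 ha.2
      have h2 : (a.2.2, a.2.1) = a.2 := by
        have := congrArg (fun b : (_ : K) × I × I => b.2) h0
        exact this
      exact h1.2.2.1 (congrArg Prod.snd h2)
    · rw [Finset.mem_sigma]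
      exact ⟨Finset.mem_univ _, (huniq a ha).choose_spec.1⟩
    · have hs := (huniq _ (Finset.mem_sigma.2 ⟨Finset.mem_univ _,
        (huniq a ha).choose_spec.1⟩ : (⟨(huniq a ha).choose, (a.2.2, a.2.1)⟩ :
          (_ : K) × I × I) ∈ Finset.univ.sigma (sides p h x))).choose_spec
      rw [Finset.mem_sigma] at ha
      have h1 := hs.2 a.1 ha.2
      exact Sigma.ext h1.symm (heq_of_eq rfl)
  have hk : ∀ k, SA (sides p h x k) (fa p) (fb p) (nrm (toE (x k))) =
      4 * Real.pi * W (sides p h x k) (fa p) (fb p) (nrm (toE (x k))) (nrm (toE c0)) +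
        SA (sides p h x k) (fa p) (fb p) (-nrm (toE c0)) := by
    intro k
    unfold W
    have : (4 * Real.pi) ≠ 0 := by positivity
    field_simp
    ring
  have hgoal : ∀ k, ∑ e ∈ sides p h x k, Omv (cen p h x k) (p e.1) (p e.2) =
      SA (sides p h x k) (fa p) (fb p) (nrm (toE (x k))) := by
    intro k
    rw [← SA_cen (hC k) hu (hsd k) (hxp k)]
    unfold SA Omv
    refine Finset.sum_congr rfl fun e _ => ?_
    have h1 : toE (cen p h x k) = nrm (toE (∑ l ∈ actAt p h (x k), p l)) := by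
      unfold cen nrm
      rw [toE_smul, toE_norm_eq]
    rw [h1]
    rfl
  rw [Finset.sum_congr rfl fun k _ => (hgoal k).trans (hk k), Finset.sum_add_distrib, hsum,
    add_zero, ← Finset.mul_sum, Finset.sum_eq_single k0 (fun k _ hk => (hzero k hk).1)
      (fun h => absurd (Finset.mem_univ _) h), hone.1, mul_one]

end N9
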