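import Pool.Agent.Helper74.N9.Sec
import Pool.Agent.Helper74.N9.Reg

/-!
MP_9b91d1_co, row FL of the sheet Deg2: sorted meridians of a fan.
-/

open scoped RealInnerProductSpace Topology
open Pool.Agent.Helper30.N9 Pool.Agent.Helper30.N9.PlaneGraph N9Ha N9Sec

namespace N9Fl

/-! ### Directions -/

/-- The direction (longitude) of a point. -/
noncomputable def dirv (a x : E3) : E3 := nrm (x - ⟪a, x⟫ • a)

theorem perp_ne {a x : E3} (ha : ‖a‖ = 1) (hx : ‖x‖ = 1) (h1 : x ≠ a) (h2 : x ≠ -a) :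
    x - ⟪a, x⟫ • a ≠ 0 := by
  intro h
  have h3 : x = ⟪a, x⟫ • a := sub_eq_zero.1 h
  have h4 : |⟪a, x⟫| = 1 := by
    have := congrArg norm h3
    rw [norm_smul, hx, ha, mul_one, Real.norm_eq_abs] at this
    exact this.symm
  rcases eq_or_eq_neg_of_abs_eq h4 with h5 | h5
  · rw [h5, one_smul] at h3; exact h1 h3
  · rw [h5, neg_one_smul] at h3; exact h2 h3

theorem dirv_spec {a x : E3} (ha : ‖a‖ = 1) (hx : ‖x‖ = 1) (h1 : x ≠ a) (h2 : x ≠ -a) :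
    ‖dirv a x‖ = 1 ∧ ⟪a, dirv a x⟫ = 0 ∧ ∃ c : ℝ, 0 < c ∧ x = c • dirv a x + ⟪a, x⟫ • a := by
  have h3 := perp_ne ha hx h1 h2
  have h4 : 0 < ‖x - ⟪a, x⟫ • a‖ := norm_pos_iff.2 h3
  refine ⟨norm_nrm h3, ?_, ‖x - ⟪a, x⟫ • a‖, h4, ?_⟩
  · unfold dirv
    rw [inner_nrm, inner_sub_right, real_inner_smul_right, inner_self_one ha]
    ring
  · unfold dirv nrm
    rw [smul_smul, mul_inv_cancel₀ h4.ne', one_smul]
    abel

theorem dirv_unique {a x ρ : E3} (ha : ‖a‖ = 1) (hx : ‖x‖ = 1) (h1 : x ≠ a) (h2 : x ≠ -a)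
    (hρ : ‖ρ‖ = 1) {c : ℝ} (hc : 0 ≤ c) (hxc : x = c • ρ + ⟪a, x⟫ • a) :
    dirv a x = ρ ∧ 0 < c := by
  have h3 := perp_ne ha hx h1 h2
  have h4 : x - ⟪a, x⟫ • a = c • ρ := by
    conv_lhs => rw [hxc]
    have e : ⟪a, c • ρ + ⟪a, x⟫ • a⟫ = ⟪a, x⟫ := by rw [← hxc]
    rw [e]; abel
  have hc' : 0 < c := by
    rcases hc.eq_or_lt with h5 | h5
    · rw [← h5, zero_smul] at h4; exact absurd h4 h3
    · exact h5
  refine ⟨?_, hc'⟩
  unfold dirv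
  rw [h4, nrm_smul hc', nrm_unit hρ]

theorem crs_frame (a r : E3) (c1 z1 c2 z2 : ℝ) :
    crs (c1 • r + z1 • a) (c2 • r + z2 • a) = (z1 * c2 - c1 * z2) • crs a r := by
  ext i
  fin_cases i <;> simp [crs] <;> ring

theorem kap_aux {c1 z1 c2 z2 : ℝ} (hc1 : 0 ≤ c1) (hc2 : 0 ≤ c2) (h1 : c1 ^ 2 + z1 ^ 2 = 1)
    (h2 : c2 ^ 2 + z2 ^ 2 = 1) (hz : z2 ≤ z1) : 0 ≤ z1 * c2 - c1 * z2 := by
  rcases le_or_gt 0 z2 with h3 | h3
  · have h4 : c1 ≤ c2 := by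
      by_contra h5
      rw [not_le] at h5
      nlinarith
    nlinarith
  · rcases le_or_gt 0 z1 with h4 | h4
    · have := mul_nonneg h4 hc2
      have := mul_nonneg hc1 (neg_nonneg.2 h3.le)
      linarith
    · have h5 : c2 ≤ c1 := by
        by_contra h5
        rw [not_le] at h5
        nlinarith
      nlinarith

theorem unit_frame {a r : E3} (ha : ‖a‖ = 1) (hr : ‖r‖ = 1) (har : ⟪a, r⟫ = 0) {c z : ℝ}
    (hx : ‖c • r + z • a‖ = 1) : c ^ 2 + z ^ 2 = 1 := by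
  have h1 := inner_self_one hx
  rw [inner_add_left, inner_add_right, inner_add_right, real_inner_smul_left,
    real_inner_smul_left, real_inner_smul_left, real_inner_smul_left, real_inner_smul_right,
    real_inner_smul_right, real_inner_smul_right, real_inner_smul_right, inner_self_one ha,
    inner_self_one hr, har, real_inner_comm a r, har] at h1
  linarith

theorem kap_sign {a r x y : E3} (ha : ‖a‖ = 1) (hr : ‖r‖ = 1) (har : ⟪a, r⟫ = 0)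
    (hx : ‖x‖ = 1) (hy : ‖y‖ = 1) (hxr : OnR a r x) (hyr : OnR a r y) (hne : x ≠ y)
    (hnn : x ≠ -y) : ∃ κ : ℝ, κ ≠ 0 ∧ crs x y = κ • crs a r ∧
      (0 < κ ↔ ⟪a, y⟫ < ⟪a, x⟫) ∧ (κ < 0 ↔ ⟪a, x⟫ < ⟪a, y⟫) := by
  obtain ⟨c1, hc1, e1⟩ := hxr
  obtain ⟨c2, hc2, e2⟩ := hyr
  obtain ⟨z1, hz1⟩ : ∃ z, z = ⟪a, x⟫ := ⟨_, rfl⟩
  obtain ⟨z2, hz2⟩ : ∃ z, z = ⟪a, y⟫ := ⟨_, rfl⟩
  rw [← hz1] at e1
  rw [← hz2] at e2
  have u1 : c1 ^ 2 + z1 ^ 2 = 1 := unit_frame ha hr har (by rw [← e1]; exact hx)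
  have u2 : c2 ^ 2 + z2 ^ 2 = 1 := unit_frame ha hr har (by rw [← e2]; exact hy)
  have hcr : crs x y = (z1 * c2 - c1 * z2) • crs a r := by
    rw [e1, e2, crs_frame]
  have hk0 : z1 * c2 - c1 * z2 ≠ 0 := by
    intro h0
    have := crs_pos hx hy hne hnn
    rw [hcr, h0, zero_smul, inner_zero_left] at this
    exact lt_irrefl _ this
  have k1 : z2 ≤ z1 → 0 < z1 * c2 - c1 * z2 := fun h =>
    lt_of_le_of_ne (kap_aux hc1 hc2 u1 u2 h) hk0.symm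
  have k2 : z1 ≤ z2 → z1 * c2 - c1 * z2 < 0 := fun h => by
    have h3 := kap_aux hc2 hc1 u2 u1 h
    refine lt_of_le_of_ne (by linarith) hk0
  refine ⟨z1 * c2 - c1 * z2, hk0, hcr, ?_, ?_⟩
  · rw [← hz1, ← hz2]
    constructor
    · intro h
      by_contra h'
      have := k2 (not_lt.1 h')
      linarith
    · intro h; exact k1 h.le
  · rw [← hz1, ← hz2]
    constructor
    · intro h
      by_contra h'
      have := k1 (not_lt.1 h')
      linarith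
    · intro h; exact k2 h.le

/-! ### Darts of a fan -/

variable {V : Type} [Fintype V] [DecidableEq V] {M : PlaneGraph V} {L : Type} {p : V → E3}
  {h : M.Face → E3} {a : E3} {l : M.Face → L} {s t : V}

theorem E0_symm {d : M.G.Dart} (hd : M.E0 l d) : M.E0 l d.symm := by
  unfold PlaneGraph.E0 at hd ⊢
  rw [SimpleGraph.Dart.symm_symm]
  exact hd.symm

theorem vertex_arc (hS : M.Std p h) {v : V} {d : M.G.Dart}
    (hv : p v ∈ arc (p d.fst) (p d.snd)) : v = d.fst ∨ v = d.snd := by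
  by_contra hcon
  obtain ⟨e, he, -, -⟩ := exists_third hS.c3 v d d
  have hve : v ∈ e.edge := by
    have : e.edge = s(e.fst, e.snd) := rfl
    rw [this, Sym2.mem_iff]
    exact Or.inl he.symm
  have hvd : v ∉ d.edge := fun hm => hcon (mem_edge hm)
  have hne : d.edge ≠ e.edge := fun h' => hvd (h' ▸ hve)
  obtain ⟨v', h1, -, h3⟩ := hS.inc.embed d e hne (p v) hv (by
    rw [he]; exact left_mem_arc (hS.inc.unit v))
  rw [← hS.inc.inj h3] at h1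
  exact hvd h1

theorem ne_pole (hS : M.Std p h) (hF : M.Fan p a l s t) {v : V} (h1 : v ≠ s) (h2 : v ≠ t) :
    p v ≠ a ∧ p v ≠ -a :=
  ⟨fun h => h1 (hS.inc.inj (h.trans hF.ps.symm)), fun h => h2 (hS.inc.inj (h.trans hF.pt.symm))⟩

theorem onR_pole {ρ : E3} (ha : ‖a‖ = 1) : OnR a ρ a ∧ OnR a ρ (-a) := by
  constructor
  · refine ⟨0, le_rfl, ?_⟩
    rw [inner_self_one ha, zero_smul, one_smul, zero_add]
  · refine ⟨0, le_rfl, ?_⟩
    rw [inner_neg_right, inner_self_one ha, zero_smul, neg_one_smul, zero_add]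

theorem half1 (hS : M.Std p h) (hF : M.Fan p a l s t) {d : M.G.Dart} (hd : M.E0 l d)
    (h1 : d.fst ≠ s) (h2 : d.fst ≠ t) : OnR a (dirv a (p d.fst)) (p d.snd) := by
  have ha := hF.ua
  by_cases hs : d.snd = s
  · rw [hs, hF.ps]; exact (onR_pole ha).1
  by_cases ht : d.snd = t
  · rw [ht, hF.pt]; exact (onR_pole ha).2
  obtain ⟨n1, n1'⟩ := ne_pole hS hF h1 h2
  obtain ⟨n2, n2'⟩ := ne_pole hS hF hs ht
  obtain ⟨q1, q2, c1, hc1, e1⟩ := dirv_spec ha (hS.inc.unit _) n1 n1'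
  obtain ⟨w1, w2, c2, hc2, e2⟩ := dirv_spec ha (hS.inc.unit _) n2 n2'
  obtain ⟨ρ, hρ⟩ : ∃ ρ, ρ = dirv a (p d.fst) := ⟨_, rfl⟩
  obtain ⟨σ, hσ⟩ : ∃ σ, σ = dirv a (p d.snd) := ⟨_, rfl⟩
  obtain ⟨z1, hz1⟩ : ∃ z, z = ⟪a, p d.fst⟫ := ⟨_, rfl⟩
  obtain ⟨z2, hz2⟩ : ∃ z, z = ⟪a, p d.snd⟫ := ⟨_, rfl⟩
  rw [← hρ] at q1 q2 ⊢
  rw [← hσ] at w1 w2
  rw [← hρ, ← hz1] at e1
  rw [← hσ, ← hz2] at e2
  have hdet : det3 a ρ σ = 0 := by
    have h3 := hF.mer d hd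
    have h4 : det3 a (p d.fst) (p d.snd) = c1 * c2 * det3 a ρ σ := by
      rw [e1, e2]
      simp only [det3, PiLp.add_apply, PiLp.smul_apply, smul_eq_mul]; ring
    rw [h4] at h3
    exact (mul_eq_zero.1 h3).resolve_left (mul_ne_zero hc1.ne' hc2.ne')
  have hex := H93.expand ha q1 q2 w2
  rw [hdet, zero_smul, add_zero] at hex
  have h4 : |⟪ρ, σ⟫| = 1 := by
    have := congrArg norm hex
    rw [norm_smul, w1, q1, mul_one, Real.norm_eq_abs] at this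
    exact this.symm
  rcases eq_or_eq_neg_of_abs_eq h4 with h5 | h5
  · rw [h5, one_smul] at hex
    rw [hex] at e2
    exact ⟨c2, hc2.le, by rw [← hz2]; exact e2⟩
  · exfalso
    rw [h5, neg_one_smul] at hex
    rw [hex] at e2
    have hm : c2 • p d.fst + c1 • p d.snd = (c2 * z1 + c1 * z2) • a := by
      rw [e1, e2]; module
    rcases lt_trichotomy (c2 * z1 + c1 * z2) 0 with h6 | h6 | h6
    · have h7 : p t ∈ arc (p d.fst) (p d.snd) := by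
        refine ⟨hS.inc.unit t, c2 / (-(c2 * z1 + c1 * z2)), c1 / (-(c2 * z1 + c1 * z2)),
          div_nonneg hc2.le (by linarith), div_nonneg hc1.le (by linarith), ?_⟩
        rw [hF.pt]
        have h8 : -a = (-(c2 * z1 + c1 * z2))⁻¹ • ((c2 * z1 + c1 * z2) • a) := by
          rw [smul_smul, inv_neg, neg_mul, inv_mul_cancel₀ h6.ne, neg_one_smul]
        rw [h8, ← hm, smul_add, smul_smul, smul_smul, div_eq_inv_mul, div_eq_inv_mul]
      rcases vertex_arc hS h7 with h8 | h8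
      · exact h2 h8.symm
      · exact ht h8.symm
    · rw [h6, zero_smul] at hm
      have h7 : c2 • p d.fst = -(c1 • p d.snd) := eq_neg_of_add_eq_zero_left hm
      have h8 : c2 = c1 := by
        have := congrArg norm h7
        rw [norm_neg, norm_smul, norm_smul, hS.inc.unit, hS.inc.unit, mul_one, mul_one,
          Real.norm_eq_abs, Real.norm_eq_abs, abs_of_pos hc1, abs_of_pos hc2] at this
        exact this
      rw [h8, ← smul_neg] at h7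
      exact hS.inc.ne_neg d (smul_right_injective E3 hc1.ne' h7)
    · have h7 : p s ∈ arc (p d.fst) (p d.snd) := by
        refine ⟨hS.inc.unit s, c2 / (c2 * z1 + c1 * z2), c1 / (c2 * z1 + c1 * z2),
          div_nonneg hc2.le h6.le, div_nonneg hc1.le h6.le, ?_⟩
        rw [hF.ps]
        have h8 : a = (c2 * z1 + c1 * z2)⁻¹ • ((c2 * z1 + c1 * z2) • a) := by
          rw [smul_smul, inv_mul_cancel₀ h6.ne', one_smul]
        conv_lhs => rw [h8, ← hm, smul_add, smul_smul, smul_smul]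
        rw [div_eq_inv_mul, div_eq_inv_mul]
      rcases vertex_arc hS h7 with h8 | h8
      · exact h1 h8.symm
      · exact hs h8.symm

/-- Structure of a dart of the fan. -/
theorem dart_struct (hS : M.Std p h) (hF : M.Fan p a l s t) {d : M.G.Dart} (hd : M.E0 l d) :
    ∃ ρ : E3, ‖ρ‖ = 1 ∧ ⟪a, ρ⟫ = 0 ∧ (∃ v, M.OnE l v ∧ v ≠ s ∧ v ≠ t ∧ dirv a (p v) = ρ) ∧
      OnR a ρ (p d.fst) ∧ OnR a ρ (p d.snd) ∧ ∃ κ : ℝ, κ ≠ 0 ∧
      crs (p d.fst) (p d.snd) = κ • crs a ρ ∧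
      (0 < κ ↔ ⟪a, p d.snd⟫ < ⟪a, p d.fst⟫) ∧ (κ < 0 ↔ ⟪a, p d.fst⟫ < ⟪a, p d.snd⟫) := by
  have ha := hF.ua
  have hends : ∃ ρ : E3, ‖ρ‖ = 1 ∧ ⟪a, ρ⟫ = 0 ∧
      (∃ v, M.OnE l v ∧ v ≠ s ∧ v ≠ t ∧ dirv a (p v) = ρ) ∧
      OnR a ρ (p d.fst) ∧ OnR a ρ (p d.snd) := by
    by_cases h12 : d.fst ≠ s ∧ d.fst ≠ t
    · obtain ⟨h1, h2⟩ := h12
      obtain ⟨n1, n1'⟩ := ne_pole hS hF h1 h2
      obtain ⟨q1, q2, c1, hc1, e1⟩ := dirv_spec ha (hS.inc.unit _) n1 n1'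
      exact ⟨_, q1, q2, ⟨d.fst, ⟨d, rfl, hd⟩, h1, h2, rfl⟩, ⟨c1, hc1.le, e1⟩,
        half1 hS hF hd h1 h2⟩
    · have hfst : d.fst = s ∨ d.fst = t := by tauto
      have hsnd : d.snd ≠ s ∧ d.snd ≠ t := by
        constructor
        · intro h2
          rcases hfst with h1 | h1
          · exact d.adj.ne (h1.trans h2.symm)
          · apply hS.inc.ne_neg d
            rw [h1, h2, hF.ps, hF.pt]
        · intro h2
          rcases hfst with h1 | h1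
          · apply hS.inc.ne_neg d
            rw [h1, h2, hF.ps, hF.pt, neg_neg]
          · exact d.adj.ne (h1.trans h2.symm)
      obtain ⟨n1, n1'⟩ := ne_pole hS hF hsnd.1 hsnd.2
      obtain ⟨q1, q2, c1, hc1, e1⟩ := dirv_spec ha (hS.inc.unit _) n1 n1'
      exact ⟨_, q1, q2, ⟨d.snd, ⟨d.symm, rfl, E0_symm hd⟩, hsnd.1, hsnd.2, rfl⟩,
        half1 hS hF (d := d.symm) (E0_symm hd) hsnd.1 hsnd.2, ⟨c1, hc1.le, e1⟩⟩
  obtain ⟨ρ, h1, h2, h3, h4, h5⟩ := hends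
  exact ⟨ρ, h1, h2, h3, h4, h5, kap_sign ha h1 h2 (hS.inc.unit _) (hS.inc.unit _) h4 h5
    (hS.inc.q_ne d) (hS.inc.ne_neg d)⟩

theorem crs_aux {a r : E3} (c z : ℝ) : crs (c • r + z • a) a = (-c) • crs a r := by
  have := crs_frame a r c z 0 1
  rw [zero_smul, zero_add, one_smul] at this
  rw [this]; congr 1; ring

theorem crs_neg_swap (x y : E3) : crs x y = - crs y x := by
  ext i
  fin_cases i <;> simp [crs] <;> ring

theorem up_dart (hS : M.Std p h) (hF : M.Fan p a l s t) {v : V} (hv : M.OnE l v)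
    (h1 : v ≠ s) (h2 : v ≠ t) : ∃ e, M.E0 l e ∧ e.fst = v ∧ OnR a (dirv a (p v)) (p e.snd) ∧
      (∃ κ : ℝ, κ < 0 ∧ crs (p e.fst) (p e.snd) = κ • crs a (dirv a (p v))) ∧
      ⟪a, p v⟫ < ⟪a, p e.snd⟫ := by
  have ha := hF.ua
  obtain ⟨d, hdv, hd⟩ := hv
  obtain ⟨e, he, hev, c, hc, hcr⟩ := hF.up d hd (by rw [hdv]; exact h1) (by rw [hdv]; exact h2)
  rw [hdv] at hev
  have h1e : e.fst ≠ s := by rw [hev]; exact h1
  have h2e : e.fst ≠ t := by rw [hev]; exact h2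
  obtain ⟨n1, n1'⟩ := ne_pole hS hF h1e h2e
  obtain ⟨q1, q2, c1, hc1, e1⟩ := dirv_spec ha (hS.inc.unit _) n1 n1'
  have hR := half1 hS hF he h1e h2e
  obtain ⟨κ, hκ0, hκ, k1, k2⟩ := kap_sign ha q1 q2 (hS.inc.unit _) (hS.inc.unit _)
    ⟨c1, hc1.le, e1⟩ hR (hS.inc.q_ne e) (hS.inc.ne_neg e)
  have h3 : crs (p e.fst) a = (-c1) • crs a (dirv a (p e.fst)) := by
    conv_lhs => rw [e1]
    exact crs_aux _ _
  have h4 : κ = c * (-c1) := by
    rw [h3, smul_smul] at hcr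
    have h5 : (κ - c * (-c1)) • crs a (dirv a (p e.fst)) = 0 := by
      rw [sub_smul, ← hκ, hcr, sub_self]
    have h6 : crs a (dirv a (p e.fst)) ≠ 0 := by
      intro h0
      have := det3_frame1 ha q1 q2
      rw [h0] at this
      simp [det3] at this
    have := (smul_eq_zero.1 h5).resolve_right h6
    linarith
  have hneg : κ < 0 := by rw [h4]; nlinarith
  refine ⟨e, he, hev, ?_, ⟨κ, hneg, ?_⟩, ?_⟩
  · rw [← hev]; exact hR
  · rw [← hev]; exact hκ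
  · rw [← hev]; exact k2.1 hneg

theorem dn_dart (hS : M.Std p h) (hF : M.Fan p a l s t) {v : V} (hv : M.OnE l v)
    (h1 : v ≠ s) (h2 : v ≠ t) : ∃ e, M.E0 l e ∧ e.fst = v ∧ OnR a (dirv a (p v)) (p e.snd) ∧
      (∃ κ : ℝ, 0 < κ ∧ crs (p e.fst) (p e.snd) = κ • crs a (dirv a (p v))) ∧
      ⟪a, p e.snd⟫ < ⟪a, p v⟫ := by
  have ha := hF.ua
  obtain ⟨d, hdv, hd⟩ := hv
  obtain ⟨e, he, hev, c, hc, hcr⟩ := hF.dn d hd (by rw [hdv]; exact h1) (by rw [hdv]; exact h2)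
  rw [hdv] at hev
  have h1e : e.fst ≠ s := by rw [hev]; exact h1
  have h2e : e.fst ≠ t := by rw [hev]; exact h2
  obtain ⟨n1, n1'⟩ := ne_pole hS hF h1e h2e
  obtain ⟨q1, q2, c1, hc1, e1⟩ := dirv_spec ha (hS.inc.unit _) n1 n1'
  have hR := half1 hS hF he h1e h2e
  obtain ⟨κ, hκ0, hκ, k1, k2⟩ := kap_sign ha q1 q2 (hS.inc.unit _) (hS.inc.unit _)
    ⟨c1, hc1.le, e1⟩ hR (hS.inc.q_ne e) (hS.inc.ne_neg e)
  have h3 : crs a (p e.fst) = c1 • crs a (dirv a (p e.fst)) := by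
    rw [crs_neg_swap]
    conv_lhs => rw [e1]
    rw [crs_aux, neg_smul, neg_neg]
  have h4 : κ = c * c1 := by
    rw [h3, smul_smul] at hcr
    have h5 : (κ - c * c1) • crs a (dirv a (p e.fst)) = 0 := by
      rw [sub_smul, ← hκ, hcr, sub_self]
    have h6 : crs a (dirv a (p e.fst)) ≠ 0 := by
      intro h0
      have := det3_frame1 ha q1 q2
      rw [h0] at this
      simp [det3] at this
    have := (smul_eq_zero.1 h5).resolve_right h6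
    linarith
  have hpos : 0 < κ := by rw [h4]; positivity
  refine ⟨e, he, hev, ?_, ⟨κ, hpos, ?_⟩, ?_⟩
  · rw [← hev]; exact hR
  · rw [← hev]; exact hκ
  · rw [← hev]; exact k1.1 hpos

/-! ### Points next to a dart -/

/-- Points to the left of a dart near an interior point of its arc. -/
theorem left_Reg' (hG : Good M p h) (d : M.G.Dart) {x : E3}
    (hx : x ∈ arc (p d.fst) (p d.snd)) (hx1 : x ≠ p d.fst) (hx2 : x ≠ p d.snd) {U : Set E3}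
    (hU : U ∈ 𝓝 x) : ∃ y ∈ U, y ∈ Reg M p h (M.fc d) ∧ 0 < det3 (p d.fst) (p d.snd) y := by
  have hx0 := ne_zero_of_unit hx.1
  have hnx := nrm_unit hx.1
  have ev := eventually_off_others hG.inC (d := d) hx0 (by rw [hnx]; exact hx)
    (by rw [hnx]; exact hx1) (by rw [hnx]; exact hx2)
  obtain ⟨δ, hδ, hloc⟩ := edge_local hG.per hG.c3 hG.inC hG.cen hx hx1 hx2
  obtain ⟨τ, hτ, h1, h2, h3⟩ := exists_left (n := crs (p d.fst) (p d.snd))
    (Filter.inter_mem hU (ev.and (Metric.ball_mem_nhds x hδ)))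
  have hdx : det3 (p d.fst) (p d.snd) x = 0 := by
    by_contra hcon
    have := not_mem_arc_of_det hcon
    rw [hnx] at this
    exact this hx
  have hcp := crs_pos (hG.inC.unit d.fst) (hG.inC.unit d.snd) (hG.inC.q_ne d)
    (hG.inC.ne_neg d)
  have hd : 0 < det3 (p d.fst) (p d.snd) (x + τ • crs (p d.fst) (p d.snd)) := by
    rw [det3_add_right, det3_smul_right, det3_crs, hdx]
    have := mul_pos hτ hcp
    linarith
  obtain ⟨p0, p1, p2, p3⟩ := hloc _ h3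
  exact ⟨_, h1, ⟨p0, h2 hd.ne', p2 hd⟩, hd⟩

/-- An interior point of a meridional arc lies in every sector around the meridian. -/
theorem mid_mer {a r0 : E3} (ha : ‖a‖ = 1) (hr0 : ‖r0‖ = 1) (h0 : ⟪a, r0⟫ = 0) {θ : ℝ}
    {x y : E3} (hx : ‖x‖ = 1) (hy : ‖y‖ = 1) (hne : x ≠ y) (hnn : x ≠ -y)
    (h1 : OnR a (dr a r0 θ) x) (h2 : OnR a (dr a r0 θ) y) {δ : ℝ} (hδ : 0 < δ) :
    ∃ m, m ∈ arc x y ∧ m ≠ x ∧ m ≠ y ∧ m ∈ Sec a r0 (θ - δ) (θ + δ) := by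
  obtain ⟨q0, q1, q2, q3⟩ := pt_props hx hy hne hnn one_pos
  refine ⟨_, q1, q2, q3, ?_⟩
  obtain ⟨c1, hc1, e1⟩ := h1
  obtain ⟨c2, hc2, e2⟩ := h2
  have hc : 0 < c1 + c2 := by
    rcases (add_nonneg hc1 hc2).eq_or_lt with h3 | h3
    · exfalso
      have h4 : c1 = 0 := by linarith
      have h5 : c2 = 0 := by linarith
      have h6 := crs_pos hx hy hne hnn
      rw [h4, zero_smul, zero_add] at e1
      rw [h5, zero_smul, zero_add] at e2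
      have h7 : crs x y = 0 := by
        have := crs_frame a (0 : E3) 0 ⟪a, x⟫ 0 ⟪a, y⟫
        rw [zero_smul, zero_add, zero_add, ← e1, ← e2] at this
        rw [this, mul_zero, zero_mul, sub_zero, zero_smul]
      rw [h7, inner_zero_left] at h6
      exact lt_irrefl _ h6
    · exact h3
  have hn : 0 < ‖x + (1 : ℝ) • y‖⁻¹ := inv_pos.2 (norm_pos_iff.2 q0)
  refine ⟨‖x + (1 : ℝ) • y‖⁻¹ * (c1 + c2), θ, ‖x + (1 : ℝ) • y‖⁻¹ * (⟪a, x⟫ + ⟪a, y⟫),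
    mul_pos hn hc, by linarith, by linarith, ?_⟩
  obtain ⟨N, hN⟩ : ∃ N, N = ‖x + (1 : ℝ) • y‖⁻¹ := ⟨_, rfl⟩
  have e3 : nrm (x + (1 : ℝ) • y) = N • (x + (1 : ℝ) • y) := by
    rw [hN]; rfl
  rw [e3, ← hN]
  have e4 : x + (1 : ℝ) • y = (c1 + c2) • dr a r0 θ + (⟪a, x⟫ + ⟪a, y⟫) • a := by
    conv_lhs => rw [e1, e2]
    module
  rw [e4]
  unfold dr
  module

theorem side_pos {a r0 : E3} (ha : ‖a‖ = 1) (hr0 : ‖r0‖ = 1) (h0 : ⟪a, r0⟫ = 0) {θ δ : ℝ}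
    (hδ : δ ≤ Real.pi) {y : E3} (hy : y ∈ Sec a r0 (θ - δ) (θ + δ))
    (hd : 0 < det3 a (dr a r0 θ) y) : y ∈ Sec a r0 θ (θ + δ) := by
  obtain ⟨c, φ, z, hc, h1, h2, e⟩ := hy
  refine ⟨c, φ, z, hc, ?_, h2, e⟩
  rw [e, det_dr ha hr0 h0] at hd
  by_contra h3
  rw [not_lt] at h3
  have h4 : Real.sin (φ - θ) ≤ 0 :=
    Real.sin_nonpos_of_nonpos_of_neg_pi_le (by linarith) (by linarith)
  nlinarith

theorem side_neg {a r0 : E3} (ha : ‖a‖ = 1) (hr0 : ‖r0‖ = 1) (h0 : ⟪a, r0⟫ = 0) {θ δ : ℝ}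
    (hδ : δ ≤ Real.pi) {y : E3} (hy : y ∈ Sec a r0 (θ - δ) (θ + δ))
    (hd : det3 a (dr a r0 θ) y < 0) : y ∈ Sec a r0 (θ - δ) θ := by
  obtain ⟨c, φ, z, hc, h1, h2, e⟩ := hy
  refine ⟨c, φ, z, hc, h1, ?_, e⟩
  rw [e, det_dr ha hr0 h0] at hd
  by_contra h3
  rw [not_lt] at h3
  have h4 : 0 ≤ Real.sin (φ - θ) :=
    Real.sin_nonneg_of_nonneg_of_le_pi (by linarith) (by linarith)
  nlinarith

theorem det_of_crs {a r x y w : E3} {κ : ℝ} (h : crs x y = κ • crs a r) :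
    det3 x y w = κ * det3 a r w := by
  rw [← crs_inner, h, real_inner_smul_left, crs_inner]

/-- Points of the regions on both sides of a down dart. -/
theorem sides (hG : Good M p h) {a r0 : E3} (ha : ‖a‖ = 1) (hr0 : ‖r0‖ = 1)
    (h0 : ⟪a, r0⟫ = 0) {θ : ℝ} {d : M.G.Dart} (h1 : OnR a (dr a r0 θ) (p d.fst))
    (h2 : OnR a (dr a r0 θ) (p d.snd)) {κ : ℝ} (hκ : 0 < κ)
    (hcr : crs (p d.fst) (p d.snd) = κ • crs a (dr a r0 θ)) {δ : ℝ} (hδ0 : 0 < δ)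
    (hδ : δ ≤ Real.pi) :
    (∃ y, y ∈ Sec a r0 θ (θ + δ) ∧ y ∈ Reg M p h (M.fc d)) ∧
    (∃ y, y ∈ Sec a r0 (θ - δ) θ ∧ y ∈ Reg M p h (M.fc d.symm)) := by
  obtain ⟨m, m1, m2, m3, m4⟩ := mid_mer ha hr0 h0 (hG.inC.unit _) (hG.inC.unit _)
    (hG.inC.q_ne d) (hG.inC.ne_neg d) h1 h2 hδ0
  have hU := (Sec_open ha hr0 h0 (θ - δ) (θ + δ)).mem_nhds m4
  constructor
  · obtain ⟨y, y1, y2, y3⟩ := left_Reg' hG d m1 m2 m3 hU
    rw [det_of_crs hcr] at y3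
    exact ⟨y, side_pos ha hr0 h0 hδ y1 ((mul_pos_iff_of_pos_left hκ).1 y3), y2⟩
  · obtain ⟨y, y1, y2, y3⟩ := left_Reg' hG d.symm (by rw [arc_comm]; exact m1) m3 m2 hU
    have y3' : 0 < det3 (p d.snd) (p d.fst) y := y3
    have h5 : det3 (p d.snd) (p d.fst) y = - (κ * det3 a (dr a r0 θ) y) := by
      rw [← det_of_crs hcr]; simp only [det3]; ring
    rw [h5] at y3'
    refine ⟨y, side_neg ha hr0 h0 hδ y1 ?_, y2⟩
    by_contra h6
    rw [not_lt] at h6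
    have := mul_nonneg hκ.le h6
    linarith

end N9Fl
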