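import Pool.Agent.Helper24.N9.Deg2
import Pool.Agent.Helper93.N9.Rays

/-!
MP_9b91d1_co: open sectors (lunes) of longitudes about an axis.
-/

open scoped RealInnerProductSpace Topology
open Pool.Agent.Helper30.N9 Pool.Agent.Helper30.N9.PlaneGraph

namespace N9Sec

theorem det3_frame (a r N : E3) (A B C D z : ℝ) :
    det3 a (A • r + B • N) (C • r + D • N + z • a) = (A * D - B * C) * det3 a r N := by
  simp only [det3, PiLp.add_apply, PiLp.smul_apply, smul_eq_mul]; ring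

theorem det3_frame1 {a r : E3} (ha : ‖a‖ = 1) (hr : ‖r‖ = 1) (har : ⟪a, r⟫ = 0) :
    det3 a r (crs a r) = 1 := by
  rw [← crs_inner, crs_inner_self, inner_self_one ha, inner_self_one hr, har]; norm_num

/-- The open sector of longitudes between `α` and `β`. -/
def Sec (a r0 : E3) (α β : ℝ) : Set E3 :=
  {y | ∃ c φ z : ℝ, 0 < c ∧ α < φ ∧ φ < β ∧
    y = (c * Real.cos φ) • r0 + (c * Real.sin φ) • crs a r0 + z • a}

/-- The direction of longitude `θ`. -/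
noncomputable def dr (a r0 : E3) (θ : ℝ) : E3 := Real.cos θ • r0 + Real.sin θ • crs a r0

theorem Sec_mono {a r0 : E3} {α β α' β' : ℝ} (h1 : α' ≤ α) (h2 : β ≤ β') :
    Sec a r0 α β ⊆ Sec a r0 α' β' := by
  rintro y ⟨c, φ, z, hc, h3, h4, hy⟩
  exact ⟨c, φ, z, hc, lt_of_le_of_lt h1 h3, lt_of_lt_of_le h4 h2, hy⟩

theorem Sec_preconn (a r0 : E3) (α β : ℝ) : IsPreconnected (Sec a r0 α β) := by
  have : Sec a r0 α β = (fun x : ℝ × ℝ × ℝ => (x.1 * Real.cos x.2.1) • r0 +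
      (x.1 * Real.sin x.2.1) • crs a r0 + x.2.2 • a) ''
        (Set.Ioi 0 ×ˢ (Set.Ioo α β ×ˢ Set.univ)) := by
    ext y
    constructor
    · rintro ⟨c, φ, z, hc, h1, h2, hy⟩
      exact ⟨(c, φ, z), ⟨hc, ⟨h1, h2⟩, Set.mem_univ _⟩, hy.symm⟩
    · rintro ⟨⟨c, φ, z⟩, ⟨hc, ⟨h1, h2⟩, -⟩, hy⟩
      exact ⟨c, φ, z, hc, h1, h2, hy.symm⟩
  rw [this]
  apply IsPreconnected.image
  · exact isPreconnected_Ioi.prod (isPreconnected_Ioo.prod isPreconnected_univ)
  · apply Continuous.continuousOn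
    fun_prop

theorem expand3 {a r0 : E3} (ha : ‖a‖ = 1) (hr0 : ‖r0‖ = 1) (h0 : ⟪a, r0⟫ = 0) (y : E3) :
    y = ⟪r0, y⟫ • r0 + det3 a r0 y • crs a r0 + ⟪a, y⟫ • a := by
  have h1 : ⟪a, y - ⟪a, y⟫ • a⟫ = 0 := by
    rw [inner_sub_right, real_inner_smul_right, inner_self_one ha]; ring
  have h2 := H93.expand ha hr0 h0 h1
  have h3 : ⟪r0, y - ⟪a, y⟫ • a⟫ = ⟪r0, y⟫ := by
    rw [inner_sub_right, real_inner_smul_right, real_inner_comm a r0, h0]; ring
  have h4 : det3 a r0 (y - ⟪a, y⟫ • a) = det3 a r0 y := by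
    simp only [det3, PiLp.sub_apply, PiLp.smul_apply, smul_eq_mul]; ring
  rw [h3, h4] at h2
  rw [← h2]; abel

theorem coord {a r0 : E3} (ha : ‖a‖ = 1) (hr0 : ‖r0‖ = 1) (h0 : ⟪a, r0⟫ = 0) (A B z : ℝ) :
    ⟪r0, A • r0 + B • crs a r0 + z • a⟫ = A ∧ det3 a r0 (A • r0 + B • crs a r0 + z • a) = B := by
  constructor
  · have h1 : ⟪r0, crs a r0⟫ = 0 := by
      rw [real_inner_comm, crs_inner]; simp only [det3]; ring
    rw [inner_add_right, inner_add_right, real_inner_smul_right, real_inner_smul_right,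
      real_inner_smul_right, h1, inner_self_one hr0, real_inner_comm, h0]
    ring
  · have := det3_frame a r0 (crs a r0) 1 0 A B z
    rw [one_smul, zero_smul, add_zero, det3_frame1 ha hr0 h0] at this
    rw [this]; ring

theorem Sec_open {a r0 : E3} (ha : ‖a‖ = 1) (hr0 : ‖r0‖ = 1) (h0 : ⟪a, r0⟫ = 0) (α β : ℝ) :
    IsOpen (Sec a r0 α β) := by
  obtain ⟨f, hf⟩ : ∃ f : E3 → ℂ, f = fun y => ((⟪r0, y⟫ : ℝ) : ℂ) +
      ((det3 a r0 y : ℝ) : ℂ) * Complex.I := ⟨_, rfl⟩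
  have hfc : Continuous f := by
    rw [hf]
    have h1 : Continuous (fun y : E3 => ⟪r0, y⟫) := by fun_prop
    have h2 : Continuous (fun y : E3 => det3 a r0 y) := continuous_det3 a r0
    exact (Complex.continuous_ofReal.comp h1).add
      ((Complex.continuous_ofReal.comp h2).mul continuous_const)
  have hO : IsOpen (Complex.exp '' {w : ℂ | α < w.im ∧ w.im < β}) := by
    apply Complex.isOpenMap_exp
    exact (isOpen_lt continuous_const Complex.continuous_im).inter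
      (isOpen_lt Complex.continuous_im continuous_const)
  have : Sec a r0 α β = f ⁻¹' (Complex.exp '' {w : ℂ | α < w.im ∧ w.im < β}) := by
    ext y
    constructor
    · rintro ⟨c, φ, z, hc, h1, h2, hy⟩
      refine ⟨((Real.log c : ℝ) : ℂ) + (φ : ℂ) * Complex.I, ?_, ?_⟩
      · constructor <;> simp [h1, h2]
      · obtain ⟨e1, e2⟩ := coord ha hr0 h0 (c * Real.cos φ) (c * Real.sin φ) z
        rw [hf]
        simp only
        rw [hy, e1, e2, Complex.exp_add, ← Complex.ofReal_exp, Real.exp_log hc,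
          Complex.exp_mul_I, ← Complex.ofReal_cos, ← Complex.ofReal_sin]
        push_cast
        ring
    · rintro ⟨w, ⟨h1, h2⟩, hw⟩
      have e1 := congrArg Complex.re hw
      have e2 := congrArg Complex.im hw
      rw [Complex.exp_re, hf] at e1
      rw [Complex.exp_im, hf] at e2
      simp only [Complex.add_re, Complex.add_im, Complex.ofReal_re, Complex.ofReal_im,
        Complex.mul_re, Complex.mul_im, Complex.I_re, Complex.I_im] at e1 e2
      refine ⟨Real.exp w.re, w.im, ⟪a, y⟫, Real.exp_pos _, h1, h2, ?_⟩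
      conv_lhs => rw [expand3 ha hr0 h0 y]
      congr 3
      · rw [e1]; ring
      · rw [e2]; ring
  rw [this]
  exact hO.preimage hfc

/-- sign of the determinant in a sector -/
theorem det_dr {a r0 : E3} (ha : ‖a‖ = 1) (hr0 : ‖r0‖ = 1) (h0 : ⟪a, r0⟫ = 0) (θ c φ z : ℝ) :
    det3 a (dr a r0 θ) ((c * Real.cos φ) • r0 + (c * Real.sin φ) • crs a r0 + z • a) =
      c * Real.sin (φ - θ) := by
  unfold dr
  rw [det3_frame, det3_frame1 ha hr0 h0, Real.sin_sub]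
  ring

theorem Sec_ne_zero {a r0 : E3} (ha : ‖a‖ = 1) (hr0 : ‖r0‖ = 1) (h0 : ⟪a, r0⟫ = 0) {α β : ℝ}
    {y : E3} (hy : y ∈ Sec a r0 α β) : y ≠ 0 := by
  obtain ⟨c, φ, z, hc, -, -, hy⟩ := hy
  obtain ⟨e1, e2⟩ := coord ha hr0 h0 (c * Real.cos φ) (c * Real.sin φ) z
  rintro rfl
  rw [← hy, inner_zero_right] at e1
  rw [← hy] at e2
  have e3 : det3 a r0 0 = 0 := by simp [det3]
  rw [e3] at e2
  have h1 := Real.sin_sq_add_cos_sq φ
  have h2 : Real.cos φ = 0 := by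
    rcases mul_eq_zero.1 e1.symm with h | h
    · exact absurd h hc.ne'
    · exact h
  have h3 : Real.sin φ = 0 := by
    rcases mul_eq_zero.1 e2.symm with h | h
    · exact absurd h hc.ne'
    · exact h
  rw [h2, h3] at h1
  norm_num at h1

/-- polar coordinates -/
theorem exists_polar {a r0 : E3} (ha : ‖a‖ = 1) (hr0 : ‖r0‖ = 1) (h0 : ⟪a, r0⟫ = 0) {y : E3}
    (hy : det3 a r0 y ≠ 0) : ∃ c φ : ℝ, 0 < c ∧ 0 ≤ φ ∧ φ < 2 * Real.pi ∧
      y = (c * Real.cos φ) • r0 + (c * Real.sin φ) • crs a r0 + ⟪a, y⟫ • a := by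
  obtain ⟨c, hc⟩ : ∃ c, c = Real.sqrt (⟪r0, y⟫ ^ 2 + det3 a r0 y ^ 2) := ⟨_, rfl⟩
  have hpos : 0 < ⟪r0, y⟫ ^ 2 + det3 a r0 y ^ 2 := by positivity
  have hc0 : 0 < c := by rw [hc]; exact Real.sqrt_pos.2 hpos
  have hc2 : c ^ 2 = ⟪r0, y⟫ ^ 2 + det3 a r0 y ^ 2 := by rw [hc]; exact Real.sq_sqrt hpos.le
  obtain ⟨φ, h1, h2, h3, h4⟩ := H93.exists_angle (c := ⟪r0, y⟫ / c) (s := det3 a r0 y / c) (by
    rw [div_pow, div_pow, ← add_div, ← hc2]
    exact div_self (by positivity))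
  refine ⟨c, φ, hc0, h1, h2, ?_⟩
  conv_lhs => rw [expand3 ha hr0 h0 y]
  rw [h3, h4, mul_div_cancel₀ _ hc0.ne', mul_div_cancel₀ _ hc0.ne']

theorem find_idx {th : ℕ → ℝ} {φ : ℝ} : ∀ k : ℕ, th 0 ≤ φ → φ < th k →
    ∃ i < k, th i ≤ φ ∧ φ < th (i + 1) := by
  intro k
  induction k with
  | zero => intro h1 h2; exact absurd h1 (not_le.2 h2)
  | succ k ih =>
    intro h1 h2
    by_cases h : φ < th k
    · obtain ⟨i, hi, h3⟩ := ih h1 h
      exact ⟨i, by omega, h3⟩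
    · exact ⟨k, by omega, not_lt.1 h, h2⟩

end N9Sec
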